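import Pool.Agent.Lib.MP_2b5695_lc.Owf.Sample

/-!
The algorithm that inverts functions.
-/

namespace Pool.Agent.Lib.MP_2b5695_lc.Owf

open Alg

variable {ι : Ty} {A : Set ι.El} {a b c d : Ty}

theorem pf_dropN {l : a.El → List b.El} {N : a.El → ℕ}
    (hN : PF A a .word (fun v => List.replicate (N v) true)) (hl : PF A a (.list b) l) :
    PF A a (.list b) (fun v => (l v).drop (N v)) :=
  (PF.drop hN hl).of_eq fun v => by rw [List.length_replicate]

theorem pf_takeN {l : a.El → List b.El} {N : a.El → ℕ}
    (hN : PF A a .word (fun v => List.replicate (N v) true)) (hl : PF A a (.list b) l) :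
    PF A a (.list b) (fun v => (l v).take (N v)) :=
  (pf_take hN hl).of_eq fun v => by rw [List.length_replicate]

theorem pf_add {M N : a.El → ℕ}
    (hM : PF A a .word (fun v => List.replicate (M v) true))
    (hN : PF A a .word (fun v => List.replicate (N v) true)) :
    PF A a .word (fun v => List.replicate (M v + N v) true) :=
  (hM.append hN).of_eq fun v => by rw [List.replicate_append_replicate]

theorem pf_double {M : a.El → ℕ}
    (hM : PF A a .word (fun v => List.replicate (M v) true)) :
    PF A a .word (fun v => List.replicate (2 * M v) true) :=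
  (pf_add hM hM).of_eq fun v => by rw [Nat.two_mul]

theorem pf_parse {aux nu tu Nu lu qu y iu au w : a.El → List Bool} (haux : PF A a .word aux)
    (hnu : PF A a .word nu) (htu : PF A a .word tu) (hNu : PF A a .word Nu)
    (hlu : PF A a .word lu) (hqu : PF A a .word qu) (hy : PF A a .word y) (hiu : PF A a .word iu)
    (hau : PF A a .word au) (hw : PF A a .word w) :
    PF A a (.prod Ty.key (.prod (.list .word) .word)) (fun v => parse (aux v) (nu v) (tu v) (Nu v) (lu v)
      (qu v) (y v) (iu v) (au v) (w v)) := by
  have lNu := pf_unary hNu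
  have llu := pf_unary hlu
  have hw1 := pf_dropN (PF.mulList (pf_unary hiu) (pf_unary hy)) hw
  have hw2 := pf_dropN (PF.mulList (pf_unary hau) lNu) hw1
  have hku := (PF.mulList (pf_unary htu) (pf_unary hiu)).append (pf_unary hau)
  have lku := pf_unary (b := .bool) hku
  have hw3 := pf_dropN (PF.mulList llu lku) hw2
  have hsu := pf_double llu
  have lsu := pf_unary (b := .bool) hsu
  have hsN := PF.mulList lsu lNu
  have hlu1 : PF A a .word (fun v => List.replicate ((lu v).length + 1) true) :=
    pf_add llu (PF.const .word [true])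
  have hw4 := pf_dropN (PF.mulList hlu1 hsN) hw3
  have hw5 := pf_dropN (PF.mulList (pf_unary hqu) lsu) hw4
  have hpads := PF.map (b := .word) (c := .list .word) (φ := fun x => blocks (Nu x.2)
      (List.replicate (2 * (lu x.2).length) true) x.1)
    (pf_blocks hsN ((PF.tt a).cons' hlu) hw3)
    (pf_blocks (hNu.comp (PF.snd _ _)) (hsu.comp (PF.snd _ _)) (PF.fst _ _))
  exact ((((haux.pair hnu).pair htu).pair (((pf_blocks hy hiu hw).pair (pf_blocks hNu hau hw1)).pair
    ((pf_blocks hku hlu hw2).pair hpads))).pair ((pf_blocks hsu hqu hw4).pair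
    (pf_takeN lNu hw5)))

variable {f : List Bool × List Bool → List Bool}
  {E : Ty.key.El × List (List Bool) → List Bool × (List Bool × List Bool)}

theorem pf_attW (hf : PF A (.prod .word .word) .word f) (hE : PF A (.prod Ty.key (.list .word)) Ty.pos E)
    {y X w J c : a.El → List Bool} {k : a.El → Ty.key.El} {rs : a.El → List (List Bool)}
    (hy : PF A a .word y) (hk : PF A a Ty.key k) (hrs : PF A a (.list .word) rs)
    (hX : PF A a .word X) (hw : PF A a .word w) (hJ : PF A a .word J) (hc : PF A a .word c) :
    PF A a .word (fun v => attW f E (y v) (k v) (rs v) (X v) (w v) (J v) (c v)) := by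
  have hnu : PF A a .word (fun v => (k v).1.1.2) := hk.fst'.fst'.snd'
  have haux : PF A a .word (fun v => (k v).1.1.1) := hk.fst'.fst'.fst'
  have lcn := PF.mulList (pf_unary hc) (pf_unary hnu)
  have hxc := pf_takeN (pf_unary hnu) (pf_dropN lcn hX)
  have hd := pf_xorW hy (hf.comp (haux.pair hxc))
  have hk2 := pf_plantK hf (pf_fixK hk hd) hrs hw hJ hX
  have he : PF A a .word (fun v => (E (plantK f (fixK (k v) (xorW (y v) (f ((k v).1.1.1, ((X v).drop
      ((c v).length * (k v).1.1.2.length)).take (k v).1.1.2.length)))) (rs v) (w v) (J v) (X v),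
      rs v)).2.1) := (hE.comp (hk2.pair hrs)).snd'.fst'
  exact pf_takeN (pf_unary hnu) (pf_dropN lcn (pf_inp hf hk2 (pf_levelPads hk2 hw) he hJ))

/-- all proper suffixes -/
def tails (u : List Bool) : List (List Bool) :=
  scan (fun x : Bool × List Bool × Bool => x.2.1) true u

theorem mem_tails {j n : ℕ} (h : j < n) :
    List.replicate j true ∈ tails (List.replicate n true) := by
  induction n with
  | zero => omega
  | succ n ih =>
    rw [List.replicate_succ, tails, scan]
    rcases Nat.lt_succ_iff_lt_or_eq.1 h with h | h
    · exact List.mem_cons_of_mem _ (ih h)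
    · rw [h]; simp

theorem pf_tails {u : a.El → List Bool} (hu : PF A a .word u) :
    PF A a (.list .word) (fun v => tails (u v)) :=
  PF.scan (b := .bool) (c := .word) (d := .bool) (PF.snd _ _).fst' hu (PF.tt _)

/-- all pairs -/
def prodL {α β : Type} (u : List α) (v : List β) : List (α × β) :=
  u.flatMap fun x => v.map fun y => (x, y)

theorem mem_prodL {α β : Type} {u : List α} {v : List β} {x : α} {y : β} (hx : x ∈ u)
    (hy : y ∈ v) : (x, y) ∈ prodL u v := by
  rw [prodL, List.mem_flatMap]
  exact ⟨x, hx, List.mem_map.2 ⟨y, hy, rfl⟩⟩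

theorem pf_prodL {u : a.El → List b.El} {v : a.El → List c.El} (hu : PF A a (.list b) u)
    (hv : PF A a (.list c) v) : PF A a (.list (.prod b c)) (fun x => prodL (u x) (v x)) := by
  have h1 : PF A (.prod b a) (.list (.prod b c)) (fun z => (v z.2).map fun y => (z.1, y)) :=
    PF.map (a := .prod b a) (b := c) (c := .prod b c)
      (φ := fun w : c.El × (b.El × a.El) => (w.2.1, w.1)) (hv.comp (PF.snd _ _))
      ((PF.snd _ _).fst'.pair (PF.fst _ _))
  exact PF.flatMap (b := b) (c := .prod b c) (φ := fun z => (v z.2).map fun y => (z.1, y)) hu h1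

/-- the parameters of the attempts -/
@[reducible] def Ty.par : Ty := .prod .word (.prod .word (.prod .word (.prod .word .word)))

/-- all parameters -/
def params (nu Nu tu lu qu : List Bool) : List Ty.par.El :=
  prodL (tails (true :: nu)) (prodL (tails (true :: Nu)) (prodL
    ((tails (qu ++ qu).tail).map fun u => Nat.bits (u.length + 1)) (prodL (tails (lu ++ lu))
      (tails tu))))

theorem pf_params {nu Nu tu lu qu : a.El → List Bool} (hnu : PF A a .word nu)
    (hNu : PF A a .word Nu) (htu : PF A a .word tu) (hlu : PF A a .word lu)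
    (hqu : PF A a .word qu) :
    PF A a (.list Ty.par) (fun v => params (nu v) (Nu v) (tu v) (lu v) (qu v)) := by
  have h1 : PF A (.prod .word a) .word (fun u => Nat.bits (u.1.length + 1)) :=
    (PF.binLength ((PF.tt _).cons' (PF.fst .word a))).of_eq fun u => by rw [List.length_cons]
  exact pf_prodL (pf_tails ((PF.tt a).cons' hnu)) (pf_prodL (pf_tails ((PF.tt a).cons' hNu))
    (pf_prodL (PF.map (b := .word) (c := .word) (φ := fun u => Nat.bits (u.1.length + 1))
      (pf_tails (hqu.append hqu).tail) h1) (pf_prodL (pf_tails (hlu.append hlu)) (pf_tails htu))))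

theorem mem_params {n N t l q i e : ℕ} (hi : i ≤ n) (ha : e ≤ N) (c : Loc q l) (j : Fin t) :
    (List.replicate i true, (List.replicate e true, (ndW c, (stW c, List.replicate j true)))) ∈
      params (List.replicate n true) (List.replicate N true) (List.replicate t true)
        (List.replicate l true) (List.replicate q true) := by
  have e1 : ∀ n : ℕ, true :: List.replicate n true = List.replicate (n + 1) true := fun _ => rfl
  have e2 : (List.replicate q true ++ List.replicate q true).tail =
      List.replicate (2 * q - 1) true := by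
    rw [List.replicate_append_replicate, List.tail_replicate]
    congr 1
    omega
  have e3 : List.replicate l true ++ List.replicate l true = List.replicate (2 * l) true := by
    rw [List.replicate_append_replicate]
    congr 1
    omega
  rw [params, e1, e1, e2, e3]
  refine mem_prodL (mem_tails (by omega)) (mem_prodL (mem_tails (by omega)) (mem_prodL ?_
    (mem_prodL (mem_tails c.2.2) (mem_tails j.2))))
  rw [List.mem_map]
  exact ⟨_, mem_tails c.1.2, by rw [List.length_replicate, ndW]⟩

/-- one attempt -/
def att (f : List Bool × List Bool → List Bool)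
    (E : Ty.key.El × List (List Bool) → List Bool × (List Bool × List Bool))
    (aux nu tu Nu lu qu y w : List Bool) (p : Ty.par.El) : List Bool :=
  attW f E y (parse aux nu tu Nu lu qu y p.1 p.2.1 w).1 (parse aux nu tu Nu lu qu y p.1 p.2.1 w).2.1
    (parse aux nu tu Nu lu qu y p.1 p.2.1 w).2.2 p.2.2.1 p.2.2.2.1 p.2.2.2.2

theorem pf_att (hf : PF A (.prod .word .word) .word f) (hE : PF A (.prod Ty.key (.list .word)) Ty.pos E)
    {aux nu tu Nu lu qu y w : a.El → List Bool} {p : a.El → Ty.par.El}
    (haux : PF A a .word aux) (hnu : PF A a .word nu)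
    (htu : PF A a .word tu) (hNu : PF A a .word Nu) (hlu : PF A a .word lu)
    (hqu : PF A a .word qu) (hy : PF A a .word y) (hw : PF A a .word w) (hp : PF A a Ty.par p) :
    PF A a .word (fun v => att f E (aux v) (nu v) (tu v) (Nu v) (lu v) (qu v) (y v) (w v) (p v)) := by
  have h1 := pf_parse haux hnu htu hNu hlu hqu hy hp.fst' hp.snd'.fst' hw
  exact pf_attW hf hE hy h1.fst' h1.snd'.fst' h1.snd'.snd' hp.snd'.snd'.fst'
    hp.snd'.snd'.snd'.fst' hp.snd'.snd'.snd'.snd'

/-- the first preimage of `y` of the length of `nu` in a list -/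
def sel (f : List Bool × List Bool → List Bool) (aux nu y : List Bool) (l : List (List Bool)) : List Bool :=
  (l.flatMap fun x => bif (decide (x.length ≤ nu.length) && decide (nu.length ≤ x.length)) &&
    decide (f (aux, x) = y) then [x] else []).headD []

theorem sel_spec {aux nu y : List Bool} {l : List (List Bool)} {x : List Bool} (hx : x ∈ l)
    (h1 : x.length = nu.length) (h2 : f (aux, x) = y) :
    (sel f aux nu y l).length = nu.length ∧ f (aux, sel f aux nu y l) = y := by
  rw [sel]
  set L := l.flatMap fun x => bif (decide (x.length ≤ nu.length) &&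
    decide (nu.length ≤ x.length)) && decide (f (aux, x) = y) then [x] else [] with hL
  have h3 : ∀ z, z ∈ L → z.length = nu.length ∧ f (aux, z) = y := by
    intro z hz
    rw [hL, List.mem_flatMap] at hz
    obtain ⟨u, _, hu⟩ := hz
    by_cases hc : ((decide (u.length ≤ nu.length) && decide (nu.length ≤ u.length)) &&
      decide (f (aux, u) = y)) = true
    · rw [hc, cond_true, List.mem_singleton] at hu
      simp only [Bool.and_eq_true, decide_eq_true_eq] at hc
      rw [hu]
      exact ⟨le_antisymm hc.1.1 hc.1.2, hc.2⟩
    · rw [Bool.not_eq_true] at hc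
      rw [hc, cond_false] at hu
      simp at hu
  have h4 : x ∈ L := by
    rw [hL, List.mem_flatMap]
    refine ⟨x, hx, ?_⟩
    have hc : ((decide (x.length ≤ nu.length) && decide (nu.length ≤ x.length)) &&
      decide (f (aux, x) = y)) = true := by
      simp only [Bool.and_eq_true, decide_eq_true_eq]
      exact ⟨⟨h1.le, h1.ge⟩, h2⟩
    rw [hc, cond_true]
    simp
  cases hLe : L with
  | nil => rw [hLe] at h4; simp at h4
  | cons z L' =>
    rw [List.headD_cons]
    exact h3 z (by rw [hLe]; simp)

theorem pf_sel (hf : PF A (.prod .word .word) .word f) {aux nu y : a.El → List Bool} {l : a.El → List (List Bool)}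
    (haux : PF A a .word aux) (hnu : PF A a .word nu) (hy : PF A a .word y)
    (hl : PF A a (.list .word) l) :
    PF A a .word (fun v => sel f (aux v) (nu v) (y v) (l v)) := by
  have h1 : PF A (.prod .word a) .word (fun z => z.1) := PF.fst _ _
  have h2 := hnu.comp (PF.snd .word a)
  have h3 := hy.comp (PF.snd .word a)
  have h4 := ((PF.lengthLE (b := .bool) (c := .bool) h1 h2).and'
    (PF.lengthLE (b := .bool) (c := .bool) h2 h1)).and' (PF.wordEq (hf.comp ((haux.comp (PF.snd .word a)).pair h1)) h3)
  have h5 : PF A (.prod .word a) (.list .word) (fun z => bif (decide (z.1.length ≤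
      (nu z.2).length) && decide ((nu z.2).length ≤ z.1.length)) && decide (f (aux z.2, z.1) = y z.2)
      then [z.1] else []) := h4.cond' (h1.cons' (PF.nil _ .word)) (PF.nil _ .word)
  exact (PF.flatMap (b := .word) (c := .word) (φ := fun z => bif (decide (z.1.length ≤
      (nu z.2).length) && decide ((nu z.2).length ≤ z.1.length)) && decide (f (aux z.2, z.1) = y z.2)
      then [z.1] else []) hl h5).headD (PF.nil _ _)

/-- the algorithm: the input is `(aux, (nu, (y, w)))`, where `w` is the random word -/
def invE (f : List Bool × List Bool → List Bool)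
    (E : Ty.key.El × List (List Bool) → List Bool × (List Bool × List Bool))
    (T Q : Polynomial ℕ) (x : List Bool × (List Bool × (List Bool × List Bool))) : List Bool :=
  sel f x.1 x.2.1 x.2.2.1 (x.2.2.2.take x.2.1.length ::
    (params (List.replicate x.2.1.length true)
      (List.replicate (T.eval (x.1.length + x.2.1.length) * x.2.1.length) true)
      (List.replicate (T.eval (x.1.length + x.2.1.length)) true)
      (List.replicate (T.eval (x.1.length + x.2.1.length) * x.2.1.length) true).tail
      (List.replicate (Q.eval (x.1.length + x.2.1.length)) true)).map fun p =>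
        att f E x.1 (List.replicate x.2.1.length true)
          (List.replicate (T.eval (x.1.length + x.2.1.length)) true)
          (List.replicate (T.eval (x.1.length + x.2.1.length) * x.2.1.length) true)
          (List.replicate (T.eval (x.1.length + x.2.1.length) * x.2.1.length) true).tail
          (List.replicate (Q.eval (x.1.length + x.2.1.length)) true) x.2.2.1 x.2.2.2 p)

theorem pf_invE (hf : PF A (.prod .word .word) .word f)
    (hE : PF A (.prod Ty.key (.list .word)) Ty.pos E)
    (T Q : Polynomial ℕ) :
    PF A (.prod .word (.prod .word (.prod .word .word))) .word (invE f E T Q) := by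
  have hx1 : PF A (.prod .word (.prod .word (.prod .word .word))) .word (fun x => x.1) :=
    PF.fst _ _
  have hx2 : PF A (.prod .word (.prod .word (.prod .word .word))) .word (fun x => x.2.1) :=
    (PF.snd _ _).fst'
  have hy : PF A (.prod .word (.prod .word (.prod .word .word))) .word (fun x => x.2.2.1) :=
    (PF.snd _ _).snd'.fst'
  have hw : PF A (.prod .word (.prod .word (.prod .word .word))) .word (fun x => x.2.2.2) :=
    (PF.snd _ _).snd'.snd'
  have hnu := pf_unary (b := .bool) hx2
  have hsu := pf_add (pf_unary (b := .bool) hx1) hnu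
  have htu := PF.polyList hsu T
  have hNu := PF.mulList htu hnu
  have hlu : PF A (.prod .word (.prod .word (.prod .word .word))) .word (fun x =>
    (List.replicate (T.eval (x.1.length + x.2.1.length) * x.2.1.length) true).tail) :=
    PF.tail (b := .bool) hNu
  have hqu := PF.polyList hsu Q
  have h1 := pf_params hnu hNu htu hlu hqu
  have hs : PF A (.prod Ty.par (.prod .word (.prod .word (.prod .word .word))))
    (.prod .word (.prod .word (.prod .word .word))) (fun z => z.2) := PF.snd _ _
  have h2 := PF.map (b := Ty.par) (c := .word) h1 (pf_att hf hE (hx1.comp hs) (hnu.comp hs)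
    (htu.comp hs) (hNu.comp hs) (hlu.comp hs) (hqu.comp hs) (hy.comp hs) (hw.comp hs)
    (PF.fst _ _))
  exact pf_sel hf hx1 hx2 hy ((pf_takeN hnu hw).cons' h2)

end Pool.Agent.Lib.MP_2b5695_lc.Owf
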