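import Pool.Agent.Lib.MP_2b5695_lc.Owf.GapDef

/-!
The hash function that shrinks by one bit, on functions.
-/

namespace Pool.Agent.Lib.MP_2b5695_lc.Owf

open Finset

variable {n m i t a l : ℕ}

/-- a sequence of `t` words of length `n` as one word -/
def flat {t n : ℕ} (X : Fin t → BV n) : BV (t * n) := fun x =>
  X (finProdFinEquiv.symm x).1 (finProdFinEquiv.symm x).2

/-- the hashed values of the blocks -/
def PP (f : BV n → BV m) (g : BM i m) (X : Fin t → BV n) : BV (t * i) :=
  flat fun j => mulF g (f (X j))

/-- the hash function -/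
def FF (f : BV n → BV m) (g : BM i m) (G : BM a (t * n)) (h : BM l (t * i + a))
    (X : Fin t → BV n) : BV l :=
  mulF h (Fin.append (PP f g X) (mulF G (flat X)))

/-- the accessible preimages, in all blocks -/
def accP (f : BV n → BV m) (g : BM i m) (X : Fin t → BV n) : Finset (Fin t → BV n) :=
  Fintype.piFinset fun j => accS f g (X j)

open Classical in
/-- for most `X` there are far less than `2 ^ a` accessible sequences, and far more than `2 ^ a`
consistent sequences -/
def Good (f : BV n → BV m) (g : BM i m) (t a : ℕ) (L : ℝ) : Prop :=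
  ((univ.filter fun X : Fin t → BV n => ¬ ((accP f g X).card * L ^ 2 ≤
      (Fintype.card (BV a) : ℝ))).card : ℝ) * L ≤ Fintype.card (Fin t → BV n) ∧
  ((univ.filter fun X : Fin t → BV n => ¬ ((Fintype.card (BV a) : ℝ) * L ^ 2 ≤
      ((univ.filter fun X' : Fin t → BV n => PP f g X' = PP f g X).card : ℝ))).card : ℝ) * L ≤
    Fintype.card (Fin t → BV n)

/-- `z' c` is a consistent input that is not accessible from `z c` -/
def Brk (f : BV n → BV m) (g : BM i m) (z z' : Fin t → BV n) (c : Fin t) : Prop :=
  z' c ∈ realS f g (z c) ∧ z' c ∉ accS f g (z c)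

end Pool.Agent.Lib.MP_2b5695_lc.Owf
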