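import Pool.Agent.Lib.MP_2b5695_lc.Owf.PRun
import Pool.Agent.Lib.MP_2b5695_lc.Alg.HashFinal

/-!
Merkle trees with a position dependent hash function: counting, and the final theorem.
-/

namespace Pool.Agent.Lib.MP_2b5695_lc.Owf

open Alg

variable {ι : Ty} {A : Set ι.El} {κ K : Ty} {H : K.El × List Bool × List Bool → List Bool}
  {L : K.El → List Bool} {k : K.El}
  {rs rs' : List (List Bool)} {pad : Polynomial ℕ} {g : κ.El → Bool}
  {S : List Bool × Ty.history.El → (Ty.move κ).El}

theorem same_of_forall {n : ℕ} : ∀ {l l' : List (List Bool)}, l.length = l'.length →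
    (∀ j, j < l.length → H (k, Nat.bits (n - (l.length - 1 - j)), (l.drop j).headD []) =
      H (k, Nat.bits (n - (l.length - 1 - j)), (l'.drop j).headD [])) → Same H k n l l'
  | [], [], _, _ => trivial
  | [], _ :: _, h, _ => by simp at h
  | _ :: _, [], h, _ => by simp at h
  | r :: l, r' :: l', h, h' => by
    have h0 : l.length = l'.length := by simpa using h
    refine ⟨⟨?_, h0⟩, same_of_forall h0 fun j hj => ?_⟩
    · have := h' 0 (by simp)
      simpa using this
    · have := h' (j + 1) (by simpa using hj)
      simp only [List.length_cons, List.drop_succ_cons] at this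
      have e : l.length + 1 - 1 - (j + 1) = l.length - 1 - j := by omega
      rwa [e] at this

/-- two lists of words that differ only at one leaf, with the same hash -/
structure Twin (H : K.El × List Bool × List Bool → List Bool) (k : K.El)
    (rs rs' : List (List Bool)) (i : ℕ) : Prop where
  pos : 0 < rs.length
  len : rs.length = rs'.length
  hash : H (k, Nat.bits i, leafAt rs i) = H (k, Nat.bits i, leafAt rs' i)
  leaf : ∀ j, j ≠ i → rs.length ≤ j → j < 2 * rs.length → leafAt rs j = leafAt rs' j

theorem Twin.len_slots {i : ℕ} (T : Twin H k rs rs' i) : (slots rs).length = (slots rs').length := by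
  simp only [slots, List.length_append, List.length_map, List.length_tail, T.len]

theorem Twin.tabA {i : ℕ} (T : Twin H k rs rs' i) : tabA H k rs = tabA H k rs' := by
  have h1 := T.len_slots
  rw [Owf.tabA, Owf.tabA, h1]
  have hne : rs ≠ [] := List.ne_nil_of_length_pos T.pos
  have hn := length_slots hne
  refine tab_congr k _ (same_of_forall h1 fun j hj => ?_)
  have hn' : (slots rs').length - ((slots rs).length - 1 - j) = j + 1 := by
    have := T.pos
    omega
  rw [hn']
  by_cases hj' : j + 1 < rs.length
  · -- inner nodes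
    have h2 : ∀ (us : List (List Bool)), us.length = rs.length →
        ((slots us).drop j).headD [] = [] := by
      intro us hus
      rw [slots, List.drop_append, List.length_map, List.length_tail, hus]
      have h3 : j < us.tail.length := by rw [List.length_tail, hus]; omega
      rw [List.drop_eq_getElem_cons (by rwa [List.length_map])]
      simp
    rw [h2 rs rfl, h2 rs' T.len.symm]
  · have h3 : ∀ (us : List (List Bool)), us.length = rs.length →
        ((slots us).drop j).headD [] = leafAt us (j + 1) := by
      intro us hus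
      have := slots_drop (rs := us) (i := j + 1) (by omega) (by have := T.pos; omega)
      rw [Nat.add_sub_cancel] at this
      rw [this, leafAt]
    rw [h3 rs rfl, h3 rs' T.len.symm]
    by_cases hi : j + 1 = i
    · rw [hi]; exact T.hash
    · rw [T.leaf (j + 1) hi (by omega) (by omega)]

theorem Twin.inpX {i : ℕ} (T : Twin H k rs rs' i) : inpX H pad k rs = inpX H pad k rs' := by
  rw [Owf.inpX, Owf.inpX, instA, instA, T.tabA, T.len]

theorem Twin.codeN {i j : ℕ} (T : Twin H k rs rs' i) (h : j ≠ i) (h1 : rs.length ≤ j)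
    (h2 : j < 2 * rs.length) : Alg.codeN (Owf.tabA H k rs) (slots rs) (Nat.bits j) =
      Alg.codeN (Owf.tabA H k rs') (slots rs') (Nat.bits j) := by
  have h3 := T.len_slots
  rw [Alg.codeN, Alg.codeN, solN, solN, look_slots h1 h2,
    look_slots (T.len ▸ h1) (T.len ▸ h2), T.leaf j h h1 h2, T.tabA, pathN_congr h3]

theorem Twin.adv {i : ℕ} (T : Twin H k rs rs' i) {Y : List Bool}
    (hY : ∀ q, revQ H L (Owf.inpX H pad k rs) (Nat.bits rs.length) Y = some q → val q ≠ i) :
    adv H L (envA H pad k rs) Y = adv H L (envA H pad k rs') Y := by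
  have h0 := T.pos
  have hv1 : (envA H pad k rs).1 = (envA H pad k rs').1 := by
    rw [envA, envA, T.inpX, T.len]
  have hv : (envA H pad k rs).1 = (Owf.inpX H pad k rs, Nat.bits rs.length) := rfl
  have hv2 : (envA H pad k rs).2 = (Owf.tabA H k rs, slots rs) := rfl
  have hv2' : (envA H pad k rs').2 = (Owf.tabA H k rs', slots rs') := rfl
  cases hq : revQ H L (Owf.inpX H pad k rs) (Nat.bits rs.length) Y with
  | none => exact adv_none (by rw [hv]; exact hq) hv1
  | some q =>
    obtain ⟨j, rfl, h1, h2, -⟩ := revQ_range hq h0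
    have h3 : j ≠ i := by
      have := hY _ hq
      rwa [val_bits] at this
    rw [adv_some (v := envA H pad k rs) (q := Nat.bits j) (by rw [hv]; exact hq),
      adv_some (v := envA H pad k rs') (q := Nat.bits j) (by rw [← hv1, hv]; exact hq),
      hv2, hv2']
    simp only
    rw [T.codeN h3 h1 h2]

/-- the runs agree until the leaf `i` is revealed -/
theorem Twin.run {i : ℕ} (T : Twin H k rs rs' i) (t : ℕ)
    (h : ∀ q, Rev H L k rs pad g S t q → val q ≠ i) :
    hs H L k rs pad g S t = hs H L k rs' pad g S t := by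
  induction t with
  | zero => rw [hs, hs, List.replicate_zero, histN, histN]
  | succ t ih =>
    have ih := ih fun q hq => by
      obtain ⟨τ, hτ, h1⟩ := hq
      exact h q ⟨τ, by omega, h1⟩
    have hmv : mv H L k rs pad g S t = mv H L k rs' pad g S t := by
      rw [mv, mv, T.inpX, ih]
    have hnew : ((mv H L k rs pad g S t).1.1 && (mv H L k rs pad g S t).1.2) = true →
        ∀ q, revQ H L (Owf.inpX H pad k rs) (Nat.bits rs.length)
          (norm (mv H L k rs pad g S t).2.2) = some q → val q ≠ i :=
      fun hp q hq => h q ⟨t, Nat.lt_succ_self t, hp, hq⟩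
    rw [hs_succ, hs_succ, ← hmv, ← ih]
    clear h ih hmv
    revert hnew
    generalize mv H L k rs pad g S t = m
    intro hnew
    have hans : ans H L g (envA H pad k rs) m = ans H L g (envA H pad k rs') m := by
      rw [ans, ans]
      cases hp : m.1.1 && m.1.2
      · rw [cond_false, cond_false]
      · rw [cond_true, cond_true]
        exact T.adv (hnew hp)
    rw [hans]

/-- no collision is found -/
def Clean (H : K.El × List Bool × List Bool → List Bool) (L : K.El → List Bool) (k : K.El)
    (rs : List (List Bool)) (pad : Polynomial ℕ) (g : κ.El → Bool)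
    (S : List Bool × Ty.history.El → (Ty.move κ).El) : Prop :=
  ∀ t < rs.length, feasB H L (Owf.inpX H pad k rs) (wd H L k rs pad g S t) = true →
    ∀ z ∈ cands H k (Owf.tabA H k rs) (slots rs) (decY (wd H L k rs pad g S t)),
    colB H L k z = false

/-- the leaf `i` is guessed -/
def Guess (H : K.El × List Bool × List Bool → List Bool) (L : K.El → List Bool) (k : K.El)
    (rs : List (List Bool)) (pad : Polynomial ℕ) (g : κ.El → Bool)
    (S : List Bool × Ty.history.El → (Ty.move κ).El) (i : ℕ) : Prop :=
  ∃ t < rs.length, feasB H L (Owf.inpX H pad k rs) (wd H L k rs pad g S t) = true ∧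
    (∀ q, Rev H L k rs pad g S t q → val q ≠ i) ∧
    val (idx (decY (wd H L k rs pad g S t)).2) = i ∧ rs.length ≤ i ∧ i < 2 * rs.length ∧
    (decY (wd H L k rs pad g S t)).1 = leafAt rs i

theorem Fine.guess {O : Set κ.El} (F : Fine H L pad k rs) (hg : ∀ q, g q = true ↔ q ∈ O) {n : ℕ}
    (hn : n ≤ rs.length)
    (hE : Ensures O (Answers (hashC H L) hashρ (val (Owf.inpX H pad k rs)))
      (Optimal (hashC H L) hashρ (val (Owf.inpX H pad k rs)))
      (fun h => S (Owf.inpX H pad k rs, h)) n [])
    (hc : Clean H L k rs pad g S) : ∃ i, Guess H L k rs pad g S i := by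
  obtain ⟨t₁, h1, h2⟩ := F.stops (g := g) hg n 0 hE
  obtain ⟨t, h3, h4, h5⟩ := F.jump (g := g) (S := S) (t₁ := t₁) (by omega) h2
  have h4' := h4
  rw [feasB, decX_inpX, Bool.and_eq_true] at h4
  have h6 := leaf_of_ok F.hlen F.pos F.words h4.2 (hc t (by omega) h4')
  have h7 := (okB_iff.1 h4.2).2.2.2
  simp only [instA] at h7
  rw [val_bits] at h7
  exact ⟨_, t, by omega, h4', fun q hq => (h5 q hq).ne, rfl, h7.1, h7.2, h6⟩

theorem Twin.unique {i : ℕ} (T : Twin H k rs rs' i)
    (hw : ∀ r ∈ rs, r.length = 2 * (L k).length) (hw' : ∀ r ∈ rs', r.length = 2 * (L k).length)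
    (hG : Guess H L k rs pad g S i) (hc' : Clean H L k rs' pad g S) :
    leafAt rs i = leafAt rs' i := by
  have h0 := T.pos
  obtain ⟨t, h1, hf, h2, h3, h4, h5, h6⟩ := hG
  have hrun := T.run t h2
  have hwd : wd H L k rs' pad g S t = wd H L k rs pad g S t := by
    rw [wd, wd, mv, mv, T.inpX, hrun]
  have h7 := hc' t (T.len ▸ h1) (by rw [hwd, ← T.inpX]; exact hf) _ List.mem_cons_self
  rw [hwd] at h7
  have hidx : idx (decY (wd H L k rs pad g S t)).2 = Nat.bits i := by rw [← h3, bits_idx]
  rw [hidx, look_slots (T.len ▸ h4) (T.len ▸ h5), h6] at h7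
  by_contra hne
  have hl : (leafAt rs i).length = 2 * (L k).length := by
    rw [leafAt, List.drop_eq_getElem_cons (by omega), List.headD_cons]
    exact hw _ (List.getElem_mem _)
  have hlen := T.len
  have hl' : (leafAt rs' i).length = 2 * (L k).length := by
    rw [leafAt, List.drop_eq_getElem_cons (by omega), List.headD_cons]
    exact hw' _ (List.getElem_mem _)
  have h8 : colB H L k (Nat.bits i, (leafAt rs i, leafAt rs' i)) = true := by
    rw [colB]
    simp only [Bool.and_eq_true, Bool.not_eq_true', decide_eq_false_iff_not,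
      decide_eq_true_eq, len2_iff]
    exact ⟨⟨hne, T.hash⟩, hl, hl'⟩
  rw [h8] at h7
  cases h7

section counting

theorem twin_wordsOf {n m : ℕ} {ρ ρ' : Fin n → Fin m → Bool} {j : Fin n}
    (h : ∀ l, l ≠ j → ρ l = ρ' l)
    (hh : H (k, Nat.bits (n + j), List.ofFn (ρ j)) = H (k, Nat.bits (n + j), List.ofFn (ρ' j))) :
    Twin H k (wordsOf ρ) (wordsOf ρ') (n + j) := by
  refine ⟨by rw [length_wordsOf]; exact j.pos, by rw [length_wordsOf, length_wordsOf], ?_,
    fun l hl h1 h2 => ?_⟩
  · rw [leafAt_wordsOf, leafAt_wordsOf]; exact hh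
  · rw [length_wordsOf] at h1 h2
    obtain ⟨l, rfl⟩ := Nat.exists_eq_add_of_le h1
    have hln : l < n := by omega
    have e1 := leafAt_wordsOf ρ ⟨l, hln⟩
    have e2 := leafAt_wordsOf ρ' ⟨l, hln⟩
    simp only at e1 e2
    rw [e1, e2, h ⟨l, hln⟩]
    intro hc
    exact hl (by rw [← hc])

open Classical in
/-- few choices of the random words lead to a guess without collisions -/
theorem card_bad {n : ℕ} (hn : 0 < n) (hlen : ∀ k w u, (H (k, w, u)).length = (L k).length) :
    (Finset.univ.filter fun ρ : Fin n → Fin (2 * (L k).length) → Bool =>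
      Clean H L k (wordsOf ρ) pad g S ∧ ∃ i, Guess H L k (wordsOf ρ) pad g S i).card *
      2 ^ (L k).length ≤ n * Fintype.card (Fin n → Fin (2 * (L k).length) → Bool) := by
  have hword : ∀ ρ : Fin n → Fin (2 * (L k).length) → Bool, ∀ r ∈ wordsOf ρ,
      r.length = 2 * (L k).length := by
    intro ρ r hr
    rw [wordsOf, List.mem_ofFn] at hr
    obtain ⟨j, rfl⟩ := hr
    rw [List.length_ofFn]
  -- one leaf
  have hone : ∀ j : Fin n, (Finset.univ.filter fun ρ : Fin n → Fin (2 * (L k).length) → Bool =>
      Clean H L k (wordsOf ρ) pad g S ∧ Guess H L k (wordsOf ρ) pad g S (n + j)).card *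
      2 ^ (L k).length ≤ Fintype.card (Fin n → Fin (2 * (L k).length) → Bool) := by
    intro j
    have hinj : (Finset.univ.filter fun ρ : Fin n → Fin (2 * (L k).length) → Bool =>
        Clean H L k (wordsOf ρ) pad g S ∧ Guess H L k (wordsOf ρ) pad g S (n + j)).card ≤
        Fintype.card ((Fin (L k).length → Bool) ×
          ({l : Fin n // l ≠ j} → Fin (2 * (L k).length) → Bool)) := by
      rw [← Finset.card_univ (α := (Fin (L k).length → Bool) ×
          ({l : Fin n // l ≠ j} → Fin (2 * (L k).length) → Bool))]
      refine Finset.card_le_card_of_injOn (fun ρ =>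
        ((fun a : Fin (L k).length => (H (k, Nat.bits (n + j), List.ofFn (ρ j)))[a]'(by
            rw [hlen]; exact a.2)),
          fun l => ρ l.1)) (fun _ _ => Finset.mem_coe.2 (Finset.mem_univ _)) ?_
      intro ρ hρ ρ' hρ' he
      simp only [Finset.coe_filter, Finset.mem_univ, true_and, Set.mem_ofPred_eq] at hρ hρ'
      simp only [Prod.mk.injEq] at he
      obtain ⟨he1, he2⟩ := he
      have h1 : ∀ l, l ≠ j → ρ l = ρ' l := fun l hl => congrFun he2 ⟨l, hl⟩
      have h2 : H (k, Nat.bits (n + j), List.ofFn (ρ j)) =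
          H (k, Nat.bits (n + j), List.ofFn (ρ' j)) := by
        refine List.ext_getElem (by rw [hlen, hlen]) fun a ha _ => ?_
        rw [hlen] at ha
        exact congrFun he1 ⟨a, ha⟩
      have T := twin_wordsOf (H := H) (k := k) h1 h2
      have h3 := T.unique (hword ρ) (hword ρ') hρ.2 hρ'.1
      rw [leafAt_wordsOf, leafAt_wordsOf] at h3
      have h4 : ρ j = ρ' j := List.ofFn_injective h3
      funext l
      by_cases hl : l = j
      · rw [hl, h4]
      · exact h1 l hl
    have hcard : Fintype.card ((Fin (L k).length → Bool) ×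
          ({l : Fin n // l ≠ j} → Fin (2 * (L k).length) → Bool)) * 2 ^ (L k).length =
        Fintype.card (Fin n → Fin (2 * (L k).length) → Bool) := by
      have hsub : Fintype.card {l : Fin n // l ≠ j} = n - 1 := by
        rw [Fintype.card_subtype_compl, Fintype.card_fin, Fintype.card_subtype_eq]
      rw [Fintype.card_prod, Fintype.card_fun, Fintype.card_fun, Fintype.card_fun,
        Fintype.card_fun, Fintype.card_fun, hsub]
      simp only [Fintype.card_bool, Fintype.card_fin]
      obtain ⟨n', rfl⟩ := Nat.exists_eq_add_of_le' hn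
      rw [Nat.add_sub_cancel, pow_succ, Nat.two_mul (L k).length, pow_add]
      ring
    calc _ ≤ _ := Nat.mul_le_mul_right _ hinj
      _ = _ := hcard
  have hunion : (Finset.univ.filter fun ρ : Fin n → Fin (2 * (L k).length) → Bool =>
      Clean H L k (wordsOf ρ) pad g S ∧ ∃ i, Guess H L k (wordsOf ρ) pad g S i) ⊆
      Finset.univ.biUnion fun j : Fin n =>
        (Finset.univ.filter fun ρ : Fin n → Fin (2 * (L k).length) → Bool =>
          Clean H L k (wordsOf ρ) pad g S ∧ Guess H L k (wordsOf ρ) pad g S (n + j)) := by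
    intro ρ hρ
    simp only [Finset.mem_filter, Finset.mem_univ, true_and] at hρ
    obtain ⟨h1, i, h2⟩ := hρ
    have h3 := h2
    obtain ⟨-, -, -, -, -, h4, h5, -⟩ := h3
    rw [length_wordsOf] at h4 h5
    rw [Finset.mem_biUnion]
    refine ⟨⟨i - n, by omega⟩, Finset.mem_univ _, ?_⟩
    simp only [Finset.mem_filter, Finset.mem_univ, true_and]
    refine ⟨h1, ?_⟩
    rwa [Nat.add_sub_cancel' h4]
  calc _ ≤ (∑ j : Fin n, (Finset.univ.filter fun ρ : Fin n → Fin (2 * (L k).length) → Bool =>
          Clean H L k (wordsOf ρ) pad g S ∧ Guess H L k (wordsOf ρ) pad g S (n + j)).card) *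
          2 ^ (L k).length :=
        Nat.mul_le_mul_right _ ((Finset.card_le_card hunion).trans Finset.card_biUnion_le)
    _ = ∑ j : Fin n, (Finset.univ.filter fun ρ : Fin n → Fin (2 * (L k).length) → Bool =>
          Clean H L k (wordsOf ρ) pad g S ∧ Guess H L k (wordsOf ρ) pad g S (n + j)).card *
          2 ^ (L k).length := Finset.sum_mul _ _ _
    _ ≤ ∑ _j : Fin n, Fintype.card (Fin n → Fin (2 * (L k).length) → Bool) :=
        Finset.sum_le_sum fun j _ => hone j
    _ = _ := by rw [Finset.sum_const, Finset.card_univ, Fintype.card_fin, smul_eq_mul]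

end counting

/-- the padding -/
theorem exists_pad (hL : PF A K .word L) : ∃ pad : Polynomial ℕ,
    ∀ (H : K.El × List Bool × List Bool → List Bool)
    (k : K.El) (rs : List (List Bool)), (∀ k w u, (H (k, w, u)).length = (L k).length) →
    0 < rs.length → (∀ r ∈ rs, r.length = 2 * (L k).length) → rs.length ≤ 2 ^ (L k).length →
    Fine H L pad k rs := by
  obtain ⟨pe, hpe⟩ := (PF.enc (A := (∅ : Set (Ty.El .bool))) .auth (PF.id _)).bound
  obtain ⟨pl, hpl⟩ := hL.bound
  refine ⟨(pe.comp (4 * Polynomial.X + Polynomial.X * (2 * Polynomial.X + 2)) + 1).comp pl,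
    fun H k rs hlen h0 hw hLn => ⟨hlen, h0, hw, fun i h1 h2 => ?_⟩⟩
  obtain ⟨-, -, h3, h4⟩ := path_props (H := H) (k := k) (rs := rs) hlen i (by omega) h2
  have h5 : (Nat.bits i).length ≤ (L k).length + 1 := bits_length_le (by rw [pow_succ]; omega)
  have h6 := hpe (solN (tabA H k rs) (slots rs) (Nat.bits i))
  rw [size_word] at h6
  have hleaf : (leafAt rs i).length = 2 * (L k).length := by
    rw [leafAt, List.drop_eq_getElem_cons (by omega), List.headD_cons]
    exact hw _ (List.getElem_mem _)
  have h7 : Ty.auth.size (solN (tabA H k rs) (slots rs) (Nat.bits i)) ≤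
      4 * (L k).length + (L k).length * (2 * (L k).length + 2) := by
    rw [solN, size_prod, size_word]
    simp only
    rw [look_slots h1 h2, hleaf, size_path h3]
    have h8 : (pathN (tabA H k rs) (slots rs) (Nat.bits i)).length ≤ (L k).length := by omega
    have := Nat.mul_le_mul_right (2 * (L k).length + 2) h8
    omega
  have hkl : (L k).length ≤ pl.eval (K.size k) := by
    have := hpl k
    rw [size_word] at this
    omega
  have h7' : Ty.auth.size (solN (tabA H k rs) (slots rs) (Nat.bits i)) ≤
      4 * pl.eval (K.size k) + pl.eval (K.size k) * (2 * pl.eval (K.size k) + 2) := by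
    refine h7.trans ?_
    gcongr
  have h8 := eval_mono pe h7'
  have h9 := length_enc_prod (a := Ty.inst K) (b := .word) (instA H k rs, List.replicate
    (((pe.comp (4 * Polynomial.X + Polynomial.X * (2 * Polynomial.X + 2)) + 1).comp pl).eval
      (K.size k)) true)
  have h10 := length_enc_list (b := .bool) (List.replicate
    (((pe.comp (4 * Polynomial.X + Polynomial.X * (2 * Polynomial.X + 2)) + 1).comp pl).eval
      (K.size k)) true)
  rw [List.length_replicate] at h10
  simp only at h9
  rw [codeN, inpX, List.length_append, List.length_append, List.length_singleton]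
  have h11 : ((pe.comp (4 * Polynomial.X + Polynomial.X * (2 * Polynomial.X + 2)) + 1).comp
      pl).eval (K.size k) = pe.eval (4 * pl.eval (K.size k) +
        pl.eval (K.size k) * (2 * pl.eval (K.size k) + 2)) + 1 := by
    simp only [Polynomial.eval_add, Polynomial.eval_comp, Polynomial.eval_mul, Polynomial.eval_X,
      Polynomial.eval_ofNat, Polynomial.eval_one]
  have h12 : (enc Ty.word (List.replicate (((pe.comp (4 * Polynomial.X + Polynomial.X *
      (2 * Polynomial.X + 2)) + 1).comp pl).eval (K.size k)) true)).length = (enc (.list .bool)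
      (List.replicate (((pe.comp (4 * Polynomial.X + Polynomial.X *
      (2 * Polynomial.X + 2)) + 1).comp pl).eval (K.size k)) true)).length := rfl
  rw [h11] at h10 h9 h12 ⊢
  omega

/-- a bound for the length of the input -/
theorem exists_inp_bound (hL : PF A K .word L) (pad : Polynomial ℕ) : ∃ b : Polynomial ℕ,
    ∀ (H : K.El × List Bool × List Bool → List Bool)
    (k : K.El) (rs : List (List Bool)), (∀ k w u, (H (k, w, u)).length = (L k).length) →
    0 < rs.length → rs.length ≤ 2 ^ (L k).length →
    (inpX H pad k rs).length ≤ b.eval (K.size k) := by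
  obtain ⟨pe, hpe⟩ := (PF.enc (A := (∅ : Set (Ty.El .bool))) (.prod (Ty.inst K) .word)
    (PF.id _)).bound
  obtain ⟨pl, hpl⟩ := hL.bound
  refine ⟨pe.comp (Polynomial.X + 4 * pl + 2 + 2 * pad) + 1, fun H k rs hlen h0 hLn => ?_⟩
  have h1 := hpe (instA H k rs, List.replicate (pad.eval (K.size k)) true)
  rw [size_word] at h1
  have h2 : (Nat.bits rs.length).length ≤ (L k).length + 1 :=
    bits_length_le (by rw [pow_succ]; have := Nat.one_le_two_pow (n := (L k).length); omega)
  have h3 : ((tabA H k rs).headD []).length = (L k).length :=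
    length_hashAt (k := k) (rs := rs) hlen (i := 1) (by omega) (by omega)
  have hkl : (L k).length ≤ pl.eval (K.size k) := by
    have := hpl k
    rw [size_word] at this
    omega
  have h4 : Ty.size (.prod (Ty.inst K) .word) (instA H k rs,
      List.replicate (pad.eval (K.size k)) true) ≤
      K.size k + 4 * pl.eval (K.size k) + 2 + 2 * pad.eval (K.size k) := by
    rw [size_prod, instA, size_prod, size_prod]
    simp only [size_word, List.length_replicate]
    omega
  have h5 := eval_mono pe h4
  rw [inpX, List.length_append, List.length_singleton]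
  have h6 : (pe.comp (Polynomial.X + 4 * pl + 2 + 2 * pad) + 1).eval (K.size k) =
      pe.eval (K.size k + 4 * pl.eval (K.size k) + 2 + 2 * pad.eval (K.size k)) + 1 := by
    simp only [Polynomial.eval_add, Polynomial.eval_comp, Polynomial.eval_mul, Polynomial.eval_X,
      Polynomial.eval_ofNat, Polynomial.eval_one]
  rw [h6]
  omega

open Classical in
/-- If the optimization problem of the Merkle trees is computed by a type 1 counterexample
computation, then collisions at the nodes of random trees can be found. -/
theorem node_finder (hH : PF A (.prod K (.prod .word .word)) .word H) (hL : PF A K .word L)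
    (hlen : ∀ k w u, (H (k, w, u)).length = (L k).length)
    (hcomp : Computed A 0 (hashC H L) hashρ) :
    ∃ (q : Polynomial ℕ) (E : K.El × List (List Bool) → List Bool × (List Bool × List Bool)),
      PF A (.prod K (.list .word)) Ty.pos E ∧ (∀ x, 0 < q.eval x) ∧
      ∀ (k : K.El) (n : ℕ), q.eval (K.size k) ≤ n → n ≤ 2 ^ (L k).length →
        (Finset.univ.filter fun r : Fin n → Fin (2 * (L k).length) → Bool =>
          ¬ NodeCol H L k (wordsOf r) (E (k, wordsOf r))).card * 2 ^ (L k).length ≤
        n * Fintype.card (Fin n → Fin (2 * (L k).length) → Bool) := by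
  obtain ⟨κ, O, S, p, ⟨g, hg, hgO⟩, hS, hens⟩ := hcomp
  obtain ⟨pad, hpad⟩ := exists_pad hL
  obtain ⟨b, hb⟩ := exists_inp_bound hL pad
  refine ⟨p.comp b + 1, finder H L g S pad, pf_finder hH hL hlen hg hS pad,
    fun x => by simp, fun k n hq hsmall => ?_⟩
  have hq' : (p.comp b + 1).eval (K.size k) = p.eval (b.eval (K.size k)) + 1 := by
    simp only [Polynomial.eval_add, Polynomial.eval_comp, Polynomial.eval_one]
  rw [hq'] at hq
  refine le_trans (Nat.mul_le_mul_right _ (Finset.card_le_card ?_))
      (card_bad (H := H) (L := L) (k := k) (pad := pad) (g := g) (S := S) (n := n) (by omega) hlen)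
  intro r hr
  simp only [Finset.mem_filter, Finset.mem_univ, true_and] at hr ⊢
  have hlen' := length_wordsOf r
  have F : Fine H L pad k (wordsOf r) := hpad H k (wordsOf r) hlen (by omega) (by
    intro w hw
    rw [wordsOf, List.mem_ofFn] at hw
    obtain ⟨j, rfl⟩ := hw
    rw [List.length_ofFn]) (by omega)
  have hclean : Clean H L k (wordsOf r) pad g S := by
    intro t ht hf z hz
    by_contra hc
    rw [Bool.not_eq_false] at hc
    apply hr
    have h1 := colB_pick (mem_allCands (pad := pad) (g := g) ht hf hz) hc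
    obtain ⟨Y, h2, h3⟩ := allCands_feas (pick_mem h1)
    have h4 : feasB H L (Owf.inpX H pad k (wordsOf r)) Y = true := h2
    rw [feasB, decX_inpX, Bool.and_eq_true] at h4
    have h5 := (okB_iff.1 h4.2).2.2.2
    simp only [instA] at h5
    rw [val_bits] at h5
    obtain ⟨i, h6, h7, h8, h9⟩ := cands_hon h5.1 h5.2 h3
    rw [colB] at h1
    simp only [Bool.and_eq_true, Bool.not_eq_true', decide_eq_false_iff_not,
      decide_eq_true_eq, len2_iff] at h1
    exact ⟨i, h6, h7, h8, h9, h1.2.1, h1.1.1, h1.1.2⟩
  refine ⟨hclean, F.guess (fun q => (hgO q).symm) (n := p.eval (inpX H pad k (wordsOf r)).length)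
    ?_ ?_ hclean⟩
  · have h1 := eval_mono p (hb H k (wordsOf r) hlen (by omega) (by omega))
    omega
  · have := hens (val (inpX H pad k (wordsOf r)))
    rw [bits_inpX] at this
    exact this

end Pool.Agent.Lib.MP_2b5695_lc.Owf
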