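import Pool.Agent.Lib.MP_2b5695_lc.Owf.Plant
import Pool.Agent.Lib.MP_2b5695_lc.Owf.FDef
import Pool.Agent.Lib.MP_2b5695_lc.Owf.PFinal

/-!
The hash function on lists and the hash function on functions.
-/

namespace Pool.Agent.Lib.MP_2b5695_lc.Owf

open Alg Finset

variable {n m i t a l q D S : ℕ} {aux : List Bool}

/-! ### words and matrices -/

theorem ofFn_flat (X : Fin t → BV n) : List.ofFn (flat X) = (wordsOf X).flatten := by
  rw [List.ofFn_mul, wordsOf]
  congr 2
  funext j
  congr 1
  funext x
  have : (⟨j.1 * n + x.1, by
      calc j.1 * n + x.1 < (j.1 + 1) * n := by rw [Nat.succ_mul]; omega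
        _ ≤ t * n := Nat.mul_le_mul_right _ j.2⟩ : Fin (t * n)) = finProdFinEquiv (j, x) := by
    apply Fin.ext
    simp [finProdFinEquiv]
    ring
  rw [this, flat, Equiv.symm_apply_apply]

theorem drop_take_flatten {α : Type} {n : ℕ} : ∀ {l : List (List α)} {j : ℕ} {x : List α},
    (∀ x ∈ l, x.length = n) → l[j]? = some x → (l.flatten.drop (j * n)).take n = x
  | [], j, x, _, h => by simp at h
  | y :: l, 0, x, hl, h => by
    simp only [List.getElem?_cons_zero, Option.some.injEq] at h
    subst h
    have := hl y (by simp)
    simp [← this]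
  | y :: l, j + 1, x, hl, h => by
    have h1 := hl y (by simp)
    rw [List.getElem?_cons_succ] at h
    rw [List.flatten_cons, List.drop_append, List.drop_eq_nil_of_le (by rw [h1]; nlinarith),
      List.nil_append, h1]
    have : (j + 1) * n - n = j * n := by rw [Nat.succ_mul]; omega
    rw [this]
    exact drop_take_flatten (fun x hx => hl x (by simp [hx])) h

theorem block_flat (X : Fin t → BV n) (j : Fin t) :
    ((List.ofFn (flat X)).drop (j * n)).take n = List.ofFn (X j) := by
  rw [ofFn_flat]
  refine drop_take_flatten (fun x hx => ?_) (by simp [wordsOf])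
  rw [wordsOf, List.mem_ofFn] at hx
  obtain ⟨k, rfl⟩ := hx
  rw [List.length_ofFn]

theorem scan_replicate {γ δ : Type} (φ : Bool × List Bool × γ → δ) (s : γ) : ∀ t : ℕ,
    (scan φ s (List.replicate t true)).reverse =
      List.ofFn fun j : Fin t => φ (true, List.replicate j true, s)
  | 0 => by simp [scan]
  | t + 1 => by
    rw [List.replicate_succ, scan, List.reverse_cons, scan_replicate φ s t, List.ofFn_succ_last]
    rfl

theorem blocks_flat (X : Fin t → BV n) :
    blocks (List.replicate n true) (List.replicate t true) (List.ofFn (flat X)) = wordsOf X := by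
  rw [blocks, scan_replicate, wordsOf]
  congr 1
  funext j
  simp only [List.length_replicate]
  exact block_flat X j

theorem matvec_ofFn (M : BM i m) (v : BV m) :
    matvec (wordsOf M) (List.ofFn v) = List.ofFn (mulF M v) := by
  rw [matvec, wordsOf, List.map_ofFn]
  congr 1
  funext j
  exact dot_ofFn _ _

/-- the key given by the matrices and the pads -/
def keyOf (aux : List Bool) (n t : ℕ) (g : BM i m) (G : BM a (t * n)) (h : BM l (t * i + a))
    (π : Fin D → Fin S → BV (t * n)) : Ty.key.El :=
  (((aux, List.replicate n true), List.replicate t true), ((wordsOf g, wordsOf G),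
    (wordsOf h, List.ofFn fun d => wordsOf (π d))))

theorem FK_ofFn {f : List Bool × List Bool → List Bool} {fF : BV n → BV m}
    (hf : ∀ x, f (aux, List.ofFn x) = List.ofFn (fF x)) (g : BM i m) (G : BM a (t * n))
    (h : BM l (t * i + a)) (π : Fin D → Fin S → BV (t * n)) (X : Fin t → BV n) :
    FK f (keyOf aux n t g G h π) (List.ofFn (flat X)) = List.ofFn (FF fF g G h X) := by
  have h1 : List.flatMap (fun x => matvec (wordsOf g) (f (aux, x))) (wordsOf X) =
      List.ofFn (PP fF g X) := by
    rw [PP, ofFn_flat, List.flatMap_def, wordsOf, wordsOf, List.map_ofFn]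
    congr 2
    funext j
    simp only [Function.comp]
    rw [hf]
    exact matvec_ofFn g _
  rw [FK, keyOf]
  simp only
  rw [blocks_flat, h1, matvec_ofFn, FF, ← List.ofFn_fin_append, matvec_ofFn]

/-- the word `w` as a sequence of `t` words of length `n` -/
def toX (t n : ℕ) (w : List Bool) : Fin t → BV n := fun j k =>
  w.getD (finProdFinEquiv (j, k)) false

theorem flat_toX {w : List Bool} (h : w.length = t * n) : List.ofFn (flat (toX t n w)) = w := by
  apply List.ext_getElem
  · rw [List.length_ofFn, h]
  · intro j h1 h2
    rw [List.getElem_ofFn, flat, toX, Prod.mk.eta, Equiv.apply_symm_apply]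
    simp [h2]

theorem flat_inj' {X Y : Fin t → BV n} (h : flat X = flat Y) : X = Y := by
  funext j k
  have := congrFun h (finProdFinEquiv (j, k))
  simpa [flat] using this

theorem toX_flat (X : Fin t → BV n) : toX t n (List.ofFn (flat X)) = X := by
  apply flat_inj'
  apply List.ofFn_injective
  exact flat_toX (by rw [List.length_ofFn])

theorem toX_block {w : List Bool} (h : w.length = t * n) (j : Fin t) :
    (w.drop (j * n)).take n = List.ofFn (toX t n w j) := by
  rw [← block_flat, flat_toX h]

/-- a word as a function -/
def toBV (N : ℕ) (w : List Bool) : BV N := fun j => w.getD j false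

theorem ofFn_toBV {N : ℕ} {w : List Bool} (h : w.length = N) : List.ofFn (toBV N w) = w := by
  apply List.ext_getElem
  · rw [List.length_ofFn, h]
  · intro j h1 h2
    rw [List.getElem_ofFn, toBV]
    simp [h2]

/-! ### changing entries -/

theorem headD_drop_ofFn {α : Type} {N : ℕ} (F : Fin N → α) (d : α) {j : ℕ} (h : j < N) :
    ((List.ofFn F).drop j).headD d = F ⟨j, h⟩ := by
  rw [List.drop_eq_getElem_cons (by rw [List.length_ofFn]; exact h), List.headD_cons,
    List.getElem_ofFn]

theorem setW_ofFn {α : Type} {N : ℕ} (F : Fin N → α) (x : α) {J : List Bool} (h : J.length < N) :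
    setW (List.ofFn F) J x = List.ofFn (Function.update F ⟨J.length, h⟩ x) := by
  have h0 : J.length < (List.ofFn F).length := by rw [List.length_ofFn]; exact h
  apply List.ext_getElem
  · rw [length_setW h0, List.length_ofFn, List.length_ofFn]
  · intro j h1 h2
    rw [List.length_ofFn] at h2
    have e1 : ∀ (u : List α) (hj : j < u.length), u[j] = (u.drop j).headD x := by
      intro u hj
      rw [List.drop_eq_getElem_cons hj, List.headD_cons]
    rw [e1 _ h1, List.getElem_ofFn]
    rcases lt_trichotomy j J.length with hj | hj | hj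
    · rw [setW_drop_lt hj h0.le, headD_drop_ofFn _ _ h2, Function.update_of_ne]
      simp only [ne_eq, Fin.mk.injEq]
      omega
    · subst hj
      rw [setW_drop_eq h0.le, Function.update_self]
    · rw [setW_drop_gt hj h0, headD_drop_ofFn _ _ h2, Function.update_of_ne]
      simp only [ne_eq, Fin.mk.injEq]
      omega

theorem levelPads_keyOf (g : BM i m) (G : BM a (t * n)) (h : BM l (t * i + a))
    (π : Fin D → Fin S → BV (t * n)) {w : List Bool} (hw : w.tail.length < D) :
    levelPads (keyOf aux n t g G h π) w = wordsOf (π ⟨w.tail.length, hw⟩) := by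
  rw [levelPads, keyOf]
  exact headD_drop_ofFn _ _ hw

theorem fixK_keyOf (g : BM i m) (G : BM a (t * n)) (h : BM l (t * i + a))
    (π : Fin D → Fin S → BV (t * n)) (d : BV m) :
    fixK (keyOf aux n t g G h π) (List.ofFn d) = keyOf aux n t (fixF d g) G h π := by
  rw [fixK, keyOf, keyOf]
  simp only [Prod.mk.injEq, true_and, and_true]
  rw [wordsOf, wordsOf, List.map_ofFn]
  congr 1
  funext j
  exact fixRow_ofFn d g j

end Pool.Agent.Lib.MP_2b5695_lc.Owf
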