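import Mathlib

/-!
Concentration of sums of independent bounded variables (counting form).
-/

namespace Pool.Agent.Lib.MP_2b5695_lc.Owf

open Finset

open Classical in
/-- upper tail for variables with values in `[-c, c]` -/
private theorem card_sum_ge_aux {X : Type} [Fintype X] [Nonempty X] (φ : X → ℝ) {c : ℝ}
    (hc : 0 < c) (h1 : ∀ x, |φ x| ≤ c) {μ : ℝ} (hμ : ∑ x, φ x = μ * Fintype.card X)
    {δ : ℝ} (hδ : 0 < δ) (hδ' : δ ≤ 2 * c) (t : ℕ) :
    ((univ.filter fun x : Fin t → X => t * (μ + δ) ≤ ∑ j, φ (x j)).card : ℝ) ≤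
      Real.exp (- (t * δ ^ 2 / (4 * c ^ 2))) * Fintype.card (Fin t → X) := by
  set lam : ℝ := δ / (2 * c ^ 2) with hlam
  have hlam0 : 0 < lam := by positivity
  have hlamc : lam * c ≤ 1 := by
    rw [hlam, div_mul_eq_mul_div, div_le_one (by positivity)]
    nlinarith
  have hX : (0 : ℝ) < Fintype.card X := by exact_mod_cast Fintype.card_pos
  -- one variable
  have hone : ∑ x, Real.exp (lam * φ x) ≤
      Fintype.card X * Real.exp (lam * μ + lam ^ 2 * c ^ 2) := by
    have h2 : ∀ x, Real.exp (lam * φ x) ≤ 1 + lam * φ x + lam ^ 2 * c ^ 2 := by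
      intro x
      have hx : |lam * φ x| ≤ 1 := by
        rw [abs_mul, abs_of_pos hlam0]
        exact (mul_le_mul_of_nonneg_left (h1 x) hlam0.le).trans hlamc
      have h3 := (abs_le.1 (Real.abs_exp_sub_one_sub_id_le hx)).2
      have h4 : (lam * φ x) ^ 2 ≤ lam ^ 2 * c ^ 2 := by
        rw [mul_pow]
        refine mul_le_mul_of_nonneg_left ?_ (by positivity)
        exact sq_le_sq' (abs_le.1 (h1 x)).1 (abs_le.1 (h1 x)).2
      linarith
    calc ∑ x, Real.exp (lam * φ x) ≤ ∑ x, (1 + lam * φ x + lam ^ 2 * c ^ 2) :=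
          Finset.sum_le_sum fun x _ => h2 x
      _ = Fintype.card X * (1 + lam * μ + lam ^ 2 * c ^ 2) := by
          rw [Finset.sum_add_distrib, Finset.sum_add_distrib, ← Finset.mul_sum, hμ]
          simp only [Finset.sum_const, Finset.card_univ, nsmul_eq_mul]
          ring
      _ ≤ _ := by
          refine mul_le_mul_of_nonneg_left ?_ hX.le
          have := Real.add_one_le_exp (lam * μ + lam ^ 2 * c ^ 2)
          linarith
  -- all variables
  have hall : ∑ x : Fin t → X, Real.exp (lam * ∑ j, φ (x j)) ≤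
      (Fintype.card X * Real.exp (lam * μ + lam ^ 2 * c ^ 2)) ^ t := by
    have h2 : ∑ x : Fin t → X, Real.exp (lam * ∑ j, φ (x j)) =
        (∑ x, Real.exp (lam * φ x)) ^ t := by
      rw [Fintype.sum_pow]
      refine Finset.sum_congr rfl fun x _ => ?_
      rw [Finset.mul_sum, Real.exp_sum]
    rw [h2]
    exact pow_le_pow_left₀ (Finset.sum_nonneg fun x _ => (Real.exp_pos _).le) hone t
  have hlow : ((univ.filter fun x : Fin t → X => t * (μ + δ) ≤ ∑ j, φ (x j)).card : ℝ) *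
      Real.exp (lam * (t * (μ + δ))) ≤ ∑ x : Fin t → X, Real.exp (lam * ∑ j, φ (x j)) := by
    rw [← nsmul_eq_mul, ← Finset.sum_const]
    refine (Finset.sum_le_sum fun x hx => ?_).trans
      (Finset.sum_le_sum_of_subset_of_nonneg (Finset.filter_subset _ _)
        fun x _ _ => (Real.exp_pos _).le)
    rw [Finset.mem_filter] at hx
    exact Real.exp_le_exp.2 (mul_le_mul_of_nonneg_left hx.2 hlam0.le)
  have hcard : (Fintype.card (Fin t → X) : ℝ) = (Fintype.card X : ℝ) ^ t := by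
    rw [Fintype.card_fun, Fintype.card_fin]; push_cast; rfl
  have hpos := Real.exp_pos (lam * (t * (μ + δ)))
  refine le_of_mul_le_mul_right ((hlow.trans hall).trans (le_of_eq ?_)) hpos
  rw [hcard, mul_pow, ← Real.exp_nat_mul, mul_assoc, mul_comm ((Fintype.card X : ℝ) ^ t)
    (Real.exp (lam * (t * (μ + δ)))), ← mul_assoc, ← Real.exp_add, mul_comm]
  congr 2
  rw [hlam]
  field_simp
  ring

open Classical in
/-- upper tail -/
theorem card_sum_ge {X : Type} [Fintype X] [Nonempty X] (φ : X → ℝ) {c : ℝ} (hc : 0 < c)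
    (h0 : ∀ x, 0 ≤ φ x) (h1 : ∀ x, φ x ≤ c) {μ : ℝ} (hμ : ∑ x, φ x = μ * Fintype.card X)
    {δ : ℝ} (hδ : 0 < δ) (hδ' : δ ≤ 2 * c) (t : ℕ) :
    ((univ.filter fun x : Fin t → X => t * (μ + δ) ≤ ∑ j, φ (x j)).card : ℝ) ≤
      Real.exp (- (t * δ ^ 2 / (4 * c ^ 2))) * Fintype.card (Fin t → X) :=
  card_sum_ge_aux φ hc (fun x => by rw [abs_of_nonneg (h0 x)]; exact h1 x) hμ hδ hδ' t

open Classical in
/-- lower tail -/
theorem card_sum_le {X : Type} [Fintype X] [Nonempty X] (φ : X → ℝ) {c : ℝ} (hc : 0 < c)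
    (h0 : ∀ x, 0 ≤ φ x) (h1 : ∀ x, φ x ≤ c) {μ : ℝ} (hμ : ∑ x, φ x = μ * Fintype.card X)
    {δ : ℝ} (hδ : 0 < δ) (hδ' : δ ≤ 2 * c) (t : ℕ) :
    ((univ.filter fun x : Fin t → X => ∑ j, φ (x j) ≤ t * (μ - δ)).card : ℝ) ≤
      Real.exp (- (t * δ ^ 2 / (4 * c ^ 2))) * Fintype.card (Fin t → X) := by
  have h := card_sum_ge_aux (fun x => - φ x) hc
    (fun x => by rw [abs_neg, abs_of_nonneg (h0 x)]; exact h1 x) (μ := -μ)
    (by rw [Finset.sum_neg_distrib, hμ]; ring) hδ hδ' t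
  refine le_trans (le_of_eq ?_) h
  congr 2
  ext x
  simp only [Finset.mem_filter, Finset.mem_univ, true_and, Finset.sum_neg_distrib]
  constructor <;> intro hx <;> linarith

end Pool.Agent.Lib.MP_2b5695_lc.Owf
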