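import Mathlib

/-!
Second preimages: the counting argument for `F x = h (p x, G x)` with universal families of hash
functions `G` and `h`.
-/

namespace Pool.Agent.Lib.MP_2b5695_lc.Owf

open Finset

section Aux

set_option linter.unusedSectionVars false

variable {X Y W Z IG IH : Type} [Fintype X] [Fintype Y] [Fintype W] [Fintype Z]
    [Fintype IG] [Fintype IH]

open Classical in
theorem card_fib {V : Type} [Fintype V] (T : Finset X) (q : X → V) :
    (T.card : ℝ) = ∑ y : V, ((T.filter fun x => q x = y).card : ℝ) := by
  have := Finset.card_eq_sum_card_fiberwise (s := T) (f := q) (t := Finset.univ)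
    (fun x _ => Finset.mem_univ _)
  rw [← Nat.cast_sum]
  exact congrArg _ this

open Classical in
/-- the size of the image of `x ↦ (p x, G x)` -/
theorem spr_image (p : X → Y) (G : X → W) (L : ℝ) (hL : 1 ≤ L)
    (hβ : ((univ.filter fun x : X => ¬ (Fintype.card W * L ^ 2 ≤
      ((univ.filter fun x' : X => p x' = p x).card : ℝ))).card : ℝ) * L ≤ Fintype.card X) :
    ((univ.image fun x : X => (p x, G x)).card : ℝ) * L ≤ 3 * Fintype.card X := by
  have hL0 : 0 ≤ L := by linarith
  set v : X → Y × W := fun x => (p x, G x) with hv
  set fib : Y × W → ℝ := fun d => ((univ.filter fun x : X => v x = d).card : ℝ) with hfib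
  -- values with large fibres
  have h1 : ((((univ.image v).filter fun d => L ≤ fib d).card : ℝ)) * L ≤ Fintype.card X := by
    have : (((univ.image v).filter fun d => L ≤ fib d).card : ℝ) * L ≤
        ∑ d ∈ (univ.image v).filter (fun d => L ≤ fib d), fib d := by
      rw [← nsmul_eq_mul]
      exact Finset.card_nsmul_le_sum _ _ _ fun d hd => (Finset.mem_filter.1 hd).2
    refine this.trans ?_
    have h2 : ∑ d ∈ (univ.image v).filter (fun d => L ≤ fib d), fib d ≤ ∑ d : Y × W, fib d :=
      Finset.sum_le_sum_of_subset_of_nonneg (Finset.subset_univ _) fun _ _ _ => by positivity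
    refine h2.trans (le_of_eq ?_)
    have h3 := (card_fib (univ : Finset X) v).symm
    rw [Finset.card_univ] at h3
    rw [← h3]
    refine Finset.sum_congr rfl fun d _ => ?_
    rw [hfib]
    show ((Finset.card _ : ℕ) : ℝ) = ((Finset.card _ : ℕ) : ℝ)
    congr 2
    ext x
    simp only [Finset.mem_filter]
  -- inputs in small fibres
  set S : Finset X := univ.filter fun x => ¬ L ≤ fib (v x) with hS
  have h2 : ((((univ.image v).filter fun d => ¬ L ≤ fib d).card : ℝ)) ≤ S.card := by
    have : ((univ.image v).filter fun d => ¬ L ≤ fib d) ⊆ S.image v := by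
      intro d hd
      obtain ⟨hd1, hd2⟩ := Finset.mem_filter.1 hd
      obtain ⟨x, -, rfl⟩ := Finset.mem_image.1 hd1
      exact Finset.mem_image.2 ⟨x, Finset.mem_filter.2 ⟨Finset.mem_univ _, hd2⟩, rfl⟩
    exact_mod_cast (Finset.card_le_card this).trans Finset.card_image_le
  set T : Finset X := univ.filter fun x => ¬ L ≤ fib (v x) ∧ (Fintype.card W * L ^ 2 ≤
      ((univ.filter fun x' : X => p x' = p x).card : ℝ)) with hT
  have h3 : (S.card : ℝ) ≤ (univ.filter fun x : X => ¬ (Fintype.card W * L ^ 2 ≤
      ((univ.filter fun x' : X => p x' = p x).card : ℝ))).card + T.card := by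
    have : S ⊆ (univ.filter fun x : X => ¬ (Fintype.card W * L ^ 2 ≤
      ((univ.filter fun x' : X => p x' = p x).card : ℝ))) ∪ T := by
      intro x hx
      have hx' := (Finset.mem_filter.1 hx).2
      rw [Finset.mem_union]
      by_cases h : (Fintype.card W * L ^ 2 ≤
        ((univ.filter fun x' : X => p x' = p x).card : ℝ))
      · exact Or.inr (Finset.mem_filter.2 ⟨Finset.mem_univ _, hx', h⟩)
      · exact Or.inl (Finset.mem_filter.2 ⟨Finset.mem_univ _, h⟩)
    exact_mod_cast (Finset.card_le_card this).trans (Finset.card_union_le _ _)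
  have h4 : (T.card : ℝ) * L ≤ Fintype.card X := by
    have e1 : (T.card : ℝ) = ∑ y : Y, ((T.filter fun x => p x = y).card : ℝ) := card_fib T p
    have e2 : (Fintype.card X : ℝ) = ∑ y : Y, ((univ.filter fun x : X => p x = y).card : ℝ) :=
      card_fib univ p
    rw [e1, e2, Finset.sum_mul]
    refine Finset.sum_le_sum fun y _ => ?_
    rcases (T.filter fun x => p x = y).eq_empty_or_nonempty with he | ⟨x0, hx0⟩
    · rw [he]; simp
    · obtain ⟨hx1, hx2⟩ := Finset.mem_filter.1 hx0
      obtain ⟨-, -, hx3⟩ := Finset.mem_filter.1 hx1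
      rw [hx2] at hx3
      refine le_trans ?_ hx3
      have e3 : ((T.filter fun x => p x = y).card : ℝ) =
          ∑ w : W, (((T.filter fun x => p x = y).filter fun x => G x = w).card : ℝ) :=
        card_fib _ G
      have e4 : ((T.filter fun x => p x = y).card : ℝ) ≤ Fintype.card W * L := by
        rw [e3]
        have : ∑ w : W, (((T.filter fun x => p x = y).filter fun x => G x = w).card : ℝ) ≤
            ∑ _w : W, L := by
          refine Finset.sum_le_sum fun w _ => ?_
          rcases ((T.filter fun x => p x = y).filter fun x => G x = w).eq_empty_or_nonempty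
            with he | ⟨x4, hx4⟩
          · rw [he]; simpa using hL0
          · obtain ⟨hx5, hx6⟩ := Finset.mem_filter.1 hx4
            obtain ⟨hx7, hx8⟩ := Finset.mem_filter.1 hx5
            obtain ⟨-, hx9, -⟩ := Finset.mem_filter.1 hx7
            push Not at hx9
            refine le_trans ?_ hx9.le
            show (((T.filter fun x => p x = y).filter fun x => G x = w).card : ℝ) ≤
              ((univ.filter fun x : X => v x = v x4).card : ℝ)
            refine Nat.cast_le.2 (Finset.card_le_card fun x hx => ?_)
            obtain ⟨hx', hxw⟩ := Finset.mem_filter.1 hx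
            obtain ⟨-, hxy⟩ := Finset.mem_filter.1 hx'
            refine Finset.mem_filter.2 ⟨Finset.mem_univ _, ?_⟩
            simp only [hv, hxw, hxy, hx6, hx8]
        refine this.trans (le_of_eq ?_)
        rw [Finset.sum_const, nsmul_eq_mul]
        rfl
      calc ((T.filter fun x => p x = y).card : ℝ) * L ≤ (Fintype.card W * L) * L :=
            mul_le_mul_of_nonneg_right e4 hL0
        _ = Fintype.card W * L ^ 2 := by ring
  have h5 : ((univ.image v).card : ℝ) = ((univ.image v).filter fun d => L ≤ fib d).card +
      ((univ.image v).filter fun d => ¬ L ≤ fib d).card := by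
    exact_mod_cast (Finset.card_filter_add_card_filter_not (s := univ.image v)
      (fun d => L ≤ fib d)).symm
  rw [h5, add_mul]
  have h6 : ((((univ.image v).filter fun d => ¬ L ≤ fib d).card : ℝ)) * L ≤
      2 * Fintype.card X := by
    calc ((((univ.image v).filter fun d => ¬ L ≤ fib d).card : ℝ)) * L ≤ (S.card : ℝ) * L :=
          mul_le_mul_of_nonneg_right h2 hL0
      _ ≤ ((univ.filter fun x : X => ¬ (Fintype.card W * L ^ 2 ≤
      ((univ.filter fun x' : X => p x' = p x).card : ℝ))).card + T.card) * L :=
          mul_le_mul_of_nonneg_right h3 hL0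
      _ ≤ 2 * Fintype.card X := by rw [add_mul]; linarith
  linarith

open Classical in
/-- collisions with an element of a given small set -/
theorem spr_coll {V : Type} (h : IH → V → Z) (D : Finset V) (v0 : V)
    (hh : ∀ y y', y ≠ y' → (univ.filter fun g : IH => h g y = h g y').card * Fintype.card Z ≤
      Fintype.card IH) :
    (univ.filter fun g : IH => ∃ v ∈ D, v ≠ v0 ∧ h g v = h g v0).card * Fintype.card Z ≤
      D.card * Fintype.card IH := by
  have h1 : (univ.filter fun g : IH => ∃ v ∈ D, v ≠ v0 ∧ h g v = h g v0) ⊆
      (D.filter fun v => v ≠ v0).biUnion fun v => univ.filter fun g : IH => h g v = h g v0 := by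
    intro g hg
    obtain ⟨-, v, hv, hv0, hgv⟩ := Finset.mem_filter.1 hg
    exact Finset.mem_biUnion.2 ⟨v, Finset.mem_filter.2 ⟨hv, hv0⟩,
      Finset.mem_filter.2 ⟨Finset.mem_univ _, hgv⟩⟩
  calc (univ.filter fun g : IH => ∃ v ∈ D, v ≠ v0 ∧ h g v = h g v0).card * Fintype.card Z
      ≤ (∑ v ∈ D.filter fun v => v ≠ v0, (univ.filter fun g : IH => h g v = h g v0).card) *
          Fintype.card Z :=
        Nat.mul_le_mul_right _ ((Finset.card_le_card h1).trans Finset.card_biUnion_le)
    _ = ∑ v ∈ D.filter fun v => v ≠ v0, (univ.filter fun g : IH => h g v = h g v0).card *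
          Fintype.card Z := by rw [Finset.sum_mul]
    _ ≤ ∑ _v ∈ D.filter fun v => v ≠ v0, Fintype.card IH :=
        Finset.sum_le_sum fun v hv => hh _ _ (Finset.mem_filter.1 hv).2
    _ = (D.filter fun v => v ≠ v0).card * Fintype.card IH := by
        rw [Finset.sum_const, smul_eq_mul]
    _ ≤ D.card * Fintype.card IH :=
        Nat.mul_le_mul_right _ (Finset.card_filter_le _ _)

end Aux

open Classical in
/-- Let `X` be the inputs, `p : X → Y`, and let `G : X → W` and `h : Y × W → Z` be random members
of universal families, where `|X| = 2 |Z|`. If for most inputs `x` the set `acc x` is much smaller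
than `W`, and `W` is much smaller than the fibre of `p` through `x`, then for most `(G, h, x)`
every second preimage `x'` of `x` for `F x = h (p x, G x)` satisfies `p x' = p x` and is not
in `acc x`. -/
theorem spr_count {X Y W Z IG IH : Type} [Fintype X] [Fintype Y] [Fintype W] [Fintype Z]
    [Fintype IG] [Fintype IH] (p : X → Y) (G : IG → X → W) (h : IH → Y × W → Z)
    (acc : X → Finset X) (L : ℝ) (hL : 1 ≤ L)
    (hG : ∀ x x', x ≠ x' → (univ.filter fun g : IG => G g x = G g x').card * Fintype.card W ≤
      Fintype.card IG)
    (hh : ∀ y y', y ≠ y' → (univ.filter fun g : IH => h g y = h g y').card * Fintype.card Z ≤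
      Fintype.card IH)
    (hZ : Fintype.card X = 2 * Fintype.card Z)
    (hα : ((univ.filter fun x : X => ¬ ((acc x).card * L ^ 2 ≤ Fintype.card W)).card : ℝ) * L ≤
      Fintype.card X)
    (hβ : ((univ.filter fun x : X => ¬ (Fintype.card W * L ^ 2 ≤
      ((univ.filter fun x' : X => p x' = p x).card : ℝ))).card : ℝ) * L ≤ Fintype.card X) :
    ((univ.filter fun s : IG × IH × X => ∃ x', x' ≠ s.2.2 ∧
      h s.2.1 (p x', G s.1 x') = h s.2.1 (p s.2.2, G s.1 s.2.2) ∧
      ¬ (p x' = p s.2.2 ∧ x' ∉ acc s.2.2)).card : ℝ) * L ≤
      8 * (Fintype.card IG * Fintype.card IH * Fintype.card X) := by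
  have hL0 : 0 ≤ L := by linarith
  set PA : IG → X → Prop := fun g x => ∃ x' ∈ acc x, x' ≠ x ∧ G g x' = G g x with hPA
  set PB : IG → IH → X → Prop := fun g k x => ∃ v ∈ univ.image (fun x' : X => (p x', G g x')),
    v ≠ (p x, G g x) ∧ h k v = h k (p x, G g x) with hPB
  -- the two cases
  have hsub : (univ.filter fun s : IG × IH × X => ∃ x', x' ≠ s.2.2 ∧
      h s.2.1 (p x', G s.1 x') = h s.2.1 (p s.2.2, G s.1 s.2.2) ∧
      ¬ (p x' = p s.2.2 ∧ x' ∉ acc s.2.2)) ⊆
      (univ.filter fun s : IG × IH × X => PA s.1 s.2.2) ∪
      (univ.filter fun s : IG × IH × X => PB s.1 s.2.1 s.2.2) := by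
    rintro ⟨g, k, x⟩ hs
    obtain ⟨-, x', hx', hc, hn⟩ := Finset.mem_filter.1 hs
    rw [Finset.mem_union]
    by_cases hA : PA g x
    · exact Or.inl (Finset.mem_filter.2 ⟨Finset.mem_univ _, hA⟩)
    · refine Or.inr (Finset.mem_filter.2 ⟨Finset.mem_univ _, (p x', G g x'),
        Finset.mem_image_of_mem _ (Finset.mem_univ _), ?_, hc⟩)
      intro he
      obtain ⟨he1, he2⟩ := Prod.mk.inj he
      refine hA ⟨x', ?_, hx', he2⟩
      by_contra hacc
      exact hn ⟨he1, hacc⟩
  -- count of the first case
  have hcA : ((univ.filter fun s : IG × IH × X => PA s.1 s.2.2).card : ℝ) * L ≤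
      2 * (Fintype.card IG * Fintype.card IH * Fintype.card X) := by
    have hx : ∀ x, ((univ.filter fun g => PA g x).card : ℝ) * L ≤ Fintype.card IG +
        (if ¬ ((acc x).card * L ^ 2 ≤ (Fintype.card W : ℝ)) then (Fintype.card IG : ℝ) * L
          else 0) := by
      intro x
      have hle : ((univ.filter fun g => PA g x).card : ℝ) ≤ Fintype.card IG := by
        exact_mod_cast Finset.card_le_univ _
      by_cases hx : (acc x).card * L ^ 2 ≤ (Fintype.card W : ℝ)
      swap
      · rw [if_pos hx]
        have := mul_le_mul_of_nonneg_right hle hL0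
        have h0 : (0 : ℝ) ≤ Fintype.card IG := by positivity
        linarith
      · rw [if_neg (not_not.2 hx), add_zero]
        rcases isEmpty_or_nonempty IG with hI | ⟨⟨g0⟩⟩
        · have : (univ.filter fun g => PA g x) = ∅ := by
            apply Finset.eq_empty_of_forall_notMem
            intro g; exact (hI.false g).elim
          rw [this]; simp
        · have hW : 0 < Fintype.card W := Fintype.card_pos_iff.2 ⟨G g0 x⟩
          have hW' : (0 : ℝ) < Fintype.card W := by exact_mod_cast hW
          have h1 := spr_coll G (acc x) x hG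
          have h1' : ((univ.filter fun g => PA g x).card : ℝ) * Fintype.card W ≤
              (acc x).card * Fintype.card IG := by exact_mod_cast h1
          have h2 : ((univ.filter fun g => PA g x).card : ℝ) * L ^ 2 ≤ Fintype.card IG := by
            have h3 : (((univ.filter fun g => PA g x).card : ℝ) * L ^ 2) * Fintype.card W ≤
                Fintype.card IG * Fintype.card W := by
              calc (((univ.filter fun g => PA g x).card : ℝ) * L ^ 2) * Fintype.card W
                  = (((univ.filter fun g => PA g x).card : ℝ) * Fintype.card W) * L ^ 2 := by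
                    ring
                _ ≤ ((acc x).card * Fintype.card IG) * L ^ 2 :=
                    mul_le_mul_of_nonneg_right h1' (by positivity)
                _ = ((acc x).card * L ^ 2) * Fintype.card IG := by ring
                _ ≤ Fintype.card W * Fintype.card IG :=
                    mul_le_mul_of_nonneg_right hx (by positivity)
                _ = Fintype.card IG * Fintype.card W := by ring
            exact le_of_mul_le_mul_right h3 hW'
          refine le_trans ?_ h2
          refine mul_le_mul_of_nonneg_left ?_ (by positivity)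
          nlinarith
    have hcard : ((univ.filter fun s : IG × IH × X => PA s.1 s.2.2).card : ℝ) =
        Fintype.card IH * ∑ x, ((univ.filter fun g => PA g x).card : ℝ) := by
      have e1 : ((univ.filter fun s : IG × IH × X => PA s.1 s.2.2).card : ℝ) =
          ∑ g : IG, ∑ _k : IH, ∑ x : X, if PA g x then (1 : ℝ) else 0 := by
        rw [Finset.card_filter]
        push_cast
        rw [Fintype.sum_prod_type]
        refine Finset.sum_congr rfl fun g _ => ?_
        rw [Fintype.sum_prod_type]
      rw [e1]
      have e2 : ∀ x, ((univ.filter fun g => PA g x).card : ℝ) =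
          ∑ g : IG, if PA g x then (1 : ℝ) else 0 := by
        intro x
        rw [Finset.card_filter]
        push_cast
        rfl
      simp only [e2]
      rw [Finset.sum_comm (γ := X), Finset.mul_sum]
      refine Finset.sum_congr rfl fun g _ => ?_
      rw [Finset.sum_const, nsmul_eq_mul]
      rfl
    rw [hcard, mul_assoc, Finset.sum_mul]
    have hsum : ∑ x, ((univ.filter fun g => PA g x).card : ℝ) * L ≤
        2 * (Fintype.card IG * Fintype.card X) := by
      refine (Finset.sum_le_sum fun x _ => hx x).trans ?_
      rw [Finset.sum_add_distrib, Finset.sum_const, nsmul_eq_mul, ← Finset.sum_filter,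
        Finset.sum_const, nsmul_eq_mul]
      have h0 : (0 : ℝ) ≤ Fintype.card IG := by positivity
      have := mul_le_mul_of_nonneg_left hα h0
      have e : (((univ : Finset X).card : ℕ) : ℝ) = Fintype.card X := rfl
      rw [e]
      nlinarith
    have h0 : (0 : ℝ) ≤ Fintype.card IH := by positivity
    have := mul_le_mul_of_nonneg_left hsum h0
    nlinarith
  -- count of the second case
  have hcB : ((univ.filter fun s : IG × IH × X => PB s.1 s.2.1 s.2.2).card : ℝ) * L ≤
      6 * (Fintype.card IG * Fintype.card IH * Fintype.card X) := by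
    have hgx : ∀ g x, ((univ.filter fun k => PB g k x).card : ℝ) * L ≤
        6 * Fintype.card IH := by
      intro g x
      have hZ0 : 0 < Fintype.card Z := by
        have : 0 < Fintype.card X := Fintype.card_pos_iff.2 ⟨x⟩
        omega
      have hZ0' : (0 : ℝ) < Fintype.card Z := by exact_mod_cast hZ0
      have h1 := spr_coll h (univ.image fun x' : X => (p x', G g x')) (p x, G g x) hh
      have h1' : ((univ.filter fun k => PB g k x).card : ℝ) * Fintype.card Z ≤
          (univ.image fun x' : X => (p x', G g x')).card * Fintype.card IH := by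
        exact_mod_cast h1
      have h2 := spr_image p (G g) L hL hβ
      have hXZ : (Fintype.card X : ℝ) = 2 * Fintype.card Z := by exact_mod_cast hZ
      have h0 : (0 : ℝ) ≤ Fintype.card IH := by positivity
      have h3 : (((univ.filter fun k => PB g k x).card : ℝ) * L) * Fintype.card Z ≤
          (6 * Fintype.card IH) * Fintype.card Z := by
        calc (((univ.filter fun k => PB g k x).card : ℝ) * L) * Fintype.card Z
            = (((univ.filter fun k => PB g k x).card : ℝ) * Fintype.card Z) * L := by ring
          _ ≤ ((univ.image fun x' : X => (p x', G g x')).card * Fintype.card IH) * L :=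
              mul_le_mul_of_nonneg_right h1' hL0
          _ = ((univ.image fun x' : X => (p x', G g x')).card * L) * Fintype.card IH := by ring
          _ ≤ (3 * Fintype.card X) * Fintype.card IH := mul_le_mul_of_nonneg_right h2 h0
          _ = (6 * Fintype.card IH) * Fintype.card Z := by rw [hXZ]; ring
      exact le_of_mul_le_mul_right h3 hZ0'
    have hcard : ((univ.filter fun s : IG × IH × X => PB s.1 s.2.1 s.2.2).card : ℝ) =
        ∑ g : IG, ∑ x : X, ((univ.filter fun k => PB g k x).card : ℝ) := by
      rw [Finset.card_filter]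
      push_cast
      rw [Fintype.sum_prod_type]
      refine Finset.sum_congr rfl fun g _ => ?_
      rw [Fintype.sum_prod_type, Finset.sum_comm]
      refine Finset.sum_congr rfl fun x _ => ?_
      rw [Finset.card_filter]
      push_cast
      rfl
    rw [hcard, Finset.sum_mul]
    calc ∑ g : IG, (∑ x : X, ((univ.filter fun k => PB g k x).card : ℝ)) * L
        ≤ ∑ _g : IG, (Fintype.card X : ℝ) * (6 * Fintype.card IH) := by
          refine Finset.sum_le_sum fun g _ => ?_
          rw [Finset.sum_mul]
          refine (Finset.sum_le_sum fun x _ => hgx g x).trans ?_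
          rw [Finset.sum_const, nsmul_eq_mul]
          rfl
      _ = 6 * (Fintype.card IG * Fintype.card IH * Fintype.card X) := by
          rw [Finset.sum_const, nsmul_eq_mul]
          have e : (((univ : Finset IG).card : ℕ) : ℝ) = Fintype.card IG := rfl
          rw [e]
          ring
  have htot : ((univ.filter fun s : IG × IH × X => ∃ x', x' ≠ s.2.2 ∧
      h s.2.1 (p x', G s.1 x') = h s.2.1 (p s.2.2, G s.1 s.2.2) ∧
      ¬ (p x' = p s.2.2 ∧ x' ∉ acc s.2.2)).card : ℝ) ≤
      ((univ.filter fun s : IG × IH × X => PA s.1 s.2.2).card : ℝ) +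
      ((univ.filter fun s : IG × IH × X => PB s.1 s.2.1 s.2.2).card : ℝ) := by
    exact_mod_cast (Finset.card_le_card hsub).trans (Finset.card_union_le _ _)
  have := mul_le_mul_of_nonneg_right htot hL0
  rw [add_mul] at this
  linarith

end Pool.Agent.Lib.MP_2b5695_lc.Owf
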