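import Pool.Agent.Lib.MP_2b5695_lc.Owf.FDef
import Pool.Agent.Lib.MP_2b5695_lc.Owf.Spr

/-!
The main counting argument.
-/

namespace Pool.Agent.Lib.MP_2b5695_lc.Owf

open Finset

variable {n m i t a l : ℕ}

/-! ### counting -/

section
variable {α : Type} [Fintype α]

/-- the number of elements with a property -/
private noncomputable def c1cnt (p : α → Prop) : ℕ :=
  (@Finset.filter α p (fun _ => Classical.propDecidable _) univ).card

private theorem c1cnt_eq (p : α → Prop) {i : DecidablePred p} : (@Finset.filter α p i univ).card = c1cnt p := by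
  unfold c1cnt
  congr

private theorem c1cnt_congr {p q : α → Prop} (h : ∀ x, p x ↔ q x) : c1cnt p = c1cnt q := by
  have : p = q := funext fun x => propext (h x)
  rw [this]

private theorem c1cnt_mono {p q : α → Prop} (h : ∀ x, p x → q x) : c1cnt p ≤ c1cnt q := by
  classical
  rw [← c1cnt_eq p, ← c1cnt_eq q]
  exact Finset.card_le_card fun x hx => by
    rw [Finset.mem_filter] at hx ⊢
    exact ⟨hx.1, h x hx.2⟩

private theorem c1cnt_true : c1cnt (fun _ : α => True) = Fintype.card α := by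
  unfold c1cnt
  rw [Finset.filter_true, Finset.card_univ]

private theorem c1cnt_or (p q : α → Prop) : c1cnt (fun x => p x ∨ q x) ≤ c1cnt p + c1cnt q := by
  classical
  rw [← c1cnt_eq, ← c1cnt_eq p, ← c1cnt_eq q, Finset.filter_or]
  exact Finset.card_union_le _ _

private theorem c1cnt_exists {β : Type} [Fintype β] (p : β → α → Prop) :
    c1cnt (fun x => ∃ c, p c x) ≤ ∑ c, c1cnt (p c) := by
  classical
  have h1 : (univ.filter fun x => ∃ c, p c x) ⊆
      (univ : Finset β).biUnion fun c => univ.filter fun x => p c x := by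
    intro x hx
    obtain ⟨-, c, hc⟩ := Finset.mem_filter.1 hx
    exact Finset.mem_biUnion.2 ⟨c, Finset.mem_univ _, Finset.mem_filter.2 ⟨Finset.mem_univ _, hc⟩⟩
  rw [← c1cnt_eq]
  refine (Finset.card_le_card h1).trans (Finset.card_biUnion_le.trans (le_of_eq ?_))
  exact Finset.sum_congr rfl fun c _ => c1cnt_eq _

private theorem c1cnt_prod {β : Type} [Fintype β] (p : α × β → Prop) :
    c1cnt p = ∑ u, c1cnt (fun v => p (u, v)) := by
  unfold c1cnt
  simp only [Finset.card_filter, Fintype.sum_prod_type]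

private theorem c1cnt_snd {β : Type} [Fintype β] (p : β → Prop) :
    c1cnt (fun s : α × β => p s.2) = Fintype.card α * c1cnt p := by
  rw [c1cnt_prod]
  simp only [Finset.sum_const, Finset.card_univ, smul_eq_mul]

end

private lemma c1_flat {t n : ℕ} :
    Function.Injective (flat : (Fin t → BV n) → BV (t * n)) := by
  intro X X' h
  funext j l
  have := congrFun h (finProdFinEquiv (j, l))
  simpa [flat] using this

private lemma c1_append {p q : ℕ} {u u' : BV p} {v v' : BV q}
    (h : Fin.append u v = Fin.append u' v') : u = u' ∧ v = v' := by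
  constructor
  · funext j
    have := congrFun h (Fin.castAdd q j)
    simpa using this
  · funext j
    have := congrFun h (Fin.natAdd p j)
    simpa using this

private lemma c1_card (n : ℕ) : Fintype.card (BV n) = 2 ^ n := by
  rw [Fintype.card_fun, Fintype.card_fin, Fintype.card_bool]

/-- second preimages which are not breaks -/
private def Bad (f : BV n → BV m) (g : BM i m) (G : BM a (t * n)) (h : BM l (t * i + a))
    (X : Fin t → BV n) : Prop :=
  ∃ X', X' ≠ X ∧ FF f g G h X' = FF f g G h X ∧ ¬ (PP f g X' = PP f g X ∧ X' ∉ accP f g X)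

private lemma c1_spr (f : BV n → BV m) (hl : l + 1 = t * n) (g : BM i m) {L : ℝ} (hL : 1 ≤ L)
    (hg : Good f g t a L) :
    (c1cnt (fun s : BM a (t * n) × BM l (t * i + a) × (Fin t → BV n) =>
      Bad f g s.1 s.2.1 s.2.2) : ℝ) * L ≤
      8 * (Fintype.card (BM a (t * n)) * Fintype.card (BM l (t * i + a)) *
        Fintype.card (Fin t → BV n)) := by
  have h1 := spr_count (X := Fin t → BV n) (Y := BV (t * i)) (W := BV a) (Z := BV l)
    (IG := BM a (t * n)) (IH := BM l (t * i + a)) (PP f g) (fun G X => mulF G (flat X))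
    (fun h y => mulF h (Fin.append y.1 y.2)) (accP f g) L hL ?_ ?_ ?_ ?_ ?_
  · rw [c1cnt_eq] at h1
    exact h1
  · intro x x' hx
    rw [c1_card, c1cnt_eq]
    have h2 := card_mulF_eq (a := a) (v := flat x) (v' := flat x') (fun h => hx (c1_flat h))
    rw [c1cnt_eq] at h2
    exact h2.le
  · intro y y' hy
    rw [c1_card, c1cnt_eq]
    have h2 := card_mulF_eq (a := l) (v := Fin.append y.1 y.2) (v' := Fin.append y'.1 y'.2)
      (fun h => hy (Prod.ext (c1_append h).1 (c1_append h).2))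
    rw [c1cnt_eq] at h2
    exact h2.le
  · rw [Fintype.card_fun, c1_card, c1_card, Fintype.card_fin, ← pow_mul, mul_comm n t, ← hl,
      pow_succ, mul_comm]
  · have h2 := hg.1
    rw [c1cnt_eq] at h2 ⊢
    exact h2
  · have h2 := hg.2
    rw [c1cnt_eq] at h2 ⊢
    refine le_trans (le_of_eq ?_) h2
    congr 2
    refine c1cnt_congr fun x => not_congr ?_
    rw [c1cnt_eq, c1cnt_eq]

open Classical in
/-- second preimages of `FF`, for good `g` -/
theorem spr_good (f : BV n → BV m) (hl : l + 1 = t * n) (g : BM i m) {L : ℝ} (hL : 1 ≤ L)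
    (hg : Good f g t a L) :
    ((univ.filter fun s : BM a (t * n) × BM l (t * i + a) × (Fin t → BV n) => ∃ X', X' ≠ s.2.2 ∧
      FF f g s.1 s.2.1 X' = FF f g s.1 s.2.1 s.2.2 ∧
      ¬ (PP f g X' = PP f g s.2.2 ∧ X' ∉ accP f g s.2.2)).card : ℝ) * L ≤
      8 * (Fintype.card (BM a (t * n)) * Fintype.card (BM l (t * i + a)) *
        Fintype.card (Fin t → BV n)) := by
  rw [c1cnt_eq]
  exact c1_spr f hl g hL hg

/-- if `X'` is consistent with `X` but not accessible, there is a break in some block -/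
theorem exists_brk (f : BV n → BV m) (g : BM i m) {X X' : Fin t → BV n}
    (h : PP f g X' = PP f g X) (h' : X' ∉ accP f g X) : ∃ c, Brk f g X X' c := by
  rw [accP, Fintype.mem_piFinset] at h'
  push Not at h'
  obtain ⟨c, hc⟩ := h'
  refine ⟨c, ?_, hc⟩
  rw [realS, Finset.mem_filter]
  exact ⟨Finset.mem_univ _, congrFun (c1_flat h) c⟩

private lemma c1_half {Ω Loc : Type} [Fintype Ω] [Fintype Loc] [Nonempty Loc] (f : BV n → BV m)
    (hl : l + 1 = t * n) {g : BM i m} {L : ℝ} (hL1 : 1 ≤ L)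
    (hL : 32 * Fintype.card Loc ≤ L) (hg : Good f g t a L)
    (zH z' : Loc → BM a (t * n) → BM l (t * i + a) → Ω → (Fin t → BV n))
    (P : Loc → BM a (t * n) → BM l (t * i + a) → Ω → (Fin t → BV n) → Ω)
    (ha : ∀ c G h ω X, zH c G h (P c G h ω X) = X)
    (hb : ∀ c G h (T : Ω → Prop), c1cnt (fun s : Ω × (Fin t → BV n) => T (P c G h s.1 s.2)) =
      Fintype.card (Fin t → BV n) * c1cnt T)
    (hc : ∀ G h, 4 * c1cnt (fun ω => ¬ ∃ c, z' c G h ω ≠ zH c G h ω ∧
      FF f g G h (z' c G h ω) = FF f g G h (zH c G h ω)) ≤ Fintype.card Ω) :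
    Fintype.card (BM a (t * n)) * Fintype.card (BM l (t * i + a)) * Fintype.card Ω ≤
      2 * c1cnt (fun s : BM a (t * n) × BM l (t * i + a) × Ω => ∃ c j,
        Brk f g (zH c s.1 s.2.1 s.2.2) (z' c s.1 s.2.1 s.2.2) j) := by
  set N := Fintype.card (BM a (t * n)) * Fintype.card (BM l (t * i + a)) * Fintype.card Ω with hN
  have hXT : 0 < Fintype.card (Fin t → BV n) := Fintype.card_pos
  -- no collision
  have hB : 4 * c1cnt (fun s : BM a (t * n) × BM l (t * i + a) × Ω =>
      ¬ ∃ c, z' c s.1 s.2.1 s.2.2 ≠ zH c s.1 s.2.1 s.2.2 ∧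
      FF f g s.1 s.2.1 (z' c s.1 s.2.1 s.2.2) =
        FF f g s.1 s.2.1 (zH c s.1 s.2.1 s.2.2)) ≤ N := by
    rw [c1cnt_prod]
    simp only [c1cnt_prod (α := BM l (t * i + a)), Finset.mul_sum]
    refine (Finset.sum_le_sum fun G _ => Finset.sum_le_sum fun h _ => hc G h).trans ?_
    simp only [Finset.sum_const, Finset.card_univ, smul_eq_mul]
    rw [hN, mul_assoc]
  -- bad second preimages at one location
  have hC1 : ∀ c, (c1cnt (fun s : BM a (t * n) × BM l (t * i + a) × Ω =>
      Bad f g s.1 s.2.1 (zH c s.1 s.2.1 s.2.2)) : ℝ) * L ≤ 8 * N := by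
    intro c
    have h1 : ∀ G h, Fintype.card (Fin t → BV n) *
        c1cnt (fun ω : Ω => Bad f g G h (zH c G h ω)) =
        Fintype.card Ω * c1cnt (fun X => Bad f g G h X) := by
      intro G h
      rw [← hb c G h (fun ω => Bad f g G h (zH c G h ω))]
      simp only [ha]
      exact c1cnt_snd (fun X => Bad f g G h X)
    have h2 : Fintype.card (Fin t → BV n) *
        c1cnt (fun s : BM a (t * n) × BM l (t * i + a) × Ω =>
          Bad f g s.1 s.2.1 (zH c s.1 s.2.1 s.2.2)) =
        Fintype.card Ω * c1cnt (fun s : BM a (t * n) × BM l (t * i + a) × (Fin t → BV n) =>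
          Bad f g s.1 s.2.1 s.2.2) := by
      rw [c1cnt_prod, c1cnt_prod (α := BM a (t * n))]
      simp only [c1cnt_prod (α := BM l (t * i + a)), Finset.mul_sum]
      exact Finset.sum_congr rfl fun G _ => Finset.sum_congr rfl fun h _ => h1 G h
    have h3 := c1_spr f hl g hL1 hg
    have h4 : ((Fintype.card (Fin t → BV n) : ℝ)) *
        (c1cnt (fun s : BM a (t * n) × BM l (t * i + a) × Ω =>
          Bad f g s.1 s.2.1 (zH c s.1 s.2.1 s.2.2))) =
        Fintype.card Ω * c1cnt (fun s : BM a (t * n) × BM l (t * i + a) × (Fin t → BV n) =>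
          Bad f g s.1 s.2.1 s.2.2) := by exact_mod_cast h2
    have hXT' : (0 : ℝ) < Fintype.card (Fin t → BV n) := by exact_mod_cast hXT
    have h5 : (Fintype.card (Fin t → BV n) : ℝ) *
        ((c1cnt (fun s : BM a (t * n) × BM l (t * i + a) × Ω =>
          Bad f g s.1 s.2.1 (zH c s.1 s.2.1 s.2.2)) : ℝ) * L) ≤
        (Fintype.card (Fin t → BV n) : ℝ) * (8 * N) := by
      rw [← mul_assoc, h4, mul_assoc]
      refine (mul_le_mul_of_nonneg_left h3 (Nat.cast_nonneg _)).trans (le_of_eq ?_)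
      rw [hN]
      push_cast
      ring
    exact le_of_mul_le_mul_left h5 hXT'
  -- bad second preimages at some location
  have hC : 4 * c1cnt (fun s : BM a (t * n) × BM l (t * i + a) × Ω =>
      ∃ c, Bad f g s.1 s.2.1 (zH c s.1 s.2.1 s.2.2)) ≤ N := by
    have h1 := c1cnt_exists (fun (c : Loc) (s : BM a (t * n) × BM l (t * i + a) × Ω) =>
      Bad f g s.1 s.2.1 (zH c s.1 s.2.1 s.2.2))
    have h2 : (c1cnt (fun s : BM a (t * n) × BM l (t * i + a) × Ω =>
        ∃ c, Bad f g s.1 s.2.1 (zH c s.1 s.2.1 s.2.2)) : ℝ) * L ≤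
        Fintype.card Loc * (8 * N) := by
      have h3 : (c1cnt (fun s : BM a (t * n) × BM l (t * i + a) × Ω =>
          ∃ c, Bad f g s.1 s.2.1 (zH c s.1 s.2.1 s.2.2)) : ℝ) ≤
          ∑ c : Loc, (c1cnt (fun s : BM a (t * n) × BM l (t * i + a) × Ω =>
            Bad f g s.1 s.2.1 (zH c s.1 s.2.1 s.2.2)) : ℝ) := by exact_mod_cast h1
      refine (mul_le_mul_of_nonneg_right h3 (by linarith)).trans ?_
      rw [Finset.sum_mul]
      refine (Finset.sum_le_sum fun c _ => hC1 c).trans (le_of_eq ?_)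
      rw [Finset.sum_const, Finset.card_univ, nsmul_eq_mul]
    have hLoc : (0 : ℝ) < Fintype.card Loc := by exact_mod_cast Fintype.card_pos
    have h4 : (Fintype.card Loc : ℝ) * (8 * (4 *
        (c1cnt (fun s : BM a (t * n) × BM l (t * i + a) × Ω =>
          ∃ c, Bad f g s.1 s.2.1 (zH c s.1 s.2.1 s.2.2)) : ℝ))) ≤
        (Fintype.card Loc : ℝ) * (8 * N) := by
      refine le_trans ?_ h2
      refine le_trans (le_of_eq ?_) (mul_le_mul_of_nonneg_left hL (Nat.cast_nonneg _))
      ring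
    have h5 := le_of_mul_le_mul_left h4 hLoc
    have h6 := le_of_mul_le_mul_left h5 (by norm_num : (0 : ℝ) < 8)
    exact_mod_cast h6
  -- the three cases
  have hU : N ≤ c1cnt (fun s : BM a (t * n) × BM l (t * i + a) × Ω => ∃ c j,
        Brk f g (zH c s.1 s.2.1 s.2.2) (z' c s.1 s.2.1 s.2.2) j) +
      (c1cnt (fun s : BM a (t * n) × BM l (t * i + a) × Ω =>
        ¬ ∃ c, z' c s.1 s.2.1 s.2.2 ≠ zH c s.1 s.2.1 s.2.2 ∧
        FF f g s.1 s.2.1 (z' c s.1 s.2.1 s.2.2) =
          FF f g s.1 s.2.1 (zH c s.1 s.2.1 s.2.2)) +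
      c1cnt (fun s : BM a (t * n) × BM l (t * i + a) × Ω =>
        ∃ c, Bad f g s.1 s.2.1 (zH c s.1 s.2.1 s.2.2))) := by
    have h1 : N = c1cnt (fun _ : BM a (t * n) × BM l (t * i + a) × Ω => True) := by
      rw [c1cnt_true, Fintype.card_prod, Fintype.card_prod, hN, mul_assoc]
    rw [h1]
    refine le_trans (c1cnt_mono ?_) ((c1cnt_or _ _).trans (Nat.add_le_add_left (c1cnt_or _ _) _))
    rintro ⟨G, h, ω⟩ -
    by_cases h2 : ∃ c, z' c G h ω ≠ zH c G h ω ∧ FF f g G h (z' c G h ω) = FF f g G h (zH c G h ω)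
    · by_cases h3 : ∃ c, Bad f g G h (zH c G h ω)
      · exact Or.inr (Or.inr h3)
      · left
        obtain ⟨c, hc1, hc2⟩ := h2
        have h4 : ¬ Bad f g G h (zH c G h ω) := fun hb' => h3 ⟨c, hb'⟩
        have h5 : PP f g (z' c G h ω) = PP f g (zH c G h ω) ∧
            z' c G h ω ∉ accP f g (zH c G h ω) := by
          by_contra h6
          exact h4 ⟨_, hc1, hc2, h6⟩
        obtain ⟨j, hj⟩ := exists_brk f g h5.1 h5.2
        exact ⟨c, j, hj⟩
    · exact Or.inr (Or.inl h2)
  omega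

open Classical in
/-- there is a location and a block at which there are many breaks -/
theorem core_count {Ω Loc : Type} [Fintype Ω] [Fintype Loc] [Nonempty Loc] (f : BV n → BV m)
    (hl : l + 1 = t * n) (S : Finset (BM i m)) {L : ℝ} (hL1 : 1 ≤ L)
    (hL : 32 * Fintype.card Loc ≤ L) (hS : ∀ g ∈ S, Good f g t a L)
    (zH z' : Loc → BM i m → BM a (t * n) → BM l (t * i + a) → Ω → (Fin t → BV n))
    (P : Loc → BM i m → BM a (t * n) → BM l (t * i + a) → Ω → (Fin t → BV n) → Ω)
    (ha : ∀ c g G h ω X, zH c g G h (P c g G h ω X) = X)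
    (hb : ∀ c g G h (T : Ω → Prop),
      (univ.filter fun s : Ω × (Fin t → BV n) => T (P c g G h s.1 s.2)).card =
        Fintype.card (Fin t → BV n) * (univ.filter T).card)
    (hc : ∀ g G h, 4 * (univ.filter fun ω => ¬ ∃ c, z' c g G h ω ≠ zH c g G h ω ∧
      FF f g G h (z' c g G h ω) = FF f g G h (zH c g G h ω)).card ≤ Fintype.card Ω) :
    ∃ (c : Loc) (j : Fin t),
      S.card * (Fintype.card (BM a (t * n)) * Fintype.card (BM l (t * i + a)) * Fintype.card Ω) ≤
      2 * Fintype.card Loc * t *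
        (univ.filter fun s : BM i m × BM a (t * n) × BM l (t * i + a) × Ω =>
          Brk f s.1 (zH c s.1 s.2.1 s.2.2.1 s.2.2.2) (z' c s.1 s.2.1 s.2.2.1 s.2.2.2) j).card := by
  have hb' : ∀ c g G h (T : Ω → Prop), c1cnt (fun s : Ω × (Fin t → BV n) => T (P c g G h s.1 s.2)) =
      Fintype.card (Fin t → BV n) * c1cnt T := by
    intro c g G h T
    have h1 := hb c g G h T
    rw [c1cnt_eq, c1cnt_eq] at h1
    exact h1
  have hc' : ∀ g G h, 4 * c1cnt (fun ω => ¬ ∃ c, z' c g G h ω ≠ zH c g G h ω ∧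
      FF f g G h (z' c g G h ω) = FF f g G h (zH c g G h ω)) ≤ Fintype.card Ω := by
    intro g G h
    have h1 := hc g G h
    rw [c1cnt_eq] at h1
    exact h1
  clear hb hc
  set N := Fintype.card (BM a (t * n)) * Fintype.card (BM l (t * i + a)) * Fintype.card Ω with hN
  have ht : 0 < t := by
    rcases Nat.eq_zero_or_pos t with h | h
    · rw [h] at hl; omega
    · exact h
  have : Nonempty (Fin t) := ⟨⟨0, ht⟩⟩
  let B : Loc → Fin t → ℕ := fun c j =>
    c1cnt (fun s : BM i m × BM a (t * n) × BM l (t * i + a) × Ω =>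
      Brk f s.1 (zH c s.1 s.2.1 s.2.2.1 s.2.2.2) (z' c s.1 s.2.1 s.2.2.1 s.2.2.2) j)
  have h1 : S.card * N ≤ 2 * ∑ c : Loc, ∑ j : Fin t, B c j := by
    have h2 : ∀ g ∈ S, N ≤ 2 * ∑ c : Loc, ∑ j : Fin t,
        c1cnt (fun s : BM a (t * n) × BM l (t * i + a) × Ω =>
          Brk f g (zH c g s.1 s.2.1 s.2.2) (z' c g s.1 s.2.1 s.2.2) j) := by
      intro g hg
      refine (c1_half f hl hL1 hL (hS g hg) (fun c => zH c g) (fun c => z' c g) (fun c => P c g)
        (fun c => ha c g) (fun c => hb' c g) (hc' g)).trans (Nat.mul_le_mul_left 2 ?_)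
      refine (c1cnt_exists (fun (c : Loc) (s : BM a (t * n) × BM l (t * i + a) × Ω) => ∃ j,
          Brk f g (zH c g s.1 s.2.1 s.2.2) (z' c g s.1 s.2.1 s.2.2) j)).trans ?_
      exact Finset.sum_le_sum fun c _ => c1cnt_exists
        (fun (j : Fin t) (s : BM a (t * n) × BM l (t * i + a) × Ω) =>
          Brk f g (zH c g s.1 s.2.1 s.2.2) (z' c g s.1 s.2.1 s.2.2) j)
    calc S.card * N = ∑ g ∈ S, N := by rw [Finset.sum_const, smul_eq_mul]
      _ ≤ ∑ g ∈ S, 2 * ∑ c : Loc, ∑ j : Fin t,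
        c1cnt (fun s : BM a (t * n) × BM l (t * i + a) × Ω =>
          Brk f g (zH c g s.1 s.2.1 s.2.2) (z' c g s.1 s.2.1 s.2.2) j) :=
          Finset.sum_le_sum h2
      _ ≤ ∑ g : BM i m, 2 * ∑ c : Loc, ∑ j : Fin t,
        c1cnt (fun s : BM a (t * n) × BM l (t * i + a) × Ω =>
          Brk f g (zH c g s.1 s.2.1 s.2.2) (z' c g s.1 s.2.1 s.2.2) j) :=
          Finset.sum_le_sum_of_subset (Finset.subset_univ S)
      _ = 2 * ∑ c : Loc, ∑ j : Fin t, ∑ g : BM i m,
        c1cnt (fun s : BM a (t * n) × BM l (t * i + a) × Ω =>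
          Brk f g (zH c g s.1 s.2.1 s.2.2) (z' c g s.1 s.2.1 s.2.2) j) := by
          rw [← Finset.mul_sum, Finset.sum_comm]
          congr 1
          exact Finset.sum_congr rfl fun c _ => Finset.sum_comm
      _ = 2 * ∑ c : Loc, ∑ j : Fin t, B c j := by
          congr 1
          refine Finset.sum_congr rfl fun c _ => Finset.sum_congr rfl fun j _ => ?_
          exact (c1cnt_prod (α := BM i m) (fun s : BM i m × BM a (t * n) × BM l (t * i + a) × Ω =>
            Brk f s.1 (zH c s.1 s.2.1 s.2.2.1 s.2.2.2) (z' c s.1 s.2.1 s.2.2.1 s.2.2.2) j)).symm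
  have h6 : ∃ (c : Loc) (j : Fin t), S.card * N ≤ 2 * Fintype.card Loc * t * B c j := by
    by_contra hcon
    push Not at hcon
    have h4 : ∑ c : Loc, ∑ j : Fin t, 2 * Fintype.card Loc * t * B c j <
        ∑ c : Loc, ∑ j : Fin t, S.card * N := by
      refine Finset.sum_lt_sum_of_nonempty Finset.univ_nonempty fun c _ => ?_
      exact Finset.sum_lt_sum_of_nonempty Finset.univ_nonempty fun j _ => hcon c j
    simp only [← Finset.mul_sum, Finset.sum_const, Finset.card_univ, smul_eq_mul,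
      Fintype.card_fin] at h4
    have h5 : S.card * (t * (Fintype.card Loc * N)) ≤
        2 * Fintype.card Loc * t * ∑ c : Loc, ∑ j : Fin t, B c j := by
      calc S.card * (t * (Fintype.card Loc * N)) =
          Fintype.card Loc * (t * (S.card * N)) := by ring
        _ ≤ Fintype.card Loc * (t * (2 * ∑ c : Loc, ∑ j : Fin t, B c j)) :=
          Nat.mul_le_mul_left _ (Nat.mul_le_mul_left _ h1)
        _ = _ := by ring
    exact absurd h4 (not_lt.2 h5)
  obtain ⟨c, j, hcj⟩ := h6
  refine ⟨c, j, ?_⟩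
  rw [c1cnt_eq]
  exact hcj

end Pool.Agent.Lib.MP_2b5695_lc.Owf
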