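import Pool.Agent.Lib.MP_2b5695_lc.Owf.Core1

/-!
The main counting argument: planting a value.
-/

namespace Pool.Agent.Lib.MP_2b5695_lc.Owf

open Finset

variable {n m i t a l : ℕ}

open Classical in
/-- planting a random value -/
theorem plant_one (f : BV n → BV m) (hi : i ≤ n) (x : BV n) (φ : BM i m → BV n) :
    2 ^ n * (univ.filter fun g => φ g ∈ realS f g x ∧ φ g ∉ accS f g x).card ≤
      8 * (univ.filter fun s : BV n × BM i m => f (φ (fixF (f s.1 + f x) s.2)) = f s.1).card := by
  -- the count as a sum over the planted value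
  have h1 : (univ.filter fun s : BV n × BM i m => f (φ (fixF (f s.1 + f x) s.2)) = f s.1).card =
      ∑ x' : BV n, (univ.filter fun g : BM i m => f (φ (fixF (f x' + f x) g)) = f x').card := by
    simp only [Finset.card_filter]
    rw [Fintype.sum_prod_type]
  -- lower bound for each planted value
  have h2 : ∀ x' : BV n, 2 ^ i * (univ.filter fun g : BM i m => f x' ≠ f x ∧
      mulF g (f x') = mulF g (f x) ∧ f (φ g) = f x').card ≤
      (univ.filter fun g : BM i m => f (φ (fixF (f x' + f x) g)) = f x').card := by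
    intro x'
    by_cases hx : f x' = f x
    · have : (univ.filter fun g : BM i m => f x' ≠ f x ∧
          mulF g (f x') = mulF g (f x) ∧ f (φ g) = f x') = ∅ := by
        apply Finset.filter_false_of_mem
        intro g _ hg
        exact hg.1 hx
      rw [this]
      simp
    · have h3 := card_fixF (a := i) hx (fun g => f (φ g) = f x')
      have e1 : (univ.filter fun g : BM i m => f (φ (fixF (f x' + f x) g)) = f x').card =
          2 ^ i * (univ.filter fun g : BM i m => mulF g (f x') = mulF g (f x) ∧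
            f (φ g) = f x').card := by
        convert h3
      rw [e1]
      apply Nat.mul_le_mul_left
      apply Finset.card_le_card
      intro g hg
      simp only [Finset.mem_filter, Finset.mem_univ, true_and] at hg ⊢
      exact hg.2
  -- exchange the sums
  have h4 : ∑ x' : BV n, (univ.filter fun g : BM i m => f x' ≠ f x ∧
      mulF g (f x') = mulF g (f x) ∧ f (φ g) = f x').card =
      ∑ g : BM i m, (univ.filter fun x' : BV n => f x' ≠ f x ∧
      mulF g (f x') = mulF g (f x) ∧ f (φ g) = f x').card := by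
    simp only [Finset.card_filter]
    rw [Finset.sum_comm]
  have h5 : ∀ g : BM i m, (if φ g ∈ realS f g x ∧ φ g ∉ accS f g x then 2 ^ (n - i) else 0) ≤
      8 * (univ.filter fun x' : BV n => f x' ≠ f x ∧
      mulF g (f x') = mulF g (f x) ∧ f (φ g) = f x').card := by
    intro g
    split_ifs with hg
    · obtain ⟨hr, ha⟩ := hg
      have ha' : ¬ (f (φ g) = f x ∨ wt f (f (φ g)) * 8 ≤ 2 ^ (n - i)) := by
        intro h
        apply ha
        unfold accS
        rw [Finset.mem_filter]
        exact ⟨hr, h⟩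
      unfold realS at hr
      simp only [Finset.mem_filter, Finset.mem_univ, true_and] at hr
      push Not at ha'
      have e1 : (univ.filter fun x' : BV n => f x' ≠ f x ∧
          mulF g (f x') = mulF g (f x) ∧ f (φ g) = f x') =
          univ.filter fun x' : BV n => f x' = f (φ g) := by
        ext x'
        simp only [Finset.mem_filter, Finset.mem_univ, true_and]
        constructor
        · rintro ⟨_, _, h⟩
          exact h.symm
        · intro h
          rw [h]
          exact ⟨ha'.1, hr, rfl⟩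
      rw [e1]
      have e2 : (univ.filter fun x' : BV n => f x' = f (φ g)).card = wt f (f (φ g)) := rfl
      rw [e2]
      have := ha'.2
      omega
    · exact Nat.zero_le _
  have h6 : (univ.filter fun g => φ g ∈ realS f g x ∧ φ g ∉ accS f g x).card * 2 ^ (n - i) ≤
      8 * ∑ g : BM i m, (univ.filter fun x' : BV n => f x' ≠ f x ∧
      mulF g (f x') = mulF g (f x) ∧ f (φ g) = f x').card := by
    rw [Finset.mul_sum]
    calc (univ.filter fun g => φ g ∈ realS f g x ∧ φ g ∉ accS f g x).card * 2 ^ (n - i)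
        = ∑ g : BM i m, (if φ g ∈ realS f g x ∧ φ g ∉ accS f g x then 2 ^ (n - i) else 0) := by
          rw [← Finset.sum_filter, Finset.sum_const, smul_eq_mul]
      _ ≤ _ := Finset.sum_le_sum fun g _ => h5 g
  have h7 : (2 : ℕ) ^ n = 2 ^ i * 2 ^ (n - i) := by
    rw [← pow_add]
    congr 1
    omega
  rw [h1, h7]
  calc 2 ^ i * 2 ^ (n - i) * (univ.filter fun g => φ g ∈ realS f g x ∧ φ g ∉ accS f g x).card
      = 2 ^ i * ((univ.filter fun g => φ g ∈ realS f g x ∧ φ g ∉ accS f g x).card *
        2 ^ (n - i)) := by ring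
    _ ≤ 2 ^ i * (8 * ∑ g : BM i m, (univ.filter fun x' : BV n => f x' ≠ f x ∧
      mulF g (f x') = mulF g (f x) ∧ f (φ g) = f x').card) := Nat.mul_le_mul_left _ h6
    _ = 8 * ∑ x' : BV n, 2 ^ i * (univ.filter fun g : BM i m => f x' ≠ f x ∧
      mulF g (f x') = mulF g (f x) ∧ f (φ g) = f x').card := by
        rw [← h4, ← Finset.mul_sum]
        ring
    _ ≤ _ := Nat.mul_le_mul_left _ (Finset.sum_le_sum fun x' _ => h2 x')

open Classical in
/-- there is a location and a block at which a random planted value is inverted often -/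
theorem core_final {Ω Loc : Type} [Fintype Ω] [Fintype Loc] [Nonempty Loc] (f : BV n → BV m)
    (hl : l + 1 = t * n) (hi : i ≤ n) (S : Finset (BM i m)) {L : ℝ} (hL1 : 1 ≤ L)
    (hL : 32 * Fintype.card Loc ≤ L) (hS : ∀ g ∈ S, Good f g t a L)
    (zH z' : Loc → BM i m → BM a (t * n) → BM l (t * i + a) → Ω → (Fin t → BV n))
    (P : Loc → BM i m → BM a (t * n) → BM l (t * i + a) → Ω → (Fin t → BV n) → Ω)
    (ha : ∀ c g G h ω X, zH c g G h (P c g G h ω X) = X)
    (hb : ∀ c g G h (T : Ω → Prop),
      (univ.filter fun s : Ω × (Fin t → BV n) => T (P c g G h s.1 s.2)).card =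
        Fintype.card (Fin t → BV n) * (univ.filter T).card)
    (hc : ∀ g G h, 4 * (univ.filter fun ω => ¬ ∃ c, z' c g G h ω ≠ zH c g G h ω ∧
      FF f g G h (z' c g G h ω) = FF f g G h (zH c g G h ω)).card ≤ Fintype.card Ω) :
    ∃ (c : Loc) (j : Fin t),
      2 ^ n * S.card * (Fintype.card (BM a (t * n)) * Fintype.card (BM l (t * i + a)) *
        Fintype.card Ω * Fintype.card (Fin t → BV n)) ≤
      16 * Fintype.card Loc * t *
        (univ.filter fun s : BV n × BM i m × BM a (t * n) × BM l (t * i + a) × Ω ×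
            (Fin t → BV n) =>
          f (z' c (fixF (f s.1 + f (s.2.2.2.2.2 j)) s.2.1) s.2.2.1 s.2.2.2.1
            (P c (fixF (f s.1 + f (s.2.2.2.2.2 j)) s.2.1) s.2.2.1 s.2.2.2.1 s.2.2.2.2.1
              s.2.2.2.2.2) j) = f s.1).card := by
  obtain ⟨c, j, hcj⟩ := core_count f hl S hL1 hL hS zH z' P ha hb hc
  refine ⟨c, j, ?_⟩
  set NB := (univ.filter fun s : BM i m × BM a (t * n) × BM l (t * i + a) × Ω =>
    Brk f s.1 (zH c s.1 s.2.1 s.2.2.1 s.2.2.2) (z' c s.1 s.2.1 s.2.2.1 s.2.2.2) j).card with hNB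
  set NF := (univ.filter fun s : BV n × BM i m × BM a (t * n) × BM l (t * i + a) × Ω ×
            (Fin t → BV n) =>
          f (z' c (fixF (f s.1 + f (s.2.2.2.2.2 j)) s.2.1) s.2.2.1 s.2.2.2.1
            (P c (fixF (f s.1 + f (s.2.2.2.2.2 j)) s.2.1) s.2.2.1 s.2.2.2.1 s.2.2.2.2.1
              s.2.2.2.2.2) j) = f s.1).card with hNF
  -- the number of breaks, with the inputs planted
  have h1 : Fintype.card (Fin t → BV n) * NB =
      ∑ r : BM a (t * n) × BM l (t * i + a) × Ω × (Fin t → BV n),
        (univ.filter fun g : BM i m =>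
          z' c g r.1 r.2.1 (P c g r.1 r.2.1 r.2.2.1 r.2.2.2) j ∈ realS f g (r.2.2.2 j) ∧
          z' c g r.1 r.2.1 (P c g r.1 r.2.1 r.2.2.1 r.2.2.2) j ∉ accS f g (r.2.2.2 j)).card := by
    have e1 : NB = ∑ g : BM i m, ∑ G : BM a (t * n), ∑ h : BM l (t * i + a),
        (univ.filter fun ω : Ω => Brk f g (zH c g G h ω) (z' c g G h ω) j).card := by
      rw [hNB]
      simp only [Finset.card_filter]
      rw [Fintype.sum_prod_type]
      refine Finset.sum_congr rfl fun g _ => ?_
      rw [Fintype.sum_prod_type]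
      refine Finset.sum_congr rfl fun G _ => ?_
      rw [Fintype.sum_prod_type]
    have e2 : ∀ (g : BM i m) (G : BM a (t * n)) (h : BM l (t * i + a)),
        Fintype.card (Fin t → BV n) *
          (univ.filter fun ω : Ω => Brk f g (zH c g G h ω) (z' c g G h ω) j).card =
        ∑ ω : Ω, ∑ X : Fin t → BV n,
          if (z' c g G h (P c g G h ω X) j ∈ realS f g (X j) ∧
            z' c g G h (P c g G h ω X) j ∉ accS f g (X j)) then 1 else 0 := by
      intro g G h
      have e3 := hb c g G h (fun ω => Brk f g (zH c g G h ω) (z' c g G h ω) j)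
      have e4 : Fintype.card (Fin t → BV n) *
          (univ.filter fun ω : Ω => Brk f g (zH c g G h ω) (z' c g G h ω) j).card =
          (univ.filter fun s : Ω × (Fin t → BV n) =>
            Brk f g (zH c g G h (P c g G h s.1 s.2)) (z' c g G h (P c g G h s.1 s.2)) j).card := by
        rw [← e3]
      rw [e4, Finset.card_filter, Fintype.sum_prod_type]
      refine Finset.sum_congr rfl fun ω _ => Finset.sum_congr rfl fun X _ => ?_
      simp only [ha, Brk]
    have e5 : ∀ r : BM a (t * n) × BM l (t * i + a) × Ω × (Fin t → BV n),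
        (univ.filter fun g : BM i m =>
          z' c g r.1 r.2.1 (P c g r.1 r.2.1 r.2.2.1 r.2.2.2) j ∈ realS f g (r.2.2.2 j) ∧
          z' c g r.1 r.2.1 (P c g r.1 r.2.1 r.2.2.1 r.2.2.2) j ∉ accS f g (r.2.2.2 j)).card =
        ∑ g : BM i m, if (z' c g r.1 r.2.1 (P c g r.1 r.2.1 r.2.2.1 r.2.2.2) j ∈
            realS f g (r.2.2.2 j) ∧
          z' c g r.1 r.2.1 (P c g r.1 r.2.1 r.2.2.1 r.2.2.2) j ∉ accS f g (r.2.2.2 j))
          then 1 else 0 := fun r => Finset.card_filter _ _
    simp only [e5]
    rw [Finset.sum_comm, e1, Finset.mul_sum]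
    refine Finset.sum_congr rfl fun g _ => ?_
    rw [Fintype.sum_prod_type, Finset.mul_sum]
    refine Finset.sum_congr rfl fun G _ => ?_
    rw [Fintype.sum_prod_type, Finset.mul_sum]
    refine Finset.sum_congr rfl fun h _ => ?_
    rw [e2 g G h, Fintype.sum_prod_type]
  -- the number of inversions
  have h2 : NF = ∑ r : BM a (t * n) × BM l (t * i + a) × Ω × (Fin t → BV n),
      (univ.filter fun s : BV n × BM i m =>
        f (z' c (fixF (f s.1 + f (r.2.2.2 j)) s.2) r.1 r.2.1
          (P c (fixF (f s.1 + f (r.2.2.2 j)) s.2) r.1 r.2.1 r.2.2.1 r.2.2.2) j) = f s.1).card := by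
    rw [hNF]
    simp only [Finset.card_filter]
    rw [Finset.sum_comm, Fintype.sum_prod_type]
    rw [Fintype.sum_prod_type]
    refine Finset.sum_congr rfl fun x' _ => ?_
    rw [Fintype.sum_prod_type]
  have h3 : 2 ^ n * (Fintype.card (Fin t → BV n) * NB) ≤ 8 * NF := by
    rw [h1, h2, Finset.mul_sum, Finset.mul_sum]
    refine Finset.sum_le_sum fun r _ => ?_
    exact plant_one f hi (r.2.2.2 j)
      (fun g => z' c g r.1 r.2.1 (P c g r.1 r.2.1 r.2.2.1 r.2.2.2) j)
  calc 2 ^ n * S.card * (Fintype.card (BM a (t * n)) * Fintype.card (BM l (t * i + a)) *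
        Fintype.card Ω * Fintype.card (Fin t → BV n))
      = 2 ^ n * Fintype.card (Fin t → BV n) * (S.card * (Fintype.card (BM a (t * n)) *
          Fintype.card (BM l (t * i + a)) * Fintype.card Ω)) := by ring
    _ ≤ 2 ^ n * Fintype.card (Fin t → BV n) * (2 * Fintype.card Loc * t * NB) :=
        Nat.mul_le_mul_left _ hcj
    _ = 2 * Fintype.card Loc * t * (2 ^ n * (Fintype.card (Fin t → BV n) * NB)) := by ring
    _ ≤ 2 * Fintype.card Loc * t * (8 * NF) := Nat.mul_le_mul_left _ h3
    _ = 16 * Fintype.card Loc * t * NF := by ring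

end Pool.Agent.Lib.MP_2b5695_lc.Owf
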