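import Pool.Agent.Lib.MP_2b5695_lc.Owf.Algo

/-!
The probability that the algorithm finds a preimage.
-/

namespace Pool.Agent.Lib.MP_2b5695_lc.Owf

open Alg Finset

variable {n m t l q R : ℕ} {f : List Bool × List Bool → List Bool} {aux : List Bool}
  {E : Ty.key.El × List (List Bool) → List Bool × (List Bool × List Bool)}
  {T Q : Polynomial ℕ} {fF : BV n → BV m}

/-- success of the algorithm -/
def Succ (f : List Bool × List Bool → List Bool)
    (E : Ty.key.El × List (List Bool) → List Bool × (List Bool × List Bool))
    (T Q : Polynomial ℕ) (aux : List Bool) (n : ℕ) (u : BV n) (w : List Bool) : Prop :=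
  (invE f E T Q (aux, (List.replicate n true, (f (aux, List.ofFn u), w)))).length = n ∧
    f (aux, invE f E T Q (aux, (List.replicate n true, (f (aux, List.ofFn u), w)))) =
      f (aux, List.ofFn u)

theorem succ_guess (hf : ∀ x, f (aux, List.ofFn x) = List.ofFn (fF x)) {u u' : BV n}
    (h : fF u = fF u') (v : List Bool) : Succ f E T Q aux n u (List.ofFn u' ++ v) := by
  rw [Succ, invE]
  simp only [List.length_replicate]
  have h1 := sel_spec (f := f) (aux := aux) (nu := List.replicate n true)
    (y := f (aux, List.ofFn u)) (x := List.ofFn u') (l := (List.ofFn u' ++ v).take n ::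
    (params (List.replicate n true)
      (List.replicate (T.eval (aux.length + n) * n) true)
      (List.replicate (T.eval (aux.length + n)) true)
      (List.replicate (T.eval (aux.length + n) * n) true).tail
      (List.replicate (Q.eval (aux.length + n)) true)).map fun p =>
        att f E aux (List.replicate n true)
          (List.replicate (T.eval (aux.length + n)) true)
          (List.replicate (T.eval (aux.length + n) * n) true)
          (List.replicate (T.eval (aux.length + n) * n) true).tail
          (List.replicate (Q.eval (aux.length + n)) true) (f (aux, List.ofFn u))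
          (List.ofFn u' ++ v) p)
    (by
      rw [List.take_left' (by rw [List.length_ofFn])]
      exact List.mem_cons_self)
    (by rw [List.length_ofFn, List.length_replicate])
    (by rw [hf, hf, h])
  rw [List.length_replicate] at h1
  exact h1

theorem succ_att (hf : ∀ x, f (aux, List.ofFn x) = List.ofFn (fF x)) (ht : T.eval (aux.length + n) = t)
    (hq' : Q.eval (aux.length + n) = q) (hl : l + 1 = t * n) (hq : q ≤ 2 ^ l) {i a : ℕ} (hi : i ≤ n)
    (ha : a ≤ t * n) (c : Loc q l) (j : Fin t) {u : BV n}
    (s : BM i m × BM a (t * n) × BM l (t * i + a) × Om q l (t * n) × (Fin t → BV n))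
    (hs : fF (zEF f aux E c (fixF (fF u + fF (s.2.2.2.2 j)) s.1) s.2.1 s.2.2.1
      (PlF f aux hq c (fixF (fF u + fF (s.2.2.2.2 j)) s.1) s.2.1 s.2.2.1 s.2.2.2.1 s.2.2.2.2) j) =
        fF u)
    (v : List Bool) : Succ f E T Q aux n u (encS s ++ v) := by
  have h0 : att f E aux (List.replicate n true) (List.replicate t true) (List.replicate (t * n) true)
      (List.replicate l true) (List.replicate q true) (f (aux, List.ofFn u)) (encS s ++ v)
      (List.replicate i true, (List.replicate a true, (ndW c, (stW c, List.replicate j true)))) =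
      List.ofFn (zEF f aux E c (fixF (fF u + fF (s.2.2.2.2 j)) s.1) s.2.1 s.2.2.1
      (PlF f aux hq c (fixF (fF u + fF (s.2.2.2.2 j)) s.1) s.2.1 s.2.2.1 s.2.2.2.1 s.2.2.2.2) j) := by
    rw [att, parse_encS (by rw [hf, List.length_ofFn])]
    exact attW_eq hl hq hf c j u _ _ _ _ _
  have h1 : (List.replicate (t * n) true).tail = List.replicate l true := by
    rw [← hl, List.replicate_succ, List.tail_cons]
  rw [Succ, invE]
  simp only [List.length_replicate, ht, hq', h1]
  have h2 := sel_spec (f := f) (aux := aux) (nu := List.replicate n true) (y := f (aux, List.ofFn u))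
    (x := List.ofFn (zEF f aux E c (fixF (fF u + fF (s.2.2.2.2 j)) s.1) s.2.1 s.2.2.1
      (PlF f aux hq c (fixF (fF u + fF (s.2.2.2.2 j)) s.1) s.2.1 s.2.2.1 s.2.2.2.1 s.2.2.2.2) j))
    (l := (encS s ++ v).take n :: (params (List.replicate n true) (List.replicate (t * n) true)
      (List.replicate t true) (List.replicate l true) (List.replicate q true)).map fun p =>
        att f E aux (List.replicate n true) (List.replicate t true) (List.replicate (t * n) true)
          (List.replicate l true) (List.replicate q true) (f (aux, List.ofFn u)) (encS s ++ v) p)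
    (by
      refine List.mem_cons_of_mem _ (List.mem_map.2 ⟨_, mem_params hi ha c j, h0⟩))
    (by rw [List.length_ofFn, List.length_replicate])
    (by rw [hf, hf, hs])
  rw [List.length_replicate] at h2
  exact h2

open Classical in
theorem card_pairs {α β : Type} [Fintype α] [Fintype β] (P : α → β → Prop) :
    (univ.filter fun s : α × β => P s.1 s.2).card = ∑ u, (univ.filter fun v => P u v).card := by
  simp only [Finset.card_filter]
  rw [Fintype.sum_prod_type]

open Classical in
/-- the probability of success -/
theorem count_inv (hn : 0 < n) (hf : ∀ x, f (aux, List.ofFn x) = List.ofFn (fF x))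
    (ht : T.eval (aux.length + n) = t) (hq' : Q.eval (aux.length + n) = q) (hl : l + 1 = t * n) (hl0 : 0 < l) (hq0 : 0 < q)
    (hq : q ≤ 2 ^ l) (hq4 : 4 * q ≤ 2 ^ l) (s : ℕ) (hs : 1 ≤ s)
    (hts : 2 ^ 24 * (n + 1) ^ 8 * s ≤ t)
    (hL : 32 * (Fintype.card (Loc q l) : ℝ) ≤ Real.exp s) (hnR : n ≤ R)
    (hR : ∀ i ≤ n, ∀ a ≤ t * n, lenS n m i t a l q ≤ R)
    (hN : ∀ i ≤ n, ∀ a ≤ t * n, ∀ (g : BM i m) (G : BM a (t * n)) (h : BM l (t * i + a))
      (π : Fin (l + 1) → Fin (2 * l) → BV (t * n)),
      (univ.filter fun r : Fin q → Fin (2 * l) → Bool => ¬ NodeCol (HH f) LL (keyOf aux n t g G h π)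
        (wordsOf r) (E (keyOf aux n t g G h π, wordsOf r))).card * 2 ^ l ≤
      q * Fintype.card (Fin q → Fin (2 * l) → Bool)) :
    2 ^ n * 2 ^ R ≤ (64 * (n + 1) ^ 2 + 512 * (n + 1) ^ 4 * (t * n + 1) *
      (16 * Fintype.card (Loc q l) * t)) *
      (univ.filter fun s : BV n × BV R => Succ f E T Q aux n s.1 (List.ofFn s.2)).card := by
  set NS := (univ.filter fun s : BV n × BV R => Succ f E T Q aux n s.1 (List.ofFn s.2)).card with hNS
  have hNS' : NS = ∑ u, (univ.filter fun w : BV R => Succ f E T Q aux n u (List.ofFn w)).card := by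
    rw [hNS]
    exact card_pairs (fun u (w : BV R) => Succ f E T Q aux n u (List.ofFn w))
  rcases exists_params hn fF s hs t hts with h | ⟨i, hi, a, ha, h⟩
  · -- many collisions
    have h1 : ∀ u : BV n, (univ.filter fun u' => fF u = fF u').card * 2 ^ R ≤
        2 ^ n * (univ.filter fun w : BV R => Succ f E T Q aux n u (List.ofFn w)).card := by
      intro u
      have h2 := count_prefix (α := BV n) hnR (fun x => List.ofFn x)
        (fun x => List.length_ofFn) (List.ofFn_injective) (by simp) (fun u' => fF u = fF u')
        (fun w => Succ f E T Q aux n u w) (fun u' v h => succ_guess hf h v)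
      have h3 : Fintype.card (BV n) = 2 ^ n := by simp
      rw [h3] at h2
      convert h2
    have h2 : (univ.filter fun s : BV n × BV n => fF s.1 = fF s.2).card * 2 ^ R ≤ 2 ^ n * NS := by
      have h3 : (univ.filter fun s : BV n × BV n => fF s.1 = fF s.2).card =
          ∑ u, (univ.filter fun u' : BV n => fF u = fF u').card := by
        convert card_pairs (fun u u' : BV n => fF u = fF u')
      rw [h3, hNS', Finset.sum_mul, Finset.mul_sum]
      exact Finset.sum_le_sum fun u _ => h1 u
    have h3 : 2 ^ n * (2 ^ n * 2 ^ R) ≤ 2 ^ n * (64 * (n + 1) ^ 2 * NS) := by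
      calc 2 ^ n * (2 ^ n * 2 ^ R) = 2 ^ n * 2 ^ n * 2 ^ R := by ring
        _ ≤ 64 * (n + 1) ^ 2 * (univ.filter fun s : BV n × BV n => fF s.1 = fF s.2).card *
            2 ^ R := Nat.mul_le_mul_right _ (by convert h)
        _ = 64 * (n + 1) ^ 2 * ((univ.filter fun s : BV n × BV n => fF s.1 = fF s.2).card *
            2 ^ R) := by ring
        _ ≤ 64 * (n + 1) ^ 2 * (2 ^ n * NS) := Nat.mul_le_mul_left _ h2
        _ = _ := by ring
    have h4 := Nat.le_of_mul_le_mul_left h3 (by positivity)
    refine h4.trans (Nat.mul_le_mul_right _ (Nat.le_add_right _ _))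
  · -- the main case
    have : Nonempty (Loc q l) := ⟨(⟨0, by omega⟩, ⟨0, by omega⟩)⟩
    set S : Finset (BM i m) := univ.filter fun g : BM i m => Good fF g t a (Real.exp s) with hS
    obtain ⟨c, j, hcj⟩ := core_final (L := Real.exp s) fF hl hi S
      (Real.one_le_exp (by positivity)) hL (by
        intro g hg
        rw [hS, Finset.mem_filter] at hg
        exact hg.2)
      (fun c g G h ω => zHF f aux c g G h ω) (fun c g G h ω => zEF f aux E c g G h ω)
      (fun c g G h ω X => PlF f aux hq c g G h ω X) (fun c g G h ω X => zHF_PlF hl hq c g G h ω X)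
      (fun c g G h T => by convert card_PlF hl hq c g G h T)
      (fun g G h => by
        convert count_place hl hq hq4 hf g G h (hN i hi a ha g G h))
    set P : BV n → (BM i m × BM a (t * n) × BM l (t * i + a) × Om q l (t * n) ×
        (Fin t → BV n)) → Prop := fun u s =>
      fF (zEF f aux E c (fixF (fF u + fF (s.2.2.2.2 j)) s.1) s.2.1 s.2.2.1
      (PlF f aux hq c (fixF (fF u + fF (s.2.2.2.2 j)) s.1) s.2.1 s.2.2.1 s.2.2.2.1 s.2.2.2.2) j) =
        fF u with hP
    have h1 : ∀ u : BV n, (univ.filter fun s => P u s).card * 2 ^ R ≤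
        2 ^ lenS n m i t a l q *
          (univ.filter fun w : BV R => Succ f E T Q aux n u (List.ofFn w)).card := by
      intro u
      have h2 := count_prefix (hR i hi a ha) (encS (n := n) (m := m) (i := i) (t := t) (a := a)
        (l := l) (q := q)) length_encS encS_inj card_encS (fun s => P u s)
        (fun w => Succ f E T Q aux n u w) (fun s v h => succ_att hf ht hq' hl hq hi ha c j s h v)
      rw [card_encS] at h2
      convert h2
    have h2 : (univ.filter fun s : BV n × (BM i m × BM a (t * n) × BM l (t * i + a) ×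
        Om q l (t * n) × (Fin t → BV n)) => P s.1 s.2).card * 2 ^ R ≤
        2 ^ lenS n m i t a l q * NS := by
      have h3 : (univ.filter fun s : BV n × (BM i m × BM a (t * n) × BM l (t * i + a) ×
          Om q l (t * n) × (Fin t → BV n)) => P s.1 s.2).card =
          ∑ u, (univ.filter fun s => P u s).card := by
        convert card_pairs P
      rw [h3, hNS', Finset.sum_mul, Finset.mul_sum]
      exact Finset.sum_le_sum fun u _ => h1 u
    have hc1 : Fintype.card (BM i m) * (Fintype.card (BM a (t * n)) *
        Fintype.card (BM l (t * i + a)) * Fintype.card (Om q l (t * n)) *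
        Fintype.card (Fin t → BV n)) = 2 ^ lenS n m i t a l q := by
      rw [← card_encS (n := n) (m := m) (i := i) (t := t) (a := a) (l := l) (q := q)]
      simp only [Fintype.card_prod]
      ring
    set CR := Fintype.card (BM a (t * n)) * Fintype.card (BM l (t * i + a)) *
      Fintype.card (Om q l (t * n)) * Fintype.card (Fin t → BV n) with hCR
    have hcj' : 2 ^ n * S.card * CR ≤ 16 * Fintype.card (Loc q l) * t *
        (univ.filter fun s : BV n × (BM i m × BM a (t * n) × BM l (t * i + a) ×
        Om q l (t * n) × (Fin t → BV n)) => P s.1 s.2).card := by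
      convert hcj
    have h5 : Fintype.card (BM i m) ≤ 512 * (n + 1) ^ 4 * (t * n + 1) * S.card := by
      convert h
    set NP := (univ.filter fun s : BV n × (BM i m × BM a (t * n) × BM l (t * i + a) ×
        Om q l (t * n) × (Fin t → BV n)) => P s.1 s.2).card with hNP
    have h6 : 2 ^ lenS n m i t a l q * (2 ^ n * 2 ^ R) ≤ 2 ^ lenS n m i t a l q *
        (512 * (n + 1) ^ 4 * (t * n + 1) * (16 * Fintype.card (Loc q l) * t) * NS) := by
      calc 2 ^ lenS n m i t a l q * (2 ^ n * 2 ^ R)
          = Fintype.card (BM i m) * (2 ^ n * CR * 2 ^ R) := by rw [← hc1]; ring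
        _ ≤ 512 * (n + 1) ^ 4 * (t * n + 1) * S.card * (2 ^ n * CR * 2 ^ R) :=
            Nat.mul_le_mul_right _ h5
        _ = 512 * (n + 1) ^ 4 * (t * n + 1) * (2 ^ n * S.card * CR) * 2 ^ R := by ring
        _ ≤ 512 * (n + 1) ^ 4 * (t * n + 1) * (16 * Fintype.card (Loc q l) * t * NP) * 2 ^ R :=
            Nat.mul_le_mul_right _ (Nat.mul_le_mul_left _ hcj')
        _ = 512 * (n + 1) ^ 4 * (t * n + 1) * (16 * Fintype.card (Loc q l) * t) * (NP * 2 ^ R) := by
            ring
        _ ≤ 512 * (n + 1) ^ 4 * (t * n + 1) * (16 * Fintype.card (Loc q l) * t) *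
            (2 ^ lenS n m i t a l q * NS) := Nat.mul_le_mul_left _ h2
        _ = _ := by ring
    have h7 := Nat.le_of_mul_le_mul_left h6 (by positivity)
    refine h7.trans (Nat.mul_le_mul_right _ (Nat.le_add_left _ _))

end Pool.Agent.Lib.MP_2b5695_lc.Owf
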