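import Pool.Agent.Lib.MP_2b5695_lc.Alg.Def

/-!
Inverting functions.
-/

namespace Pool.Agent.Lib.MP_2b5695_lc.Alg

open Classical in
/-- The functions `u ↦ f (z, u)` are inverted, relative to the oracle `A`: there are a randomized
polynomial time algorithm `E` and a polynomial `r` such that for every word `z` and every `n`, with
probability at least `1 / r(|z| + n)`, given `z`, `1^n`, the value `f (z, u)` for a random word `u`
of length `n`, and a random word of length `q(|z| + n)`, the algorithm finds a word `u'` of length
`n` with `f (z, u') = f (z, u)`. So `f` is not an auxiliary-input one-way function. -/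
def Inverted {ι : Ty} (A : Set ι.El) (f : List Bool × List Bool → List Bool) : Prop :=
  ∃ (q r : Polynomial ℕ) (E : List Bool × (List Bool × (List Bool × List Bool)) → List Bool),
    PF A (.prod .word (.prod .word (.prod .word .word))) .word E ∧ ∀ (z : List Bool) (n : ℕ),
      2 ^ n * 2 ^ q.eval (z.length + n) ≤ r.eval (z.length + n) *
        (Finset.univ.filter fun s : (Fin n → Bool) × (Fin (q.eval (z.length + n)) → Bool) =>
          (E (z, (List.replicate n true, (f (z, List.ofFn s.1), List.ofFn s.2)))).length = n ∧
          f (z, E (z, (List.replicate n true, (f (z, List.ofFn s.1), List.ofFn s.2)))) =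
            f (z, List.ofFn s.1)).card

end Pool.Agent.Lib.MP_2b5695_lc.Alg
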