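import Pool.Agent.Lib.MP_2b5695_lc.Owf.Count
import Pool.Agent.Lib.MP_2b5695_lc.Owf.InvDef

/-!
Inverting functions whose values have a length that depends only on the length of the argument.
-/

namespace Pool.Agent.Lib.MP_2b5695_lc.Owf

open Alg Finset

theorem poly_lt_pow (p : Polynomial ℕ) : ∃ N, ∀ n ≥ N, p.eval n < 2 ^ n := by
  have h1 : Filter.Tendsto (fun n : ℕ => ((p.map (Nat.castRingHom ℝ)).eval (n : ℝ)) /
      (2 : ℝ) ^ n) Filter.atTop (nhds 0) := by
    have h2 : ∀ q : Polynomial ℝ, Filter.Tendsto (fun n : ℕ => (q.eval (n : ℝ)) /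
        (2 : ℝ) ^ n) Filter.atTop (nhds 0) := by
      intro q
      induction q using Polynomial.induction_on' with
      | add p q hp hq =>
        have := hp.add hq
        simp only [add_zero] at this
        refine this.congr fun n => ?_
        rw [Polynomial.eval_add, add_div]
      | monomial k c =>
        have h3 := (tendsto_pow_const_div_const_pow_of_one_lt k (r := (2 : ℝ))
          (by norm_num)).const_mul c
        rw [mul_zero] at h3
        refine h3.congr fun n => ?_
        rw [Polynomial.eval_monomial]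
        ring
    exact h2 _
  have h2 := h1.eventually (gt_mem_nhds (show (0 : ℝ) < 1 by norm_num))
  obtain ⟨N, hN⟩ := Filter.eventually_atTop.1 h2
  refine ⟨N, fun n hn => ?_⟩
  have h3 := hN n hn
  have h4 : (p.map (Nat.castRingHom ℝ)).eval (n : ℝ) = ((p.eval n : ℕ) : ℝ) := by
    rw [Polynomial.eval_map, ← Nat.coe_castRingHom, Polynomial.eval₂_at_apply]
  rw [h4, div_lt_one (by positivity)] at h3
  exact_mod_cast h3

theorem size_wordsOf {a b : ℕ} (M : BM a b) :
    Ty.size (.list .word) (wordsOf M) = a * (2 * b + 1) := by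
  induction a with
  | zero =>
    rw [Nat.zero_mul]
    rfl
  | succ a ih =>
    have h1 := ih (fun j => M j.succ)
    rw [wordsOf] at h1 ⊢
    rw [List.ofFn_succ, size_cons, h1, size_word, List.length_ofFn]
    ring

theorem size_pads {a b c : ℕ} (M : Fin a → BM b c) :
    Ty.size (.list (.list .word)) (List.ofFn fun d => wordsOf (M d)) =
      a * (b * (2 * c + 1) + 1) := by
  induction a with
  | zero =>
    rw [Nat.zero_mul]
    rfl
  | succ a ih =>
    have h1 := ih (fun j => M j.succ)
    rw [List.ofFn_succ, size_cons, h1, size_wordsOf]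
    ring

variable {n m i t a l D S : ℕ} {aux : List Bool}

theorem size_keyOf (g : BM i m) (G : BM a (t * n)) (h : BM l (t * i + a))
    (π : Fin D → Fin S → BV (t * n)) :
    Ty.key.size (keyOf aux n t g G h π) = 2 * aux.length + 2 * n + 2 * t + ((i * (2 * m + 1) + a * (2 * (t * n) + 1)) +
      (l * (2 * (t * i + a) + 1) + D * (S * (2 * (t * n) + 1) + 1))) := by
  have h1 : Ty.size (.list (.list .word)) (keyOf aux n t g G h π).2.2.2 =
      D * (S * (2 * (t * n) + 1) + 1) := size_pads π
  rw [size_prod, size_prod, size_prod, size_prod, size_prod, size_prod, h1]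
  simp only [keyOf, size_wordsOf, size_word, List.length_replicate]

/-- the number of blocks -/
noncomputable def PT : Polynomial ℕ := 2 ^ 24 * (Polynomial.X + 1) ^ 8 * Polynomial.X

/-- the number of bits -/
noncomputable def PN : Polynomial ℕ := PT * Polynomial.X

/-- a bound for the size of the keys -/
noncomputable def PB (pm : Polynomial ℕ) : Polynomial ℕ :=
  2 * Polynomial.X + 2 * Polynomial.X + 2 * PT + ((Polynomial.X * (2 * pm + 1) + PN * (2 * PN + 1)) +
    (PN * (2 * (PN + PN) + 1) + (PN + 1) * (2 * PN * (2 * PN + 1) + 1)))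

/-- a bound for the number of random bits -/
noncomputable def PR (pm PQ : Polynomial ℕ) : Polynomial ℕ :=
  Polynomial.X + (Polynomial.X * pm + (PN * PN + (PN * (PN + PN) + ((PN + 1) * (2 * PN * PN) +
    (PQ * (2 * PN) + PN)))))

/-- the inverse of the probability -/
noncomputable def Pr (PQ : Polynomial ℕ) : Polynomial ℕ :=
  64 * (Polynomial.X + 1) ^ 2 + 512 * (Polynomial.X + 1) ^ 4 * (PN + 1) *
    (16 * (2 * PQ * (2 * PN)) * PT) + 1

variable {ι : Ty} {A : Set ι.El} {f : List Bool × List Bool → List Bool}

open Classical in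
/-- inverting functions whose values have a length that depends only on the length of the
argument -/
theorem inverted_fixed (hf : PF A (.prod .word .word) .word f)
    (hlen : ∀ z x y : List Bool, x.length = y.length → (f (z, x)).length = (f (z, y)).length)
    (hcomp : Computed A 0 (hashC (HH f) LL) hashρ) : Inverted A f := by
  obtain ⟨qf, E, hE, hqf, hfind⟩ := node_finder (pf_HH hf) pf_LL (fun k w u => length_HH k w u)
    hcomp
  obtain ⟨p, hp⟩ := hf.bound
  set pm : Polynomial ℕ := p.comp (2 * Polynomial.X) with hpm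
  set PQ : Polynomial ℕ := qf.comp (PB pm) with hPQ
  obtain ⟨c₀, hc₀⟩ := poly_lt_pow (32 * (2 * PQ * (2 * PN)) + 4 * PQ)
  set c : ℕ := c₀ + 1 with hc
  set T : Polynomial ℕ := PT.comp (Polynomial.X + Polynomial.C c) with hT
  set Q : Polynomial ℕ := PQ.comp (Polynomial.X + Polynomial.C c) with hQ
  refine ⟨(PR pm PQ).comp (Polynomial.X + Polynomial.C c),
    (Pr PQ).comp (Polynomial.X + Polynomial.C c), invE f E T Q, pf_invE hf hE T Q,
    fun aux n => ?_⟩
  set m : ℕ := (f (aux, List.replicate n true)).length with hm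
  set s : ℕ := aux.length + n + c with hs
  have hev : ∀ P : Polynomial ℕ,
      (P.comp (Polynomial.X + Polynomial.C c)).eval (aux.length + n) = P.eval s := by
    intro P
    simp [hs]
  rw [hev, hev]
  have hsc : c₀ + 1 ≤ s := by omega
  have hs1 : 1 ≤ s := by omega
  have hns : n ≤ s := by omega
  have has : aux.length ≤ s := by omega
  set t : ℕ := PT.eval s with ht
  set q : ℕ := PQ.eval s with hq
  have hTn : T.eval (aux.length + n) = t := hev PT
  have hQn : Q.eval (aux.length + n) = q := hev PQ
  have ht' : t = 2 ^ 24 * (s + 1) ^ 8 * s := by simp [ht, PT]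
  have hPN : PN.eval s = t * s := by simp [PN, ht]
  set N : ℕ := t * s with hN
  have hmm : m ≤ pm.eval s := by
    have h1 := hp (aux, List.replicate n true)
    rw [size_word, size_prod, size_word, size_word] at h1
    simp only [List.length_replicate] at h1
    have h2 : p.eval (2 * aux.length + 2 * n) ≤ p.eval (2 * s) := eval_mono _ (by omega)
    have h3 : pm.eval s = p.eval (2 * s) := by simp [hpm]
    rw [h3]
    omega
  have hlen' : ∀ x : BV n, (f (aux, List.ofFn x)).length = m := fun x =>
    hlen _ _ _ (by rw [List.length_ofFn, List.length_replicate])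
  have hfF : ∀ x : BV n, f (aux, List.ofFn x) = List.ofFn (toBV m (f (aux, List.ofFn x))) := fun x =>
    (ofFn_toBV (hlen' x)).symm
  have hPr1 : 1 ≤ (Pr PQ).eval s := by simp [Pr]
  rcases Nat.eq_zero_or_pos n with h0 | h0
  · -- the empty word
    have hall : ∀ z : BV n × BV ((PR pm PQ).eval s),
        (invE f E T Q (aux, (List.replicate n true, (f (aux, List.ofFn z.1),
          List.ofFn z.2)))).length = n ∧
        f (aux, invE f E T Q (aux, (List.replicate n true, (f (aux, List.ofFn z.1),
          List.ofFn z.2)))) = f (aux, List.ofFn z.1) := by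
      intro z
      have h1 := succ_guess (E := E) (T := T) (Q := Q) hfF (u := z.1) (u' := z.1) rfl
        (List.ofFn z.2)
      have h2 : List.ofFn z.1 = [] := by
        apply List.eq_nil_of_length_eq_zero
        rw [List.length_ofFn, h0]
      rw [Succ] at h1
      rw [h2, List.nil_append] at h1
      rw [h2]
      exact h1
    rw [Finset.filter_true_of_mem fun z _ => hall z, Finset.card_univ]
    have h1 : Fintype.card (BV n × BV ((PR pm PQ).eval s)) = 2 ^ n * 2 ^ (PR pm PQ).eval s := by
      simp
    rw [h1]
    exact Nat.le_mul_of_pos_left _ hPr1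
  · obtain ⟨l, hl⟩ : ∃ l, l + 1 = t * n := by
      refine ⟨t * n - 1, ?_⟩
      have : 0 < t * n := Nat.mul_pos (by rw [ht']; positivity) h0
      omega
    have htn : t * n ≤ N := Nat.mul_le_mul_left _ hns
    have hst : s + 1 ≤ t := by
      rw [ht']
      have h1 : 1 ≤ (s + 1) ^ 8 := Nat.one_le_pow _ _ (by omega)
      nlinarith
    have hsl : s ≤ l := by
      have : t * 1 ≤ t * n := Nat.mul_le_mul_left _ h0
      omega
    have hlN : l ≤ N := by omega
    have h2s : 32 * (2 * q * (2 * N)) + 4 * q < 2 ^ s := by
      have h1 := hc₀ s (by omega)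
      simp only [Polynomial.eval_add, Polynomial.eval_mul, Polynomial.eval_ofNat, hPN] at h1
      exact h1
    have hq0 : 0 < q := by
      rw [hq, hPQ, Polynomial.eval_comp]
      exact hqf _
    have h2sl : 2 ^ s ≤ 2 ^ l := Nat.pow_le_pow_right (by norm_num) hsl
    have hcard : Fintype.card (Loc q l) ≤ 2 * q * (2 * N) := by
      simp only [Fintype.card_prod, Fintype.card_fin]
      exact Nat.mul_le_mul (by omega) (by omega)
    have hexp : ((2 : ℝ) ^ s) ≤ Real.exp s := by
      rw [← Real.exp_one_pow]
      refine pow_le_pow_left₀ (by norm_num) ?_ _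
      have := Real.add_one_le_exp 1
      linarith
    have hL : 32 * (Fintype.card (Loc q l) : ℝ) ≤ Real.exp s := by
      refine le_trans ?_ hexp
      have h1 : 32 * Fintype.card (Loc q l) ≤ 2 ^ s := by omega
      exact_mod_cast h1
    have hts : 2 ^ 24 * (n + 1) ^ 8 * s ≤ t := by
      rw [ht']
      apply Nat.mul_le_mul_right
      apply Nat.mul_le_mul_left
      exact Nat.pow_le_pow_left (by omega) _
    have hti : ∀ i ≤ n, t * i ≤ N := fun i hi => Nat.mul_le_mul_left _ (by omega)
    have hR : ∀ i ≤ n, ∀ a ≤ t * n, lenS n m i t a l q ≤ (PR pm PQ).eval s := by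
      intro i hi a ha
      have h1 := hti i hi
      simp only [PR, lenS, Polynomial.eval_add, Polynomial.eval_mul, Polynomial.eval_X, hPN,
        Polynomial.eval_ofNat, Polynomial.eval_one]
      rw [← hq]
      have e1 : i * m ≤ s * pm.eval s := Nat.mul_le_mul (by omega) hmm
      have e2 : a * (t * n) ≤ N * N := Nat.mul_le_mul (by omega) htn
      have e3 : l * (t * i + a) ≤ N * (N + N) := Nat.mul_le_mul hlN (by omega)
      have e4 : (l + 1) * (2 * l * (t * n)) ≤ (N + 1) * (2 * N * N) :=
        Nat.mul_le_mul (by omega) (Nat.mul_le_mul (by omega) htn)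
      have e5 : q * (2 * l) ≤ q * (2 * N) := Nat.mul_le_mul_left _ (by omega)
      omega
    have hsz : ∀ i ≤ n, ∀ a ≤ t * n, ∀ (g : BM i m) (G : BM a (t * n)) (h : BM l (t * i + a))
        (π : Fin (l + 1) → Fin (2 * l) → BV (t * n)),
        Ty.key.size (keyOf aux n t g G h π) ≤ (PB pm).eval s := by
      intro i hi a ha g G h π
      have h1 := hti i hi
      rw [size_keyOf]
      simp only [PB, Polynomial.eval_add, Polynomial.eval_mul, Polynomial.eval_X, hPN,
        Polynomial.eval_ofNat, Polynomial.eval_one]
      rw [← ht]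
      have e1 : i * (2 * m + 1) ≤ s * (2 * pm.eval s + 1) := Nat.mul_le_mul (by omega) (by omega)
      have e2 : a * (2 * (t * n) + 1) ≤ N * (2 * N + 1) := Nat.mul_le_mul (by omega) (by omega)
      have e3 : l * (2 * (t * i + a) + 1) ≤ N * (2 * (N + N) + 1) :=
        Nat.mul_le_mul hlN (by omega)
      have e4 : 2 * l * (2 * (t * n) + 1) ≤ 2 * N * (2 * N + 1) :=
        Nat.mul_le_mul (by omega) (by omega)
      have e5 : (l + 1) * (2 * l * (2 * (t * n) + 1) + 1) ≤ (N + 1) * (2 * N * (2 * N + 1) + 1) :=
        Nat.mul_le_mul (by omega) (by omega)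
      omega
    have hcount := count_inv (R := (PR pm PQ).eval s) (E := E) h0 hfF hTn hQn hl (by omega) hq0
      (by omega) (by omega) s hs1 hts hL (by
        simp only [PR, Polynomial.eval_add, Polynomial.eval_X]
        omega) hR (by
        intro i hi a ha g G h π
        have hsize : qf.eval (Ty.key.size (keyOf aux n t g G h π)) ≤ q := by
          rw [hq, hPQ, Polynomial.eval_comp]
          exact eval_mono _ (hsz i hi a ha g G h π)
        have key : ∀ L' : ℕ, (LL (keyOf aux n t g G h π)).length = L' →
            (univ.filter fun r : Fin q → Fin (2 * L') → Bool => ¬ NodeCol (HH f) LL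
              (keyOf aux n t g G h π) (wordsOf r) (E (keyOf aux n t g G h π, wordsOf r))).card * 2 ^ L' ≤
            q * Fintype.card (Fin q → Fin (2 * L') → Bool) := by
          rintro _ rfl
          exact hfind _ _ hsize (by rw [length_LL]; omega)
        exact key l (length_LL g G h π))
    refine le_trans hcount ?_
    refine Nat.mul_le_mul ?_ (Finset.card_le_card fun z hz => ?_)
    · simp only [Pr, Polynomial.eval_add, Polynomial.eval_mul, Polynomial.eval_X, hPN,
        Polynomial.eval_ofNat, Polynomial.eval_one, Polynomial.eval_pow]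
      rw [← hq, ← ht]
      have e1 : (n + 1) ^ 2 ≤ (s + 1) ^ 2 := Nat.pow_le_pow_left (by omega) _
      have e2 : 512 * (n + 1) ^ 4 * (t * n + 1) * (16 * Fintype.card (Loc q l) * t) ≤
          512 * (s + 1) ^ 4 * (N + 1) * (16 * (2 * q * (2 * N)) * t) := by
        apply Nat.mul_le_mul
        · exact Nat.mul_le_mul (Nat.mul_le_mul_left _ (Nat.pow_le_pow_left (by omega) _))
            (by omega)
        · exact Nat.mul_le_mul_right _ (Nat.mul_le_mul_left _ hcard)
      omega
    · rw [Finset.mem_filter] at hz ⊢
      exact hz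

end Pool.Agent.Lib.MP_2b5695_lc.Owf
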