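import Pool.Agent.Lib.MP_2b5695_lc.Owf.GapDef

/-!
Inaccessible entropy: there is a gap for many `g`, unless `f` is easy to invert by guessing.
-/

namespace Pool.Agent.Lib.MP_2b5695_lc.Owf

open Finset

variable {n m : ℕ} (f : BV n → BV m)

theorem wt_pos (x : BV n) : 1 ≤ wt f (f x) :=
  Finset.card_pos.mpr ⟨x, by simp⟩

theorem wt_le (v : BV m) : wt f v ≤ 2 ^ n := by
  unfold wt
  calc _ ≤ (univ : Finset (BV n)).card := card_le_univ _
    _ = 2 ^ n := by simp

theorem cnt1 {a b : ℕ} {v v' : BV b} (h : v ≠ v') :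
    (∑ M : BM a b, (if mulF M v = mulF M v' then (1 : ℝ) else 0)) =
      Fintype.card (BM a b) / 2 ^ a := by
  classical
  have h1 := card_mulF_eq (a := a) h
  rw [Finset.sum_boole, eq_div_iff (by positivity), ← h1]
  push_cast
  congr

theorem cnt2 {a b : ℕ} {v v' v'' : BV b} (h : v ≠ v') (h' : v ≠ v'') (h'' : v' ≠ v'') :
    (∑ M : BM a b, (if mulF M v' = mulF M v then (1 : ℝ) else 0) *
      (if mulF M v'' = mulF M v then (1 : ℝ) else 0)) =
      Fintype.card (BM a b) / 2 ^ (2 * a) := by
  classical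
  have h1 := card_mulF_eq₂ (a := a) h h' h''
  rw [eq_div_iff (by positivity), ← h1]
  push_cast
  congr 1
  rw [← Finset.sum_boole]
  refine Finset.sum_congr rfl fun M _ => ?_
  by_cases h1 : mulF M v' = mulF M v <;> by_cases h2 : mulF M v'' = mulF M v <;> simp [h1, h2]

/-- the number of elements of `V` that collide with `u` -/
noncomputable def hitsF {a b : ℕ} (V : Finset (BV b)) (u : BV b) (M : BM a b) : ℝ :=
  ∑ v ∈ V, (if mulF M v = mulF M u then (1 : ℝ) else 0)

theorem sum_hitsF {a b : ℕ} (V : Finset (BV b)) (u : BV b) (hu : u ∉ V) :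
    ∑ M : BM a b, hitsF V u M = V.card * (Fintype.card (BM a b) / 2 ^ a) := by
  unfold hitsF
  rw [Finset.sum_comm]
  rw [Finset.sum_congr rfl fun v hv => cnt1 (a := a) (fun h => hu (h ▸ hv) : v ≠ u)]
  rw [Finset.sum_const, nsmul_eq_mul]

theorem sum_hitsF_sq {a b : ℕ} (V : Finset (BV b)) (u : BV b) (hu : u ∉ V) :
    ∑ M : BM a b, hitsF V u M ^ 2 ≤ V.card * (Fintype.card (BM a b) / 2 ^ a) +
      V.card ^ 2 * (Fintype.card (BM a b) / 2 ^ (2 * a)) := by
  classical
  have key : ∀ v ∈ V, ∑ M : BM a b, ∑ v' ∈ V, (if mulF M v = mulF M u then (1 : ℝ) else 0) *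
      (if mulF M v' = mulF M u then (1 : ℝ) else 0) ≤ Fintype.card (BM a b) / 2 ^ a +
      V.card * (Fintype.card (BM a b) / 2 ^ (2 * a)) := by
    intro v hv
    rw [Finset.sum_comm, ← Finset.add_sum_erase V _ hv]
    refine add_le_add ?_ ?_
    · rw [← cnt1 (a := a) (fun h => hu (h ▸ hv) : v ≠ u)]
      refine (Finset.sum_congr rfl fun M _ => ?_).le
      split_ifs <;> simp
    · calc _ = ∑ v' ∈ V.erase v, (Fintype.card (BM a b) : ℝ) / 2 ^ (2 * a) := by
            refine Finset.sum_congr rfl fun v' hv' => ?_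
            rw [Finset.mem_erase] at hv'
            exact cnt2 (fun h => hu (h ▸ hv)) (fun h => hu (h ▸ hv'.2)) hv'.1.symm
        _ = (V.erase v).card * ((Fintype.card (BM a b) : ℝ) / 2 ^ (2 * a)) := by
            rw [Finset.sum_const, nsmul_eq_mul]
        _ ≤ _ := by
            refine mul_le_mul_of_nonneg_right ?_ (by positivity)
            exact_mod_cast Finset.card_erase_le
  calc ∑ M : BM a b, hitsF V u M ^ 2 = ∑ v ∈ V, ∑ M : BM a b, ∑ v' ∈ V,
        (if mulF M v = mulF M u then (1 : ℝ) else 0) *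
        (if mulF M v' = mulF M u then (1 : ℝ) else 0) := by
        rw [Finset.sum_comm]
        refine Finset.sum_congr rfl fun M _ => ?_
        unfold hitsF
        rw [pow_two, Finset.sum_mul_sum]
    _ ≤ ∑ v ∈ V, ((Fintype.card (BM a b) : ℝ) / 2 ^ a +
          V.card * (Fintype.card (BM a b) / 2 ^ (2 * a))) := Finset.sum_le_sum key
    _ = _ := by rw [Finset.sum_const, nsmul_eq_mul]; ring

open Classical in
theorem hit_count {a b : ℕ} (V : Finset (BV b)) (u : BV b) (hu : u ∉ V) :
    (V.card / 2 ^ a : ℝ) * Fintype.card (BM a b) ≤ (1 + V.card / 2 ^ a) *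
      (univ.filter fun M : BM a b => ∃ v ∈ V, mulF M v = mulF M u).card := by
  set N : ℝ := (Fintype.card (BM a b) : ℝ) with hN
  have hNpos : 0 < N := by
    rw [hN]; exact_mod_cast Fintype.card_pos
  set θ : ℝ := V.card / 2 ^ a with hθ
  have hθ0 : 0 ≤ θ := by rw [hθ]; positivity
  rcases hθ0.eq_or_lt with h0 | hpos
  · rw [← h0]; simp
  set H := univ.filter fun M : BM a b => ∃ v ∈ V, mulF M v = mulF M u with hH
  have h1 := sum_hitsF (a := a) V u hu
  have h2 := sum_hitsF_sq (a := a) V u hu
  rw [← hN] at h1 h2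
  have e1 : (V.card : ℝ) * (N / 2 ^ a) = θ * N := by rw [hθ]; ring
  have e2 : (V.card : ℝ) ^ 2 * (N / 2 ^ (2 * a)) = θ ^ 2 * N := by
    rw [hθ, div_pow, ← pow_mul, mul_comm a 2]; ring
  rw [e1] at h1 h2
  rw [e2] at h2
  have h3 : (∑ M : BM a b, hitsF V u M) = ∑ M ∈ H, 1 * hitsF V u M := by
    simp only [one_mul]
    symm
    refine Finset.sum_subset (Finset.subset_univ _) fun M _ hM => ?_
    unfold hitsF
    refine Finset.sum_eq_zero fun v hv => ?_
    rw [if_neg]
    intro h
    exact hM (by rw [hH, Finset.mem_filter]; exact ⟨Finset.mem_univ _, v, hv, h⟩)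
  have h4 : (∑ M ∈ H, 1 * hitsF V u M) ^ 2 ≤ (∑ M ∈ H, (1 : ℝ) ^ 2) * ∑ M ∈ H, hitsF V u M ^ 2 :=
    Finset.sum_mul_sq_le_sq_mul_sq H _ _
  have h5 : ∑ M ∈ H, hitsF V u M ^ 2 ≤ ∑ M : BM a b, hitsF V u M ^ 2 :=
    Finset.sum_le_sum_of_subset_of_nonneg (Finset.subset_univ _) fun _ _ _ => sq_nonneg _
  have h6 : (∑ M ∈ H, (1 : ℝ) ^ 2) = H.card := by simp
  rw [← h3, h1, h6] at h4
  have h7 : (θ * N) ^ 2 ≤ H.card * (θ * N + θ ^ 2 * N) :=
    h4.trans (mul_le_mul_of_nonneg_left (h5.trans h2) (by positivity))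
  have h8 : (θ * N) * (θ * N) ≤ (θ * N) * ((1 + θ) * H.card) := by nlinarith
  exact le_of_mul_le_mul_left h8 (by positivity)

theorem acc_sum (i : ℕ) (x : BV n) :
    ∑ g : BM i m, ((accS f g x).card : ℝ) ≤
      (wt f (f x) + 2 ^ n / 2 ^ i) * Fintype.card (BM i m) := by
  classical
  have h1 : ∀ g : BM i m, ((accS f g x).card : ℝ) ≤ wt f (f x) +
      ∑ x' ∈ univ.filter (fun x' : BV n => f x' ≠ f x),
        (if mulF g (f x') = mulF g (f x) then (1 : ℝ) else 0) := by
    intro g
    have h2 : accS f g x ⊆ (univ.filter fun x' : BV n => f x' = f x) ∪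
        ((univ.filter (fun x' : BV n => f x' ≠ f x)).filter
          fun x' => mulF g (f x') = mulF g (f x)) := by
      intro x' hx'
      unfold accS realS at hx'
      simp only [Finset.mem_filter, Finset.mem_univ, true_and] at hx'
      simp only [Finset.mem_union, Finset.mem_filter, Finset.mem_univ, true_and]
      by_cases h : f x' = f x
      · exact Or.inl h
      · exact Or.inr ⟨h, hx'.1⟩
    have h3 := (Finset.card_le_card h2).trans (Finset.card_union_le _ _)
    rw [Finset.sum_boole]
    unfold wt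
    exact_mod_cast h3
  calc _ ≤ ∑ g : BM i m, ((wt f (f x) : ℝ) +
      ∑ x' ∈ univ.filter (fun x' : BV n => f x' ≠ f x),
        (if mulF g (f x') = mulF g (f x) then (1 : ℝ) else 0)) :=
        Finset.sum_le_sum fun g _ => h1 g
    _ = Fintype.card (BM i m) * (wt f (f x) : ℝ) +
        ∑ x' ∈ univ.filter (fun x' : BV n => f x' ≠ f x), (Fintype.card (BM i m) : ℝ) / 2 ^ i := by
        rw [Finset.sum_add_distrib, Finset.sum_comm]
        congr 1
        · rw [Finset.sum_const, nsmul_eq_mul, Finset.card_univ]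
        · refine Finset.sum_congr rfl fun x' hx' => ?_
          rw [Finset.mem_filter] at hx'
          exact cnt1 hx'.2
    _ ≤ Fintype.card (BM i m) * (wt f (f x) : ℝ) +
        ∑ x' : BV n, (Fintype.card (BM i m) : ℝ) / 2 ^ i := by
        refine add_le_add le_rfl ?_
        exact Finset.sum_le_sum_of_subset_of_nonneg (Finset.subset_univ _)
          fun _ _ _ => by positivity
    _ = _ := by
        rw [Finset.sum_const, nsmul_eq_mul, Finset.card_univ]
        have : (Fintype.card (BV n) : ℝ) = 2 ^ n := by simp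
        rw [this]
        ring

/-- a class of inputs with preimages of about the same size -/
theorem exists_class : ∃ s, 2 ≤ s ∧ ∃ C : Finset (BV n), (2 : ℝ) ^ n ≤ (n + 1) * C.card ∧
    ∀ x ∈ C, 4 * wt f (f x) ≤ 2 ^ s ∧ 2 ^ s < 8 * wt f (f x) := by
  classical
  have hmaps : ∀ x ∈ (univ : Finset (BV n)), Nat.clog 2 (4 * wt f (f x)) ∈ Finset.Icc 2 (n + 2) := by
    intro x _
    have h1 := wt_pos f x
    have h2 := wt_le f (f x)
    rw [Finset.mem_Icc]
    constructor
    · by_contra hc
      push Not at hc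
      have h3 : 4 * wt f (f x) ≤ 2 ^ (Nat.clog 2 (4 * wt f (f x))) := Nat.le_pow_clog (by norm_num) _
      have h4 : 2 ^ (Nat.clog 2 (4 * wt f (f x))) ≤ 2 ^ 1 :=
        Nat.pow_le_pow_right (by norm_num) (by omega)
      omega
    · refine Nat.clog_le_of_le_pow ?_
      rw [pow_add]; omega
  obtain ⟨s, hs, hcard⟩ := Finset.exists_le_card_fiber_of_nsmul_le_card_of_maps_to
    (M := ℝ) (b := (2 : ℝ) ^ n / (n + 1)) hmaps ⟨2, by simp⟩ (by
      rw [nsmul_eq_mul, Nat.card_Icc, Finset.card_univ]
      have : (Fintype.card (BV n) : ℝ) = 2 ^ n := by simp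
      rw [this]
      have h2 : ((n + 2 + 1 - 2 : ℕ) : ℝ) = n + 1 := by
        have : n + 2 + 1 - 2 = n + 1 := by omega
        rw [this]; push_cast; ring
      rw [h2]
      rw [mul_div_cancel₀]
      positivity)
  rw [Finset.mem_Icc] at hs
  refine ⟨s, hs.1, univ.filter fun x => Nat.clog 2 (4 * wt f (f x)) = s, ?_, fun x hx => ?_⟩
  rotate_left
  · rw [Finset.mem_filter] at hx
    have h1 := wt_pos f x
    constructor
    · rw [← hx.2]; exact Nat.le_pow_clog (by norm_num) _
    · have h2 := Nat.pow_pred_clog_lt_self (b := 2) (by norm_num) (x := 4 * wt f (f x)) (by omega)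
      rw [hx.2] at h2
      have h3 : 2 ^ s = 2 * 2 ^ s.pred := by
        conv_lhs => rw [← Nat.succ_pred_eq_of_pos (show 0 < s by omega)]
        rw [pow_succ]; ring
      rw [h3]; omega
  · rw [div_le_iff₀ (by positivity)] at hcard
    rw [mul_comm]
    exact hcard

theorem accS_subset {i : ℕ} (g : BM i m) (x : BV n) : accS f g x ⊆ realS f g x :=
  Finset.filter_subset _ _

theorem self_mem_accS {i : ℕ} (g : BM i m) (x : BV n) : x ∈ accS f g x := by
  unfold accS realS; simp

/-- the contribution of `x` to the gap -/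
noncomputable def gapX {i : ℕ} (g : BM i m) (x : BV n) : ℝ :=
  Real.log (realS f g x).card - Real.log (accS f g x).card

theorem one_le_accS {i : ℕ} (g : BM i m) (x : BV n) : (1 : ℝ) ≤ (accS f g x).card := by
  exact_mod_cast Finset.card_pos.mpr ⟨x, self_mem_accS f g x⟩

theorem gapX_nonneg {i : ℕ} (g : BM i m) (x : BV n) : 0 ≤ gapX f g x := by
  unfold gapX
  rw [sub_nonneg]
  refine Real.log_le_log (by linarith [one_le_accS f g x]) ?_
  exact_mod_cast Finset.card_le_card (accS_subset f g x)

theorem gapX_le {i : ℕ} (g : BM i m) (x : BV n) : gapX f g x ≤ n := by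
  unfold gapX
  have h1 : 0 ≤ Real.log (accS f g x).card := Real.log_nonneg (one_le_accS f g x)
  have h2 : ((realS f g x).card : ℝ) ≤ 2 ^ n := by
    have : (realS f g x).card ≤ 2 ^ n := by
      calc _ ≤ (univ : Finset (BV n)).card := card_le_univ _
        _ = 2 ^ n := by simp
    exact_mod_cast this
  have h3 : (0 : ℝ) < (realS f g x).card := by
    have := (one_le_accS f g x).trans
      (by exact_mod_cast Finset.card_le_card (accS_subset f g x) :
        ((accS f g x).card : ℝ) ≤ (realS f g x).card)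
    linarith
  have h4 : Real.log (realS f g x).card ≤ n * Real.log 2 := by
    rw [← Real.log_pow]
    exact Real.log_le_log h3 h2
  have h5 : Real.log 2 ≤ 1 := by
    have := Real.log_two_lt_d9; linarith
  have h6 : (n : ℝ) * Real.log 2 ≤ n * 1 := mul_le_mul_of_nonneg_left h5 (by positivity)
  linarith

theorem gapX_ge {i s : ℕ} (his : n - i = s) (g : BM i m) (x : BV n)
    (V : Finset (BV m)) (hV : ∀ v ∈ V, v ≠ f x ∧ 2 ^ s < 8 * wt f v)
    (hg : ∃ v ∈ V, mulF g v = mulF g (f x))
    (hacc : ((accS f g x).card : ℝ) ≤ 4 * (n + 1) * 2 ^ s) :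
    1 / (64 * ((n : ℝ) + 1)) ≤ gapX f g x := by
  classical
  obtain ⟨v, hv, hgv⟩ := hg
  obtain ⟨hvx, hvw⟩ := hV v hv
  have h1 : (accS f g x).card + wt f v ≤ (realS f g x).card := by
    unfold wt
    rw [← Finset.card_union_of_disjoint]
    · refine Finset.card_le_card (Finset.union_subset (accS_subset f g x) ?_)
      intro x' hx'
      rw [Finset.mem_filter] at hx'
      unfold realS
      simp only [Finset.mem_filter, Finset.mem_univ, true_and]
      rw [hx'.2]; exact hgv
    · rw [Finset.disjoint_left]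
      intro x' hx' hx''
      unfold accS at hx'
      rw [Finset.mem_filter] at hx' hx''
      rw [hx''.2, his] at hx'
      rcases hx'.2 with h | h
      · exact hvx h
      · omega
  have hA := one_le_accS f g x
  have h2 : ((accS f g x).card : ℝ) + 2 ^ s / 8 ≤ (realS f g x).card := by
    have h3 : ((accS f g x).card : ℝ) + wt f v ≤ (realS f g x).card := by exact_mod_cast h1
    have h4 : (2 : ℝ) ^ s < 8 * wt f v := by exact_mod_cast hvw
    linarith
  unfold gapX
  set A : ℝ := ((accS f g x).card : ℝ) with hAdef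
  set R : ℝ := ((realS f g x).card : ℝ) with hRdef
  have hn : (0 : ℝ) < n + 1 := by positivity
  have hApos : 0 < A := by linarith
  have h5 : (1 + 1 / (32 * ((n : ℝ) + 1))) * A ≤ R := by
    refine le_trans ?_ h2
    have : 1 / (32 * ((n : ℝ) + 1)) * A ≤ 2 ^ s / 8 := by
      rw [one_div, inv_mul_le_iff₀ (by positivity)]
      calc A ≤ 4 * (n + 1) * 2 ^ s := hacc
        _ = _ := by ring
    linarith
  have h6 : Real.log (1 + 1 / (32 * ((n : ℝ) + 1))) + Real.log A ≤ Real.log R := by
    rw [← Real.log_mul (by positivity) (by positivity)]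
    exact Real.log_le_log (by positivity) h5
  have h7 : 1 / (64 * ((n : ℝ) + 1)) ≤ Real.log (1 + 1 / (32 * ((n : ℝ) + 1))) := by
    have h8 := Real.one_sub_inv_le_log_of_pos (x := 1 + 1 / (32 * ((n : ℝ) + 1))) (by positivity)
    refine le_trans ?_ h8
    have h9 : 1 + 1 / (32 * ((n : ℝ) + 1)) = (32 * (n + 1) + 1) / (32 * ((n : ℝ) + 1)) := by
      field_simp
    rw [h9, inv_div, one_sub_div (by positivity), div_le_div_iff₀ (by positivity) (by positivity)]
    nlinarith [hn]
  linarith

open Classical in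
/-- either guessing a preimage is successful, or there is a length `i` such that many `g` have a
gap -/
theorem exists_gap (n m : ℕ) (f : BV n → BV m) :
    (2 ^ n * 2 ^ n ≤ 64 * (n + 1) ^ 2 * (univ.filter fun s : BV n × BV n => f s.1 = f s.2).card) ∨
    ∃ i ≤ n, Fintype.card (BM i m) ≤ 512 * (n + 1) ^ 4 *
      (univ.filter fun g : BM i m => 1 / (256 * ((n : ℝ) + 1) ^ 3) ≤ gapF f g).card := by
  obtain ⟨s, hs2, C, hC, hCs⟩ := exists_class f
  have hn : (0 : ℝ) < (n : ℝ) + 1 := by positivity
  by_cases hcase : 2 ^ n ≤ 8 * (n + 1) * 2 ^ s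
  · left
    have h1 : (univ.filter fun s : BV n × BV n => f s.1 = f s.2).card = ∑ x : BV n, wt f (f x) := by
      rw [Finset.card_filter, Fintype.sum_prod_type]
      refine Finset.sum_congr rfl fun x _ => ?_
      unfold wt
      rw [Finset.card_filter]
      refine Finset.sum_congr rfl fun x' _ => ?_
      by_cases h : f x = f x'
      · simp [h]
      · rw [if_neg h, if_neg (fun h' => h h'.symm)]
    rw [h1]
    have h2 : ∑ x ∈ C, 2 ^ s ≤ ∑ x ∈ C, 8 * wt f (f x) :=
      Finset.sum_le_sum fun x hx => (hCs x hx).2.le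
    have h3 : ∑ x ∈ C, 8 * wt f (f x) ≤ 8 * ∑ x : BV n, wt f (f x) :=
      (Finset.sum_le_sum_of_subset (Finset.subset_univ _)).trans_eq (Finset.mul_sum _ _ _).symm
    rw [Finset.sum_const, smul_eq_mul] at h2
    have h4 : C.card * 2 ^ s ≤ 8 * ∑ x : BV n, wt f (f x) := h2.trans h3
    have hC' : 2 ^ n ≤ (n + 1) * C.card := by exact_mod_cast hC
    calc 2 ^ n * 2 ^ n ≤ ((n + 1) * C.card) * (8 * (n + 1) * 2 ^ s) := Nat.mul_le_mul hC' hcase
      _ = 8 * (n + 1) ^ 2 * (C.card * 2 ^ s) := by ring
      _ ≤ 8 * (n + 1) ^ 2 * (8 * ∑ x : BV n, wt f (f x)) := Nat.mul_le_mul_left _ h4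
      _ = _ := by ring
  · right
    push Not at hcase
    have hsn : s < n := by
      refine (Nat.pow_lt_pow_iff_right (by norm_num : 1 < 2)).1 (lt_of_le_of_lt ?_ hcase)
      exact Nat.le_mul_of_pos_left _ (by positivity)
    refine ⟨n - s, Nat.sub_le _ _, ?_⟩
    set i := n - s with hi
    have his : n - i = s := by omega
    have hpow : (2 : ℝ) ^ n = 2 ^ i * 2 ^ s := by
      rw [← pow_add]; congr 1; omega
    have h2i : 8 * ((n : ℝ) + 1) < 2 ^ i := by
      have h1 : 8 * ((n : ℝ) + 1) * 2 ^ s < 2 ^ n := by exact_mod_cast hcase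
      rw [hpow] at h1
      exact lt_of_mul_lt_mul_right h1 (by positivity)
    set N : ℝ := (Fintype.card (BM i m) : ℝ) with hN
    have hNpos : 0 < N := by
      rw [hN]; exact_mod_cast Fintype.card_pos
    -- many images
    have himg : (C.card : ℝ) ≤ 2 ^ s / 4 * (C.image f).card := by
      have h1 : C.card ≤ 2 ^ (s - 2) * (C.image f).card := by
        refine Finset.card_le_mul_card_image C _ ?_
        intro v hv
        rw [Finset.mem_image] at hv
        obtain ⟨x, hx, rfl⟩ := hv
        have h2 : (C.filter fun x' => f x' = f x).card ≤ wt f (f x) := by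
          unfold wt
          exact Finset.card_le_card (Finset.filter_subset_filter _ (Finset.subset_univ _))
        have h3 := (hCs x hx).1
        have h4 : 2 ^ s = 2 ^ (s - 2) * 4 := by
          conv_lhs => rw [← Nat.sub_add_cancel hs2]
          rw [pow_add]; norm_num
        omega
      have h4 : (2 : ℝ) ^ s / 4 = 2 ^ (s - 2) := by
        conv_lhs => rw [← Nat.sub_add_cancel hs2]
        rw [pow_add]; norm_num
      rw [h4]; exact_mod_cast h1
    -- the good maps for an input of the class
    have hgood : ∀ x ∈ C, N / (2 * (n + 1)) ≤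
        (univ.filter fun g : BM i m => 1 / (64 * ((n : ℝ) + 1)) ≤ gapX f g x).card := by
      intro x hx
      set V := (C.image f).erase (f x) with hV
      have hfx : f x ∉ V := Finset.notMem_erase _ _
      have hVs : ∀ v ∈ V, v ≠ f x ∧ 2 ^ s < 8 * wt f v := by
        intro v hv
        rw [hV, Finset.mem_erase, Finset.mem_image] at hv
        obtain ⟨hne, x', hx', rfl⟩ := hv
        exact ⟨hne, (hCs x' hx').2⟩
      have hVcard : (V.card : ℝ) = (C.image f).card - 1 := by
        rw [hV, Finset.card_erase_of_mem (Finset.mem_image_of_mem f hx), Nat.cast_sub, Nat.cast_one]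
        exact Finset.card_pos.mpr ⟨f x, Finset.mem_image_of_mem f hx⟩
      set θ : ℝ := V.card / 2 ^ i with hθ
      have hθ3 : 3 / ((n : ℝ) + 1) ≤ θ := by
        rw [hθ, div_le_div_iff₀ hn (by positivity), hVcard]
        have h1 : (2 : ℝ) ^ i * 2 ^ s ≤ (n + 1) * (2 ^ s / 4 * (C.image f).card) := by
          rw [← hpow]
          exact hC.trans (mul_le_mul_of_nonneg_left himg hn.le)
        have h2 : (4 : ℝ) * 2 ^ i ≤ (n + 1) * (C.image f).card := by
          have h3 : (2 : ℝ) ^ s * (4 * 2 ^ i) ≤ 2 ^ s * ((n + 1) * (C.image f).card) := by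
            nlinarith
          exact le_of_mul_le_mul_left h3 (by positivity)
        nlinarith
      have hhit := hit_count (a := i) V (f x) hfx
      rw [← hθ, ← hN] at hhit
      set H := univ.filter fun M : BM i m => ∃ v ∈ V, mulF M v = mulF M (f x) with hH
      have hHN : N / (n + 1) ≤ H.card := by
        have hθ0 : 0 < θ := lt_of_lt_of_le (by positivity) hθ3
        have hn1 : (1 : ℝ) ≤ n := by
          have : 1 ≤ n := by omega
          exact_mod_cast this
        have h1 : 1 / ((n : ℝ) + 1) ≤ θ / (1 + θ) := by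
          rw [div_le_div_iff₀ hn (by positivity)]
          rw [div_le_iff₀ hn] at hθ3
          nlinarith
        have h2 : θ / (1 + θ) * N ≤ H.card := by
          rw [div_mul_eq_mul_div, div_le_iff₀ (by positivity)]
          linarith
        calc N / (n + 1) = 1 / ((n : ℝ) + 1) * N := by ring
          _ ≤ θ / (1 + θ) * N := mul_le_mul_of_nonneg_right h1 hNpos.le
          _ ≤ _ := h2
      set B := univ.filter fun M : BM i m => 4 * ((n : ℝ) + 1) * 2 ^ s < (accS f M x).card with hB
      have hBN : (B.card : ℝ) ≤ N / (2 * (n + 1)) := by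
        have h1 := acc_sum f i x
        rw [← hN] at h1
        have h2 : (B.card : ℝ) * (4 * (n + 1) * 2 ^ s) ≤ ∑ g : BM i m, ((accS f g x).card : ℝ) := by
          calc _ = ∑ g ∈ B, (4 * ((n : ℝ) + 1) * 2 ^ s) := by rw [Finset.sum_const, nsmul_eq_mul]
            _ ≤ ∑ g ∈ B, ((accS f g x).card : ℝ) := by
                refine Finset.sum_le_sum fun g hg => ?_
                rw [hB, Finset.mem_filter] at hg
                exact hg.2.le
            _ ≤ _ := Finset.sum_le_sum_of_subset_of_nonneg (Finset.subset_univ _)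
                  fun _ _ _ => by positivity
        have h3 : (wt f (f x) : ℝ) ≤ 2 ^ s / 4 := by
          have : 4 * (wt f (f x) : ℝ) ≤ 2 ^ s := by exact_mod_cast (hCs x hx).1
          linarith
        have h4 : (2 : ℝ) ^ n / 2 ^ i = 2 ^ s := by
          rw [hpow]; field_simp
        rw [h4] at h1
        have h5 : ((wt f (f x) : ℝ) + 2 ^ s) * N ≤ 2 * 2 ^ s * N := by
          refine mul_le_mul_of_nonneg_right ?_ hNpos.le
          have : (0 : ℝ) < 2 ^ s := by positivity
          linarith
        have h6 : (B.card : ℝ) * (4 * (n + 1) * 2 ^ s) ≤ 2 * 2 ^ s * N := h2.trans (h1.trans h5)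
        rw [le_div_iff₀ (by positivity)]
        have h7 : (2 * (2 : ℝ) ^ s) * (B.card * (2 * (n + 1))) ≤ (2 * 2 ^ s) * N := by
          nlinarith
        exact le_of_mul_le_mul_left h7 (by positivity)
      have hsub : H \ B ⊆ univ.filter fun g : BM i m => 1 / (64 * ((n : ℝ) + 1)) ≤ gapX f g x := by
        intro g hg
        rw [Finset.mem_sdiff, hH, hB, Finset.mem_filter, Finset.mem_filter] at hg
        rw [Finset.mem_filter]
        refine ⟨Finset.mem_univ _, ?_⟩
        refine gapX_ge f his g x V hVs hg.1.2 ?_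
        by_contra hc
        push Not at hc
        exact hg.2 ⟨Finset.mem_univ _, hc⟩
      have h1 : (H.card : ℝ) - B.card ≤ (H \ B).card := by
        have := Finset.le_card_sdiff B H
        have h2 : H.card ≤ (H \ B).card + B.card := by omega
        have h3 : (H.card : ℝ) ≤ (H \ B).card + B.card := by exact_mod_cast h2
        linarith
      have h2 : ((H \ B).card : ℝ) ≤
          (univ.filter fun g : BM i m => 1 / (64 * ((n : ℝ) + 1)) ≤ gapX f g x).card := by
        exact_mod_cast Finset.card_le_card hsub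
      have h3 : N / (n + 1) = N / (2 * (n + 1)) + N / (2 * (n + 1)) := by field_simp; norm_num
      linarith
    -- average
    have hsum : 2 ^ n * (N / (128 * ((n : ℝ) + 1) ^ 3)) ≤ ∑ g : BM i m, ∑ x : BV n, gapX f g x := by
      rw [Finset.sum_comm]
      have h1 : ∀ x ∈ C, N / (2 * (n + 1)) * (1 / (64 * ((n : ℝ) + 1))) ≤
          ∑ g : BM i m, gapX f g x := by
        intro x hx
        calc _ ≤ ((univ.filter fun g : BM i m => 1 / (64 * ((n : ℝ) + 1)) ≤ gapX f g x).card : ℝ) *
              (1 / (64 * ((n : ℝ) + 1))) :=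
              mul_le_mul_of_nonneg_right (hgood x hx) (by positivity)
          _ = ∑ g ∈ univ.filter (fun g : BM i m => 1 / (64 * ((n : ℝ) + 1)) ≤ gapX f g x),
              (1 / (64 * ((n : ℝ) + 1))) := by rw [Finset.sum_const, nsmul_eq_mul]
          _ ≤ ∑ g ∈ univ.filter (fun g : BM i m => 1 / (64 * ((n : ℝ) + 1)) ≤ gapX f g x),
              gapX f g x := Finset.sum_le_sum fun g hg => (Finset.mem_filter.1 hg).2
          _ ≤ _ := Finset.sum_le_sum_of_subset_of_nonneg (Finset.subset_univ _)
                fun _ _ _ => gapX_nonneg _ _ _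
      calc _ ≤ (C.card : ℝ) * (N / (2 * (n + 1)) * (1 / (64 * ((n : ℝ) + 1)))) := by
            have h2 : (2 : ℝ) ^ n * (N / (128 * ((n : ℝ) + 1) ^ 3)) ≤
                ((n + 1) * C.card) * (N / (128 * ((n : ℝ) + 1) ^ 3)) :=
              mul_le_mul_of_nonneg_right hC (by positivity)
            refine h2.trans (le_of_eq ?_)
            field_simp
            ring
        _ = ∑ x ∈ C, (N / (2 * (n + 1)) * (1 / (64 * ((n : ℝ) + 1)))) := by
            rw [Finset.sum_const, nsmul_eq_mul]
        _ ≤ ∑ x ∈ C, ∑ g : BM i m, gapX f g x := Finset.sum_le_sum h1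
        _ ≤ _ := Finset.sum_le_sum_of_subset_of_nonneg (Finset.subset_univ _)
              fun _ _ _ => Finset.sum_nonneg fun _ _ => gapX_nonneg _ _ _
    have hgapF : ∀ g : BM i m, gapF f g = (∑ x : BV n, gapX f g x) / 2 ^ n := fun g => rfl
    have havg : N / (128 * ((n : ℝ) + 1) ^ 3) ≤ ∑ g : BM i m, gapF f g := by
      simp_rw [hgapF]
      rw [← Finset.sum_div, le_div_iff₀ (by positivity), mul_comm]
      exact hsum
    have hgle : ∀ g : BM i m, gapF f g ≤ n := by
      intro g
      rw [hgapF, div_le_iff₀ (by positivity)]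
      calc _ ≤ ∑ x : BV n, (n : ℝ) := Finset.sum_le_sum fun x _ => gapX_le f g x
        _ = _ := by
          rw [Finset.sum_const, nsmul_eq_mul, Finset.card_univ]
          have : (Fintype.card (BV n) : ℝ) = 2 ^ n := by simp
          rw [this]; ring
    set G := univ.filter fun g : BM i m => 1 / (256 * ((n : ℝ) + 1) ^ 3) ≤ gapF f g with hG
    have hbound : ∑ g : BM i m, gapF f g ≤ G.card * n + N * (1 / (256 * ((n : ℝ) + 1) ^ 3)) := by
      calc ∑ g : BM i m, gapF f g ≤ ∑ g : BM i m, ((if g ∈ G then (n : ℝ) else 0) +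
            1 / (256 * ((n : ℝ) + 1) ^ 3)) := by
            refine Finset.sum_le_sum fun g _ => ?_
            by_cases hg : g ∈ G
            · rw [if_pos hg]
              have : 0 ≤ 1 / (256 * ((n : ℝ) + 1) ^ 3) := by positivity
              linarith [hgle g]
            · rw [if_neg hg, zero_add]
              by_contra hc
              push Not at hc
              exact hg (by rw [hG, Finset.mem_filter]; exact ⟨Finset.mem_univ _, hc.le⟩)
        _ = _ := by
            rw [Finset.sum_add_distrib, Finset.sum_const, nsmul_eq_mul, Finset.card_univ, ← hN,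
              Finset.sum_ite_mem, Finset.univ_inter, Finset.sum_const, nsmul_eq_mul]
    have h1 : N / (256 * ((n : ℝ) + 1) ^ 3) ≤ G.card * (n + 1) := by
      have h2 : N / (128 * ((n : ℝ) + 1) ^ 3) = N / (256 * ((n : ℝ) + 1) ^ 3) +
          N * (1 / (256 * ((n : ℝ) + 1) ^ 3)) := by field_simp; norm_num
      have h3 : (G.card : ℝ) * n ≤ G.card * (n + 1) :=
        mul_le_mul_of_nonneg_left (by linarith) (by positivity)
      linarith
    rw [div_le_iff₀ (by positivity)] at h1
    have h2 : N ≤ 512 * ((n : ℝ) + 1) ^ 4 * G.card := by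
      calc N ≤ G.card * (n + 1) * (256 * ((n : ℝ) + 1) ^ 3) := h1
        _ = 256 * ((n : ℝ) + 1) ^ 4 * G.card := by ring
        _ ≤ _ := by
          refine mul_le_mul_of_nonneg_right ?_ (by positivity)
          have : (0 : ℝ) ≤ ((n : ℝ) + 1) ^ 4 := by positivity
          linarith
    rw [hN] at h2
    exact_mod_cast h2

end Pool.Agent.Lib.MP_2b5695_lc.Owf
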