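import Pool.Agent.Lib.MP_2b5695_lc.Owf.Lin

/-!
Inaccessible entropy: definitions.
-/

namespace Pool.Agent.Lib.MP_2b5695_lc.Owf

open Finset

variable {n m : ℕ} (f : BV n → BV m)

/-- the number of preimages of a value -/
def wt (v : BV m) : ℕ := (univ.filter fun x : BV n => f x = v).card

/-- the inputs that are consistent with `g (f x)` -/
def realS {i : ℕ} (g : BM i m) (x : BV n) : Finset (BV n) :=
  univ.filter fun x' => mulF g (f x') = mulF g (f x)

/-- the accessible consistent inputs: those with the same value, and those with few preimages of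
their value -/
def accS {i : ℕ} (g : BM i m) (x : BV n) : Finset (BV n) :=
  (realS f g x).filter fun x' => f x' = f x ∨ wt f (f x') * 8 ≤ 2 ^ (n - i)

/-- the (average) gap between the entropies -/
noncomputable def gapF {i : ℕ} (g : BM i m) : ℝ :=
  (∑ x : BV n, (Real.log (realS f g x).card - Real.log (accS f g x).card)) / 2 ^ n

end Pool.Agent.Lib.MP_2b5695_lc.Owf
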