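import Pool.Agent.Lib.MP_2b5695_lc.Owf.Fixed
import Pool.Agent.Lib.MP_2b5695_lc.Owf.InvDef

/-!
Inverting arbitrary functions.
-/

namespace Pool.Agent.Lib.MP_2b5695_lc.Owf

open Alg Finset

variable {ι : Ty} {A : Set ι.El} {f : List Bool × List Bool → List Bool}

/-- `y` padded, such that the length depends only on the length of `nu` -/
noncomputable def padY (p : Polynomial ℕ) (nu y : List Bool) : List Bool :=
  (y ++ true :: List.replicate (p.eval nu.length) false).take (p.eval nu.length + 1)

/-- the function `f` with padded values -/
noncomputable def padF (f : List Bool × List Bool → List Bool) (p : Polynomial ℕ)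
    (x : List Bool × List Bool) : List Bool := padY p (x.1 ++ x.2) (f x)

theorem pf_padY {a : Ty} (p : Polynomial ℕ) {nu y : a.El → List Bool} (hnu : PF A a .word nu)
    (hy : PF A a .word y) : PF A a .word (fun v => padY p (nu v) (y v)) := by
  have h1 := PF.polyList (pf_unary hnu) p
  have h2 : PF A a .word (fun v => List.replicate (p.eval (nu v).length) false) :=
    (PF.map (b := .bool) (c := .bool) (φ := fun _ => false) h1 (PF.ff _)).of_eq fun v => by
      rw [List.map_const', List.length_replicate]
  exact pf_takeN (pf_add h1 (PF.const .word [true])) (hy.append ((PF.tt a).cons' h2))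

theorem length_padY (p : Polynomial ℕ) (nu y : List Bool) :
    (padY p nu y).length = p.eval nu.length + 1 := by
  rw [padY, List.length_take, List.length_append, List.length_cons, List.length_replicate]
  omega

/-- the word without the padding -/
def strip (w : List Bool) : List Bool := ((w.reverse.dropWhile fun b => !b).tail).reverse

theorem strip_padY {p : Polynomial ℕ} {nu y : List Bool} (h : y.length ≤ p.eval nu.length) :
    strip (padY p nu y) = y := by
  obtain ⟨k, hk⟩ := Nat.exists_eq_add_of_le h
  have h1 : padY p nu y = y ++ true :: List.replicate k false := by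
    rw [padY, List.take_append, List.take_of_length_le (by omega)]
    congr 1
    have : p.eval nu.length + 1 - y.length = k + 1 := by omega
    rw [this, List.take_succ_cons, List.take_replicate]
    congr 2
    omega
  have h2 : ∀ (k : ℕ) (v : List Bool), (List.replicate k false ++ true :: v).dropWhile
      (fun b => !b) = true :: v := by
    intro k v
    induction k with
    | zero => simp
    | succ k ih => 
      rw [List.replicate_succ, List.cons_append, List.dropWhile_cons]
      simp [ih]
  rw [strip, h1, List.reverse_append, List.reverse_cons, List.reverse_replicate,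
    List.append_assoc, List.singleton_append, h2, List.tail_cons, List.reverse_reverse]

theorem pf_padF (hf : PF A (.prod .word .word) .word f) (p : Polynomial ℕ) :
    PF A (.prod .word .word) .word (padF f p) :=
  pf_padY p ((PF.fst .word .word).append (PF.snd .word .word)) hf

/-- If the optimization problem of the Merkle trees is computed by a type 1 counterexample
computation, then `f` can be inverted. -/
theorem inverted_of_computed (hf : PF A (.prod .word .word) .word f) {p : Polynomial ℕ}
    (hp : ∀ z v : List Bool, (f (z, v)).length ≤ p.eval (z.length + v.length))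
    (hcomp : Computed A 0 (hashC (HH (padF f p)) LL) hashρ) : Inverted A f := by
  obtain ⟨q, r, E, hE, hn⟩ := inverted_fixed (pf_padF hf p) (fun z x y h => by
    rw [padF, padF, length_padY, length_padY, List.length_append, List.length_append, h]) hcomp
  refine ⟨q, r, fun x => E (x.1, (x.2.1, (padY p (x.1 ++ x.2.1) x.2.2.1, x.2.2.2))), ?_,
    fun z n => ?_⟩
  · have h1 := pf_padY (A := A) (a := .prod .word (.prod .word (.prod .word .word))) p
      ((PF.fst _ _).append (PF.snd _ _).fst') (PF.snd _ _).snd'.fst'
    exact hE.comp ((PF.fst _ _).pair ((PF.snd _ _).fst'.pair (h1.pair (PF.snd _ _).snd'.snd')))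
  · refine (hn z n).trans (Nat.mul_le_mul_left _ (Finset.card_le_card fun s hs => ?_))
    rw [Finset.mem_filter] at hs ⊢
    refine ⟨hs.1, ?_⟩
    obtain ⟨h1, h2⟩ := hs.2
    have h3 : padF f p (z, List.ofFn s.1) =
        padY p (z ++ List.replicate n true) (f (z, List.ofFn s.1)) := by
      rw [padF, padY, padY, List.length_append, List.length_append, List.length_ofFn,
        List.length_replicate]
    rw [h3] at h1 h2
    refine ⟨h1, ?_⟩
    set x := E (z, (List.replicate n true, (padY p (z ++ List.replicate n true)
      (f (z, List.ofFn s.1)), List.ofFn s.2))) with hx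
    have h4 : strip (padF f p (z, x)) = f (z, x) := by
      rw [padF]
      refine strip_padY ?_
      rw [List.length_append]
      exact hp z x
    have h5 : strip (padY p (z ++ List.replicate n true) (f (z, List.ofFn s.1))) =
        f (z, List.ofFn s.1) := by
      refine strip_padY ?_
      have := hp z (List.ofFn s.1)
      rw [List.length_ofFn] at this
      rw [List.length_append, List.length_replicate]
      exact this
    rw [← h4, h2, h5]

/-- polynomial bound for the length of the values -/
theorem exists_length_bound (hf : PF A (.prod .word .word) .word f) :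
    ∃ p : Polynomial ℕ, ∀ z v : List Bool, (f (z, v)).length ≤ p.eval (z.length + v.length) := by
  obtain ⟨p, hp⟩ := hf.bound
  refine ⟨p.comp (2 * Polynomial.X), fun z v => ?_⟩
  have h1 := hp (z, v)
  rw [size_word, size_prod, size_word, size_word] at h1
  simp only [Polynomial.eval_comp, Polynomial.eval_mul, Polynomial.eval_X,
    Polynomial.eval_ofNat, Nat.mul_add] at h1 ⊢
  omega

/-- the optimization problem of the Merkle trees -/
theorem optProblem_of (hf : PF A (.prod .word .word) .word f) (p : Polynomial ℕ) :
    OptProblem A 0 (hashC (HH (padF f p)) LL) hashρ :=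
  optHash (pf_HH (pf_padF hf p)) pf_LL fun k w u => length_HH k w u

end Pool.Agent.Lib.MP_2b5695_lc.Owf
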