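import Pool.Agent.Lib.MP_2b5695_lc.Owf.FDef
import Pool.Agent.Lib.MP_2b5695_lc.Owf.Gap
import Pool.Agent.Lib.MP_2b5695_lc.Owf.Conc

/-!
The choice of the parameters `i` and `a`.
-/

namespace Pool.Agent.Lib.MP_2b5695_lc.Owf

open Finset

private theorem flat_inj {t n : ℕ} {X Y : Fin t → BV n} (h : flat X = flat Y) : X = Y := by
  funext j k
  have := congrFun h (finProdFinEquiv (j, k))
  simpa [flat] using this

private theorem PP_eq_iff {n m i t : ℕ} (f : BV n → BV m) (g : BM i m) (X Y : Fin t → BV n) :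
    PP f g X = PP f g Y ↔ ∀ j, mulF g (f (X j)) = mulF g (f (Y j)) := by
  constructor
  · intro h j
    exact congrFun (flat_inj h) j
  · intro h
    unfold PP
    congr 1
    funext j
    exact h j

/-- the logarithm of the size of a set of words -/
private theorem log_card_le {n : ℕ} (S : Finset (BV n)) (hS : S.Nonempty) :
    Real.log S.card ≤ n * Real.log 2 := by
  have h1 : (S.card : ℝ) ≤ 2 ^ n := by
    have : S.card ≤ 2 ^ n := by
      calc _ ≤ (univ : Finset (BV n)).card := card_le_univ _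
        _ = 2 ^ n := by simp
    exact_mod_cast this
  rw [← Real.log_pow]
  exact Real.log_le_log (by exact_mod_cast hS.card_pos) h1

private theorem log_card_nonneg {n : ℕ} (S : Finset (BV n)) (hS : S.Nonempty) :
    0 ≤ Real.log S.card := by
  refine Real.log_nonneg ?_
  exact_mod_cast hS.card_pos

private theorem self_mem_realS {n m i : ℕ} (f : BV n → BV m) (g : BM i m) (x : BV n) :
    x ∈ realS f g x := by
  unfold realS; simp

/-- the size of a product -/
private theorem card_pi_exp {n t : ℕ} (S : BV n → Finset (BV n)) (hS : ∀ x, x ∈ S x)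
    (X : Fin t → BV n) :
    ((Fintype.piFinset fun j => S (X j)).card : ℝ) =
      Real.exp (∑ j, Real.log (S (X j)).card) := by
  rw [Fintype.card_piFinset, Real.exp_sum]
  push_cast
  refine Finset.prod_congr rfl fun j _ => ?_
  rw [Real.exp_log]
  exact_mod_cast Finset.card_pos.mpr ⟨X j, hS _⟩

theorem exists_good {n m i : ℕ} (hn : 0 < n) (f : BV n → BV m) (g : BM i m)
    (hg : 1 / (256 * ((n : ℝ) + 1) ^ 3) ≤ gapF f g) (s : ℕ) (hs : 1 ≤ s) (t : ℕ)
    (ht : 2 ^ 24 * (n + 1) ^ 8 * s ≤ t) : ∃ a ≤ t * n, Good f g t a (Real.exp s) := by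
  classical
  have hnr : (0 : ℝ) < n := by exact_mod_cast hn
  have hsr : (1 : ℝ) ≤ s := by exact_mod_cast hs
  have htr : (2 : ℝ) ^ 24 * ((n : ℝ) + 1) ^ 8 * s ≤ t := by exact_mod_cast ht
  set γ : ℝ := 1 / (256 * ((n : ℝ) + 1) ^ 3) with hγ
  have hγ0 : 0 < γ := by positivity
  have hlog2 : 0 < Real.log 2 := Real.log_pos (by norm_num)
  have hlog2' : Real.log 2 ≤ 1 := by
    have := Real.log_two_lt_d9; linarith
  -- the two variables
  set φa : BV n → ℝ := fun x => Real.log (accS f g x).card with hφa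
  set φb : BV n → ℝ := fun x => Real.log (realS f g x).card with hφb
  set μa : ℝ := (∑ x, φa x) / 2 ^ n with hμa
  set μb : ℝ := (∑ x, φb x) / 2 ^ n with hμb
  have hcard : (Fintype.card (BV n) : ℝ) = 2 ^ n := by simp
  have hsuma : ∑ x, φa x = μa * Fintype.card (BV n) := by
    rw [hcard, hμa]; field_simp
  have hsumb : ∑ x, φb x = μb * Fintype.card (BV n) := by
    rw [hcard, hμb]; field_simp
  have hgap : γ ≤ μb - μa := by
    refine hg.trans (le_of_eq ?_)
    unfold gapF
    rw [Finset.sum_sub_distrib, sub_div]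
  have ha0 : ∀ x, 0 ≤ φa x := fun x => log_card_nonneg _ ⟨x, self_mem_accS f g x⟩
  have hb0 : ∀ x, 0 ≤ φb x := fun x => log_card_nonneg _ ⟨x, self_mem_realS f g x⟩
  have ha1 : ∀ x, φa x ≤ n := fun x =>
    (log_card_le _ ⟨x, self_mem_accS f g x⟩).trans
      ((mul_le_mul_of_nonneg_left hlog2' hnr.le).trans (by rw [mul_one]))
  have hb2 : ∀ x, φb x ≤ n * Real.log 2 := fun x => log_card_le _ ⟨x, self_mem_realS f g x⟩
  have hb1 : ∀ x, φb x ≤ n := fun x =>
    (hb2 x).trans ((mul_le_mul_of_nonneg_left hlog2' hnr.le).trans (by rw [mul_one]))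
  have hμa0 : 0 ≤ μa := div_nonneg (Finset.sum_nonneg fun x _ => ha0 x) (by positivity)
  have hμbn : μb ≤ n * Real.log 2 := by
    rw [hμb, div_le_iff₀ (by positivity)]
    calc ∑ x, φb x ≤ ∑ x : BV n, (n * Real.log 2) := Finset.sum_le_sum fun x _ => hb2 x
      _ = n * Real.log 2 * 2 ^ n := by
        rw [Finset.sum_const, nsmul_eq_mul, Finset.card_univ, hcard]; ring
  -- arithmetic
  have hn1 : (1 : ℝ) ≤ n := by exact_mod_cast hn
  set δ : ℝ := γ / 8 with hδ
  have hδ0 : 0 < δ := by positivity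
  have hγ1 : γ ≤ 1 := by
    rw [hγ, div_le_one (by positivity)]
    nlinarith [one_le_pow₀ (M₀ := ℝ) (a := (n : ℝ) + 1) (by linarith) (n := 3)]
  have hδ2 : δ ≤ 2 * n := by
    rw [hδ]; linarith
  have hexp : (s : ℝ) ≤ t * δ ^ 2 / (4 * (n : ℝ) ^ 2) := by
    rw [le_div_iff₀ (by positivity)]
    have h1 : δ ^ 2 = 1 / (2 ^ 22 * ((n : ℝ) + 1) ^ 6) := by
      rw [hδ, hγ]; field_simp; ring
    rw [h1, mul_one_div, le_div_iff₀ (by positivity)]
    refine le_trans ?_ htr
    have h2 : (n : ℝ) ^ 2 ≤ ((n : ℝ) + 1) ^ 2 := by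
      apply pow_le_pow_left₀ hnr.le; linarith
    have h3 : (0 : ℝ) ≤ s * (2 ^ 24 * ((n : ℝ) + 1) ^ 6) := by positivity
    nlinarith [mul_le_mul_of_nonneg_left h2 h3]
  have htγ : 2 * (s : ℝ) ≤ t * γ / 8 := by
    rw [hγ, mul_one_div, div_div, le_div_iff₀ (by positivity)]
    refine le_trans ?_ htr
    have h4 : (1 : ℝ) ≤ ((n : ℝ) + 1) ^ 5 := one_le_pow₀ (by linarith)
    have h3 : (0 : ℝ) ≤ s * ((n : ℝ) + 1) ^ 3 := by positivity
    nlinarith [mul_le_mul_of_nonneg_left h4 h3]
  have htγ2 : Real.log 2 ≤ t * γ / 16 := by linarith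
  -- the choice of `a`
  set a : ℕ := ⌈(t * μa + t * γ / 4) / Real.log 2⌉₊ with ha
  have hq0 : 0 ≤ (t * μa + t * γ / 4) / Real.log 2 := by positivity
  have haL : t * μa + t * γ / 4 ≤ a * Real.log 2 := by
    rw [← div_le_iff₀ hlog2]; exact Nat.le_ceil _
  have haU : a * Real.log 2 ≤ t * μa + t * γ / 4 + Real.log 2 := by
    have h1 : (a : ℝ) < (t * μa + t * γ / 4) / Real.log 2 + 1 := Nat.ceil_lt_add_one hq0
    have h2 := mul_lt_mul_of_pos_right h1 hlog2
    rw [add_mul, div_mul_cancel₀ _ hlog2.ne', one_mul] at h2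
    exact h2.le
  have ht0 : (0 : ℝ) ≤ t := by positivity
  have htg : (t : ℝ) * γ ≤ t * (μb - μa) := mul_le_mul_of_nonneg_left hgap ht0
  have h2a : (Fintype.card (BV a) : ℝ) = Real.exp (a * Real.log 2) := by
    have : (Fintype.card (BV a) : ℝ) = 2 ^ a := by simp
    rw [this, mul_comm, Real.exp_mul, Real.exp_log (by norm_num), Real.rpow_natCast]
  have hL2 : (Real.exp (s : ℝ)) ^ 2 = Real.exp (2 * s) := by
    rw [← Real.exp_nat_mul]; norm_num
  have hcount : ∀ (p q : (Fin t → BV n) → Prop), (∀ X, ¬ p X → q X) →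
      (((univ.filter q).card : ℝ) ≤ Real.exp (- (t * δ ^ 2 / (4 * (n : ℝ) ^ 2))) *
        Fintype.card (Fin t → BV n)) →
      ((univ.filter fun X => ¬ p X).card : ℝ) * Real.exp s ≤ Fintype.card (Fin t → BV n) := by
    intro p q hpq hq
    have h1 : ((univ.filter fun X => ¬ p X).card : ℝ) ≤ (univ.filter q).card := by
      exact_mod_cast Finset.card_le_card (fun X hX => by
        simp only [Finset.mem_filter, Finset.mem_univ, true_and] at hX ⊢
        exact hpq X hX)
    have h2 : Real.exp (- (t * δ ^ 2 / (4 * (n : ℝ) ^ 2))) ≤ Real.exp (- (s : ℝ)) :=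
      Real.exp_le_exp.2 (by linarith)
    have hc0 : (0 : ℝ) ≤ Fintype.card (Fin t → BV n) := by positivity
    calc ((univ.filter fun X => ¬ p X).card : ℝ) * Real.exp s
        ≤ (Real.exp (- (s : ℝ)) * Fintype.card (Fin t → BV n)) * Real.exp s :=
          mul_le_mul_of_nonneg_right (h1.trans (hq.trans
            (mul_le_mul_of_nonneg_right h2 hc0))) (Real.exp_pos _).le
      _ = Fintype.card (Fin t → BV n) := by
          rw [mul_comm (Real.exp (-(s : ℝ))), mul_assoc, ← Real.exp_add]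
          simp
  refine ⟨a, ?_, ?_, ?_⟩
  · -- `a ≤ t n`
    have h1 : (a : ℝ) * Real.log 2 ≤ (t * n : ℕ) * Real.log 2 := by
      push_cast
      have h3 : (t : ℝ) * μb ≤ t * (n * Real.log 2) := mul_le_mul_of_nonneg_left hμbn ht0
      nlinarith
    have h2 := le_of_mul_le_mul_right h1 hlog2
    exact_mod_cast h2
  · refine hcount _ _ (fun X hX => ?_)
      (card_sum_ge φa hnr ha0 ha1 hsuma hδ0 hδ2 t)
    by_contra hlt
    rw [not_le] at hlt
    apply hX
    unfold accP
    rw [card_pi_exp (fun x => accS f g x) (self_mem_accS f g) X, hL2, h2a, ← Real.exp_add]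
    refine Real.exp_le_exp.2 ?_
    have h3 : ∑ j, Real.log (accS f g (X j)).card = ∑ j, φa (X j) := rfl
    rw [h3]
    have h4 : (t : ℝ) * (μa + δ) = t * μa + t * γ / 8 := by rw [hδ]; ring
    linarith
  · refine hcount _ _ (fun X hX => ?_)
      (card_sum_le φb hnr hb0 hb1 hsumb hδ0 hδ2 t)
    by_contra hlt
    rw [not_le] at hlt
    apply hX
    have h5 : (univ.filter fun X' : Fin t → BV n => PP f g X' = PP f g X) =
        Fintype.piFinset fun j => realS f g (X j) := by
      ext X'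
      simp only [Finset.mem_filter, Finset.mem_univ, true_and, Fintype.mem_piFinset,
        PP_eq_iff, realS]
    rw [h5, card_pi_exp (fun x => realS f g x) (self_mem_realS f g) X, hL2, h2a, ← Real.exp_add]
    refine Real.exp_le_exp.2 ?_
    have h3 : ∑ j, Real.log (realS f g (X j)).card = ∑ j, φb (X j) := rfl
    rw [h3]
    have h4 : (t : ℝ) * (μb - δ) = t * μb - t * γ / 8 := by rw [hδ]; ring
    nlinarith

open Classical in
theorem exists_params {n m : ℕ} (hn : 0 < n) (f : BV n → BV m) (s : ℕ) (hs : 1 ≤ s) (t : ℕ)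
    (ht : 2 ^ 24 * (n + 1) ^ 8 * s ≤ t) :
    (2 ^ n * 2 ^ n ≤ 64 * (n + 1) ^ 2 * (univ.filter fun s : BV n × BV n => f s.1 = f s.2).card) ∨
    ∃ i ≤ n, ∃ a ≤ t * n, Fintype.card (BM i m) ≤ 512 * (n + 1) ^ 4 * (t * n + 1) *
      (univ.filter fun g : BM i m => Good f g t a (Real.exp s)).card := by
  rcases exists_gap n m f with h | ⟨i, hi, h⟩
  · left
    convert h
  · right
    refine ⟨i, hi, ?_⟩
    set S : Finset (BM i m) :=
      univ.filter fun g : BM i m => 1 / (256 * ((n : ℝ) + 1) ^ 3) ≤ gapF f g with hS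
    have hcov : S ⊆ (Finset.range (t * n + 1)).biUnion fun a =>
        univ.filter fun g : BM i m => Good f g t a (Real.exp s) := by
      intro g hg
      rw [hS, Finset.mem_filter] at hg
      obtain ⟨a, ha, hga⟩ := exists_good hn f g hg.2 s hs t ht
      rw [Finset.mem_biUnion]
      exact ⟨a, Finset.mem_range.2 (by omega), by simpa using hga⟩
    obtain ⟨a, ha, hmax⟩ := Finset.exists_max_image (Finset.range (t * n + 1))
      (fun a => (univ.filter fun g : BM i m => Good f g t a (Real.exp s)).card)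
      ⟨0, Finset.mem_range.2 (by omega)⟩
    refine ⟨a, by have := Finset.mem_range.1 ha; omega, ?_⟩
    have h1 : S.card ≤ (t * n + 1) *
        (univ.filter fun g : BM i m => Good f g t a (Real.exp s)).card := by
      calc S.card ≤ _ := Finset.card_le_card hcov
        _ ≤ ∑ a ∈ Finset.range (t * n + 1),
            (univ.filter fun g : BM i m => Good f g t a (Real.exp s)).card :=
          Finset.card_biUnion_le
        _ ≤ ∑ _a ∈ Finset.range (t * n + 1),
            (univ.filter fun g : BM i m => Good f g t a (Real.exp s)).card :=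
          Finset.sum_le_sum fun b hb => hmax b hb
        _ = _ := by rw [Finset.sum_const, Finset.card_range, smul_eq_mul]
    calc Fintype.card (BM i m) ≤ 512 * (n + 1) ^ 4 * S.card := by convert h
      _ ≤ 512 * (n + 1) ^ 4 * ((t * n + 1) *
          (univ.filter fun g : BM i m => Good f g t a (Real.exp s)).card) :=
        Nat.mul_le_mul_left _ h1
      _ = _ := by ring

end Pool.Agent.Lib.MP_2b5695_lc.Owf
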