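import Mathlib

/-!
Matrices and vectors over the field with two elements (`Bool` with `xor` and `and`), and counting
for random linear maps.
-/

namespace Pool.Agent.Lib.MP_2b5695_lc.Owf

open Finset

/-- words of length `n`, as functions -/
abbrev BV (n : ℕ) := Fin n → Bool

/-- matrices with `a` rows and `b` columns -/
abbrev BM (a b : ℕ) := Fin a → Fin b → Bool

/-- the scalar product over the field with two elements (`+` is `xor`, `*` is `and`) -/
def dotF {b : ℕ} (r v : BV b) : Bool := ∑ l, r l * v l

/-- the product of a matrix with a vector -/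
def mulF {a b : ℕ} (M : BM a b) (v : BV b) : BV a := fun j => dotF (M j) v

/-- the scalar product of two lists of bits -/
def dot (r v : List Bool) : Bool := (List.zipWith and r v).foldr xor false

/-! ### auxiliary facts -/

private lemma add_eq_xor (a b : Bool) : a + b = xor a b := rfl
private lemma mul_eq_and (a b : Bool) : a * b = (a && b) := rfl
private lemma zero_eq_false : (0 : Bool) = false := rfl
private lemma add_self' (a : Bool) : a + a = 0 := by cases a <;> rfl

private lemma dotF_add_left {b : ℕ} (r s v : BV b) : dotF (r + s) v = dotF r v + dotF s v := by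
  unfold dotF
  rw [← Finset.sum_add_distrib]
  refine Finset.sum_congr rfl fun l _ => ?_
  rw [Pi.add_apply, add_mul]

private lemma dotF_add_right {b : ℕ} (r v w : BV b) : dotF r (v + w) = dotF r v + dotF r w := by
  unfold dotF
  rw [← Finset.sum_add_distrib]
  refine Finset.sum_congr rfl fun l _ => ?_
  rw [Pi.add_apply, mul_add]

private lemma add_eq_zero_iff' (a b : Bool) : a + b = 0 ↔ a = b := by
  cases a <;> cases b <;> decide

private lemma dotF_eq_iff {b : ℕ} (r v w : BV b) : dotF r v = dotF r w ↔ dotF r (v + w) = 0 := by
  rw [dotF_add_right, add_eq_zero_iff']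

theorem dot_ofFn {b : ℕ} (r v : BV b) : dot (List.ofFn r) (List.ofFn v) = dotF r v := by
  induction b with
  | zero => rfl
  | succ b ih =>
    rw [List.ofFn_succ, List.ofFn_succ]
    have h1 := ih (fun i => r i.succ) (fun i => v i.succ)
    unfold dot dotF at h1 ⊢
    rw [List.zipWith_cons_cons, List.foldr_cons, h1, Fin.sum_univ_succ]
    rfl

/-- the first one of `d` -/
def firstF {b : ℕ} (d : BV b) : BV b := fun l => d l && decide (∀ j, j < l → d j = false)

/-- change the rows of `M` such that `d` is in the kernel -/
def fixF {a b : ℕ} (d : BV b) (M : BM a b) : BM a b :=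
  fun j l => M j l + dotF (M j) d * firstF d l

private lemma dotF_firstF {b : ℕ} {d : BV b} (hd : d ≠ 0) : dotF (firstF d) d = 1 := by
  obtain ⟨l1, hl1⟩ : ∃ l, d l = true := by
    by_contra h
    apply hd
    funext l
    have : ¬ d l = true := fun h1 => h ⟨l, h1⟩
    have h2 : d l = false := by simpa using this
    exact h2
  obtain ⟨l0, hl0, hmin⟩ := WellFounded.has_min (wellFounded_lt (α := Fin b))
    {l | d l = true} ⟨l1, hl1⟩
  have h1 : ∀ l, firstF d l = true ↔ l = l0 := by
    intro l
    unfold firstF
    rw [Bool.and_eq_true, decide_eq_true_iff]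
    constructor
    · rintro ⟨h2, h3⟩
      rcases lt_trichotomy l l0 with h | h | h
      · exact absurd h (hmin l h2)
      · exact h
      · have := h3 l0 h
        rw [hl0] at this
        exact absurd this (by simp)
    · rintro rfl
      refine ⟨hl0, fun j hj => ?_⟩
      have : ¬ d j = true := fun h2 => hmin j h2 hj
      simpa using this
  unfold dotF
  rw [Finset.sum_eq_single l0]
  · have e1 := (h1 l0).2 rfl
    rw [e1, hl0]
    rfl
  · intro l _ hl
    have : ¬ firstF d l = true := fun h2 => hl ((h1 l).1 h2)
    have e1 : firstF d l = false := by simpa using this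
    rw [e1]
    rfl
  · intro h
    exact absurd (Finset.mem_univ _) h

private lemma add_ne_zero' {b : ℕ} {v v' : BV b} (h : v ≠ v') : v + v' ≠ 0 := by
  intro h0
  apply h
  funext l
  exact (add_eq_zero_iff' _ _).1 (congrFun h0 l)

private lemma mulF_eq_iff {a b : ℕ} (M : BM a b) (v v' : BV b) :
    mulF M v = mulF M v' ↔ ∀ j, dotF (M j) (v + v') = 0 := by
  constructor
  · intro h j
    exact (dotF_eq_iff _ _ _).1 (congrFun h j)
  · intro h
    funext j
    exact (dotF_eq_iff _ _ _).2 (h j)

private lemma dotF_outer {a b : ℕ} (M : BM a b) (s : BV a) (f e : BV b) (j : Fin a) :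
    dotF (fun l => M j l + s j * f l) e = dotF (M j) e + s j * dotF f e := by
  unfold dotF
  rw [Finset.mul_sum, ← Finset.sum_add_distrib]
  refine Finset.sum_congr rfl fun l _ => ?_
  rw [add_mul, mul_assoc]

theorem mulF_fixF {a b : ℕ} {v v' : BV b} (h : v ≠ v') (M : BM a b) :
    mulF (fixF (v + v') M) v = mulF (fixF (v + v') M) v' := by
  rw [mulF_eq_iff]
  intro j
  have h1 := dotF_outer M (fun j => dotF (M j) (v + v')) (firstF (v + v')) (v + v') j
  rw [dotF_firstF (add_ne_zero' h), mul_one, add_self'] at h1
  exact h1

open Classical in
theorem card_fixF {a b : ℕ} {v v' : BV b} (h : v ≠ v') (T : BM a b → Prop) :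
    (univ.filter fun M : BM a b => T (fixF (v + v') M)).card =
      2 ^ a * (univ.filter fun M : BM a b => mulF M v = mulF M v' ∧ T M).card := by
  set d := v + v' with hd
  have hd1 := dotF_firstF (add_ne_zero' h)
  rw [← hd] at hd1
  have hcard : (2 : ℕ) ^ a = (univ : Finset (BV a)).card := by
    rw [Finset.card_univ, Fintype.card_fun, Fintype.card_fin, Fintype.card_bool]
  rw [hcard, ← Finset.card_product]
  have hk : ∀ (K : BM a b) (s : BV a), mulF K v = mulF K v' → ∀ j,
      dotF (fun l => K j l + s j * firstF d l) d = s j := by
    intro K s hK j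
    rw [dotF_outer, (mulF_eq_iff K v v').1 hK j, hd1, mul_one, zero_add]
  have hfix : ∀ (K : BM a b) (s : BV a), mulF K v = mulF K v' →
      fixF d (fun j l => K j l + s j * firstF d l) = K := by
    intro K s hK
    funext j l
    show (K j l + s j * firstF d l) + dotF (fun l => K j l + s j * firstF d l) d * firstF d l = K j l
    rw [hk K s hK j, add_assoc, add_self', add_zero]
  symm
  refine Finset.card_nbij' (fun p => fun j l => p.2 j l + p.1 j * firstF d l)
    (fun M => (fun j => dotF (M j) d, fixF d M)) ?_ ?_ ?_ ?_
  · rintro ⟨s, K⟩ hK
    simp only [Finset.coe_product, Finset.coe_univ, Finset.coe_filter, Finset.mem_univ, true_and,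
      Set.mem_prod, Set.mem_univ, Set.mem_ofPred_eq] at hK ⊢
    rw [hfix K s hK.1]
    exact hK.2
  · intro M hM
    simp only [Finset.coe_product, Finset.coe_univ, Finset.coe_filter, Finset.mem_univ, true_and,
      Set.mem_prod, Set.mem_univ, Set.mem_ofPred_eq] at hM ⊢
    exact ⟨mulF_fixF h M, hM⟩
  · rintro ⟨s, K⟩ hK
    simp only [Finset.coe_product, Finset.coe_univ, Finset.coe_filter, Finset.mem_univ, true_and,
      Set.mem_prod, Set.mem_univ, Set.mem_ofPred_eq] at hK
    refine Prod.ext ?_ ?_
    · funext j
      exact hk K s hK.1 j
    · exact hfix K s hK.1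
  · intro M _
    funext j l
    show (M j l + dotF (M j) d * firstF d l) + dotF (M j) d * firstF d l = M j l
    rw [add_assoc, add_self', add_zero]

open Classical in
/-- random linear maps are universal -/
theorem card_mulF_eq {a b : ℕ} {v v' : BV b} (h : v ≠ v') :
    (univ.filter fun M : BM a b => mulF M v = mulF M v').card * 2 ^ a =
      Fintype.card (BM a b) := by
  have h1 := card_fixF (a := a) h (fun _ => True)
  simp only [and_true, Finset.filter_true, Finset.card_univ] at h1
  rw [h1, mul_comm]

open Classical in
/-- random linear maps are pairwise independent on the differences -/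
theorem card_mulF_eq₂ {a b : ℕ} {v v' v'' : BV b} (h : v ≠ v') (h' : v ≠ v'') (h'' : v' ≠ v'') :
    (univ.filter fun M : BM a b => mulF M v' = mulF M v ∧ mulF M v'' = mulF M v).card *
      2 ^ (2 * a) = Fintype.card (BM a b) := by
  have h1 : (univ.filter fun M : BM a b => mulF (fixF (v + v') M) v'' =
      mulF (fixF (v + v') M) v).card = 2 ^ a * (univ.filter fun M : BM a b =>
        mulF M v = mulF M v' ∧ mulF M v'' = mulF M v).card := by
    convert card_fixF (a := a) h (fun M => mulF M v'' = mulF M v)
  have e1 : (univ.filter fun M : BM a b => mulF M v = mulF M v' ∧ mulF M v'' = mulF M v) =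
      (univ.filter fun M : BM a b => mulF M v' = mulF M v ∧ mulF M v'' = mulF M v) := by
    ext M
    simp only [Finset.mem_filter, Finset.mem_univ, true_and]
    rw [eq_comm (a := mulF M v) (b := mulF M v')]
  rw [e1] at h1
  set c := dotF (firstF (v + v')) (v'' + v) with hc
  set w : BV b := (v'' + v) + fun l => c * (v + v') l with hw
  have hw0 : w ≠ 0 := by
    intro h0
    rcases Bool.eq_false_or_eq_true c with hct | hcf
    · -- c = 1
      apply h''
      funext l
      have h2 := congrFun h0 l
      have h3 : (v'' l + v l) + true * (v l + v' l) = 0 := by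
        have : w l = (v'' l + v l) + c * (v l + v' l) := rfl
        rw [← hct, ← this]
        exact h2
      revert h3
      cases v l <;> cases v' l <;> cases v'' l <;> decide
    · apply h'
      funext l
      have h2 := congrFun h0 l
      have h3 : (v'' l + v l) + false * (v l + v' l) = 0 := by
        have : w l = (v'' l + v l) + c * (v l + v' l) := rfl
        rw [← hcf, ← this]
        exact h2
      revert h3
      cases v l <;> cases v' l <;> cases v'' l <;> decide
  have e2 : (univ.filter fun M : BM a b => mulF (fixF (v + v') M) v'' = mulF (fixF (v + v') M) v) =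
      (univ.filter fun M : BM a b => mulF M w = mulF M 0) := by
    ext M
    simp only [Finset.mem_filter, Finset.mem_univ, true_and]
    rw [mulF_eq_iff, mulF_eq_iff]
    refine forall_congr' fun j => ?_
    have h2 := dotF_outer M (fun j => dotF (M j) (v + v')) (firstF (v + v')) (v'' + v) j
    have h3 : dotF (M j) (w + 0) = dotF (M j) (v'' + v) + dotF (M j) (v + v') * c := by
      rw [add_zero, hw, dotF_add_right]
      congr 1
      unfold dotF
      rw [Finset.sum_mul]
      refine Finset.sum_congr rfl fun l _ => ?_
      simp only
      rw [mul_comm c, mul_assoc]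
    rw [h3]
    have h4 : dotF (fixF (v + v') M j) (v'' + v) =
      dotF (M j) (v'' + v) + dotF (M j) (v + v') * c := h2
    rw [h4]
  have h5 := card_mulF_eq (a := a) hw0
  rw [← e2, h1] at h5
  rw [← h5, two_mul, pow_add]
  ring

/-- the first one of a list -/
def first : List Bool → List Bool
  | [] => []
  | b :: l => bif b then true :: l.map (fun _ => false) else false :: first l

/-- xor of two lists -/
def xorW (u v : List Bool) : List Bool := List.zipWith xor u v

/-- change the row `r` such that it is orthogonal to `d` -/
def fixRow (d r : List Bool) : List Bool := bif dot r d then xorW r (first d) else r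

theorem xorW_ofFn {b : ℕ} (u v : BV b) : xorW (List.ofFn u) (List.ofFn v) = List.ofFn (u + v) := by
  induction b with
  | zero => rfl
  | succ b ih =>
    have h1 := ih (fun i => u i.succ) (fun i => v i.succ)
    unfold xorW at h1 ⊢
    rw [List.ofFn_succ, List.ofFn_succ, List.ofFn_succ, List.zipWith_cons_cons, h1]
    rfl

private lemma first_ofFn {b : ℕ} (d : BV b) : first (List.ofFn d) = List.ofFn (firstF d) := by
  induction b with
  | zero => rfl
  | succ b ih =>
    rw [List.ofFn_succ, List.ofFn_succ]
    unfold first
    cases hd : d 0 with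
    | false =>
      rw [cond_false, ih]
      congr 1
      · unfold firstF; rw [hd]; rfl
      · congr 1
        funext l
        unfold firstF
        congr 1
        rw [decide_eq_decide]
        constructor
        · intro h j hj
          refine Fin.cases (fun _ => hd) (fun j hj => h j (Fin.succ_lt_succ_iff.1 hj)) j hj
        · intro h j hj
          exact h j.succ (Fin.succ_lt_succ_iff.2 hj)
    | true =>
      rw [cond_true]
      congr 1
      · unfold firstF
        rw [hd, Bool.true_and, eq_comm, decide_eq_true_iff]
        intro j hj
        exact absurd hj (Fin.not_lt_zero j)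
      · rw [List.map_ofFn]
        congr 1
        funext l
        show false = firstF d l.succ
        unfold firstF
        symm
        rw [Bool.and_eq_false_iff]
        right
        rw [decide_eq_false_iff_not]
        intro h
        have := h 0 (Fin.succ_pos l)
        rw [hd] at this
        exact absurd this (by simp)

theorem fixRow_ofFn {a b : ℕ} (d : BV b) (M : BM a b) (j : Fin a) :
    fixRow (List.ofFn d) (List.ofFn (M j)) = List.ofFn (fixF d M j) := by
  unfold fixRow
  rw [dot_ofFn, first_ofFn, xorW_ofFn]
  cases hd : dotF (M j) d with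
  | false =>
    rw [cond_false]
    congr 1
    funext l
    show M j l = M j l + dotF (M j) d * firstF d l
    rw [hd]
    cases M j l <;> cases firstF d l <;> rfl
  | true =>
    rw [cond_true]
    congr 1
    funext l
    show M j l + firstF d l = M j l + dotF (M j) d * firstF d l
    rw [hd]
    cases M j l <;> cases firstF d l <;> rfl

end Pool.Agent.Lib.MP_2b5695_lc.Owf
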