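import Pool.Agent.Lib.MP_2b5695_lc.Owf.PTree
import Pool.Agent.Lib.MP_2b5695_lc.Owf.Lin

/-!
The hash function on lists, and its polynomial time algorithms.
-/

namespace Pool.Agent.Lib.MP_2b5695_lc.Owf

open Alg

variable {ι : Ty} {A : Set ι.El} {a b c d K : Ty}

/-- product of a matrix (list of rows) and a vector -/
def matvec (M : List (List Bool)) (v : List Bool) : List Bool := M.map fun r => dot r v

/-- the `t` blocks of length `n` of a word `z`; `n` and `t` are given in unary by `nu` and `tu` -/
def blocks (nu tu z : List Bool) : List (List Bool) :=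
  (scan (fun x : Bool × List Bool × (List Bool × List Bool) =>
    (x.2.2.2.drop (x.2.1.length * x.2.2.1.length)).take x.2.2.1.length) (nu, z) tu).reverse

/-- a key `(((aux, nu), tu), ((g, G), (h, pads)))` -/
@[reducible] def Ty.key : Ty :=
  .prod (.prod (.prod .word .word) .word) (.prod (.prod (.list .word) (.list .word))
    (.prod (.list .word) (.list (.list .word))))

/-- the function that shrinks by one bit -/
def FK (f : List Bool × List Bool → List Bool) (k : Ty.key.El) (z : List Bool) : List Bool :=
  matvec k.2.2.1 ((blocks k.1.1.2 k.1.2 z).flatMap (fun x => matvec k.2.1.1 (f (k.1.1.1, x))) ++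
    matvec k.2.1.2 z)

/-- hashing a word bit by bit; the pads are in the list `lp` -/
def nodeH (f : List Bool × List Bool → List Bool) (k : Ty.key.El) (lp : List (List Bool)) :
    List Bool → List Bool
  | [] => k.2.2.1.map fun _ => false
  | e :: l => FK f k (xorW (e :: nodeH f k lp l) ((lp.drop l.length).headD []))

/-- the pads for the node with index `w` -/
def levelPads (k : Ty.key.El) (w : List Bool) : List (List Bool) :=
  (k.2.2.2.drop w.tail.length).headD []

/-- the position dependent hash function -/
def HH (f : List Bool × List Bool → List Bool) (x : Ty.key.El × List Bool × List Bool) : List Bool :=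
  nodeH f x.1 (levelPads x.1 x.2.1) x.2.2

/-- a word of the length of the hash values -/
def LL (k : Ty.key.El) : List Bool := k.2.2.1.map fun _ => false

/-- the part of `u` of length `|J| + 1` at the end -/
def suf (u J : List Bool) : List Bool := u.drop (u.drop (J.length + 1)).length

/-- what is masked at step `|J|` -/
def pre (f : List Bool × List Bool → List Bool) (k : Ty.key.El) (lp : List (List Bool)) (u J : List Bool) :
    List Bool := (suf u J).headD false :: nodeH f k lp (suf u J).tail

/-- the input of `FK` at step `|J|` -/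
def inp (f : List Bool × List Bool → List Bool) (k : Ty.key.El) (lp : List (List Bool)) (u J : List Bool) :
    List Bool := xorW (pre f k lp u J) ((lp.drop J.length).headD [])

/-- change the element at place `|J|` -/
def setW {α : Type} (l : List α) (J : List Bool) (x : α) : List α :=
  l.take J.length ++ x :: l.drop (J.length + 1)

/-- what is hashed at the node with index `w` -/
def honW (f : List Bool × List Bool → List Bool) (k : Ty.key.El) (rs : List (List Bool)) (w : List Bool) :
    List Bool :=
  bif decide (val w < val (Nat.bits rs.length)) then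
    look (slots rs).length (false :: w) (tabA (HH f) k rs) ++
      look (slots rs).length (true :: w) (tabA (HH f) k rs)
  else look (slots rs).length w (slots rs)

/-- change the pad at step `|J|` at the level of the node `w` such that the input of `FK` at this
step is `X` -/
def plantK (f : List Bool × List Bool → List Bool) (k : Ty.key.El) (rs : List (List Bool))
    (w J X : List Bool) : Ty.key.El :=
  (k.1, (k.2.1, (k.2.2.1, setW k.2.2.2 w.tail (setW (levelPads k w) J
    (xorW (pre f k (levelPads k w) (honW f k rs w) J) X)))))

/-- make `d` a zero of the matrix `g` of the key -/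
def fixK (k : Ty.key.El) (d : List Bool) : Ty.key.El :=
  (k.1, ((k.2.1.1.map (fixRow d), k.2.1.2), k.2.2))

section pf

theorem pf_take {s : a.El → List b.El} {g : a.El → List c.El} (hs : PF A a (.list b) s)
    (hg : PF A a (.list c) g) : PF A a (.list c) (fun v => (g v).take (s v).length) := by
  refine (PF.reverse (PF.drop (PF.drop hs hg) (PF.reverse hg))).of_eq fun v => ?_
  rw [List.length_drop, List.drop_reverse, List.reverse_reverse]
  rcases le_total (s v).length (g v).length with h | h
  · congr 1
    omega
  · rw [List.take_of_length_le (by omega), List.take_of_length_le h]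

/-- the next element of `v` belonging to a position of `u` -/
def nxt (a b : Ty) (z : a.El × List a.El × (List a.El × List b.El)) : a.El × b.El :=
  (z.1, (z.2.2.2.drop (z.2.2.1.length - (z.2.1.length + 1))).headD b.default)

theorem zip_eq_scan_aux (u : List a.El) (v : List b.El) (h : u.length ≤ v.length) :
    ∀ l : List a.El, l.length ≤ u.length →
      scan (nxt a b) (u, v) l = List.zip l (v.drop (u.length - l.length))
  | [], _ => by rw [scan]; simp
  | e :: l, hl => by
    rw [List.length_cons] at hl
    have h2 : u.length - (l.length + 1) < v.length := by omega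
    rw [scan, zip_eq_scan_aux u v h l (by omega), nxt, List.length_cons]
    simp only
    rw [List.drop_eq_getElem_cons h2, List.zip_cons_cons, List.headD_cons]
    have e1 : u.length - (l.length + 1) + 1 = u.length - l.length := by omega
    rw [e1]

theorem zip_take {α β : Type} : ∀ (u : List α) (v : List β),
    List.zip (u.take v.length) v = List.zip u v
  | [], _ => by simp
  | _ :: _, [] => by simp
  | x :: u, y :: v => by simp [zip_take u v]

theorem zip_eq_scan (u : List a.El) (v : List b.El) :
    List.zip u v = scan (nxt a b) (u.take v.length, v) (u.take v.length) := by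
  have h1 : (u.take v.length).length ≤ v.length := by rw [List.length_take]; omega
  rw [zip_eq_scan_aux _ _ h1 _ le_rfl, Nat.sub_self, List.drop_zero, zip_take]

theorem pf_zip {u : a.El → List b.El} {v : a.El → List c.El} (hu : PF A a (.list b) u)
    (hv : PF A a (.list c) v) : PF A a (.list (.prod b c)) (fun x => List.zip (u x) (v x)) := by
  have hs := pf_take hv hu
  have hd : PF A (.prod b (.prod (.list b) (.prod (.list b) (.list c)))) (.list c)
      (fun z => z.2.2.2.drop (z.2.2.1.length - (z.2.1.length + 1))) := by
    refine (PF.drop (PF.drop ((PF.fst b (.prod (.list b) (.prod (.list b) (.list c)))).cons'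
      (PF.snd _ _).fst') (PF.snd _ _).snd'.fst') (PF.snd _ _).snd'.snd').of_eq fun z => ?_
    rw [List.length_drop, List.length_cons]
  have hn : PF A (.prod b (.prod (.list b) (.prod (.list b) (.list c)))) (.prod b c) (nxt b c) :=
    (PF.fst _ _).pair (hd.headD (PF.const c c.default))
  exact (PF.scan hn hs (hs.pair hv)).of_eq fun x => (zip_eq_scan _ _).symm

theorem zipWith_eq_map {α β γ : Type} (F : α → β → γ) (u : List α) (v : List β) :
    List.zipWith F u v = (List.zip u v).map fun p => F p.1 p.2 := by
  induction u generalizing v with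
  | nil => simp
  | cons x u ih =>
    cases v with
    | nil => simp
    | cons y v => simp [ih]

theorem pf_xor {f g : a.El → Bool} (hf : PF A a .bool f) (hg : PF A a .bool g) :
    PF A a .bool (fun v => xor (f v) (g v)) :=
  (hf.beq hg).not'.of_eq fun v => by cases f v <;> cases g v <;> rfl

theorem pf_xorW {u v : a.El → List Bool} (hu : PF A a .word u) (hv : PF A a .word v) :
    PF A a .word (fun x => xorW (u x) (v x)) := by
  have h0 : PF A (.prod (.prod .bool .bool) a) .bool (fun z => xor z.1.1 z.1.2) :=
    pf_xor (PF.fst _ _).fst' (PF.fst _ _).snd'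
  refine (PF.map (b := .prod .bool .bool) (c := .bool) (pf_zip (b := .bool) (c := .bool) hu hv)
    h0).of_eq fun x => ?_
  rw [xorW, zipWith_eq_map]

theorem pf_dot {u v : a.El → List Bool} (hu : PF A a .word u) (hv : PF A a .word v) :
    PF A a .bool (fun x => dot (u x) (v x)) := by
  have h0 : PF A (.prod (.prod .bool .bool) a) .bool (fun z => z.1.1 && z.1.2) :=
    (PF.fst _ _).fst'.and' (PF.fst _ _).snd'
  have h1 := PF.map (b := .prod .bool .bool) (c := .bool) (pf_zip (b := .bool) (c := .bool) hu hv)
    h0
  have hh : PF A (.prod .bool (.prod .word (.prod a .bool))) .bool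
      (fun v => xor v.1 v.2.2.2) := pf_xor (PF.fst _ _) (PF.snd _ _).snd'.snd'
  refine (PF.rec' (f := fun v => v.1.foldr xor false) h1 (PF.ff _) hh (fun s => rfl)
    (fun e l s => rfl) 1 fun e l s r => ?_).of_eq fun x => ?_
  · simp only [size_bool]; omega
  · simp only [dot, zipWith_eq_map]

theorem pf_matvec {M : a.El → List (List Bool)} {v : a.El → List Bool}
    (hM : PF A a (.list .word) M) (hv : PF A a .word v) :
    PF A a .word (fun x => matvec (M x) (v x)) :=
  PF.map (b := .word) (c := .bool) (φ := fun z => dot z.1 (v z.2)) hM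
    (pf_dot (PF.fst _ _) (hv.comp (PF.snd _ _)))

theorem length_matvec (M : List (List Bool)) (v : List Bool) : (matvec M v).length = M.length := by
  rw [matvec, List.length_map]

/-- a number in unary -/
theorem pf_unary {u : a.El → List b.El} (hu : PF A a (.list b) u) :
    PF A a .word (fun v => List.replicate (u v).length true) :=
  (PF.map (b := b) (c := .bool) (φ := fun _ => true) hu (PF.tt _)).of_eq
      fun v => by rw [List.map_const']

theorem pf_blocks {nu tu z : a.El → List Bool} (hn : PF A a .word nu) (ht : PF A a .word tu)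
    (hz : PF A a .word z) : PF A a (.list .word) (fun x => blocks (nu x) (tu x) (z x)) := by
  have hm : PF A (.prod .bool (.prod .word (.prod .word .word))) .word
      (fun x => List.replicate (x.2.1.length * x.2.2.1.length) true) :=
    PF.mulList (pf_unary (PF.snd _ _).fst') (pf_unary (PF.snd _ _).snd'.fst')
  have hφ : PF A (.prod .bool (.prod .word (.prod .word .word))) .word
      (fun x => (x.2.2.2.drop (x.2.1.length * x.2.2.1.length)).take x.2.2.1.length) :=
    (pf_take (PF.snd _ _).snd'.fst' (PF.drop hm (PF.snd _ _).snd'.snd')).of_eq fun x => by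
      rw [List.length_replicate]
  exact (PF.scan (b := .bool) (c := .word) hφ ht (hn.pair hz)).reverse

variable {f : List Bool × List Bool → List Bool}

theorem pf_FK (hf : PF A (.prod .word .word) .word f) {k : a.El → Ty.key.El} {z : a.El → List Bool}
    (hk : PF A a Ty.key k) (hz : PF A a .word z) : PF A a .word (fun v => FK f (k v) (z v)) :=
  pf_matvec hk.snd'.snd'.fst' ((PF.flatMap (b := .word) (c := .bool)
    (φ := fun x => matvec (k x.2).2.1.1 (f ((k x.2).1.1.1, x.1)))
    (pf_blocks hk.fst'.fst'.snd' hk.fst'.snd' hz)
    (pf_matvec (hk.comp (PF.snd _ _)).snd'.fst'.fst'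
      (hf.comp ((hk.comp (PF.snd _ _)).fst'.fst'.fst'.pair (PF.fst _ _))))).append
    (pf_matvec hk.snd'.fst'.snd' hz))

theorem length_FK (k : Ty.key.El) (z : List Bool) : (FK f k z).length = k.2.2.1.length :=
  length_matvec _ _

theorem length_nodeH (k : Ty.key.El) (lp : List (List Bool)) (u : List Bool) :
    (nodeH f k lp u).length = k.2.2.1.length := by
  cases u with
  | nil => rw [nodeH, List.length_map]
  | cons e l => rw [nodeH, length_FK]

theorem pf_nodeH (hf : PF A (.prod .word .word) .word f) {k : a.El → Ty.key.El} {lp : a.El → List (List Bool)}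
    {u : a.El → List Bool} (hk : PF A a Ty.key k) (hlp : PF A a (.list .word) lp)
    (hu : PF A a .word u) : PF A a .word (fun v => nodeH f (k v) (lp v) (u v)) := by
  obtain ⟨p, hp⟩ := hk.bound
  have h0 : PF A a .word (fun v => (k v).2.2.1.map fun _ => false) :=
    PF.map (b := .word) (c := .bool) (φ := fun _ => false) hk.snd'.snd'.fst' (PF.ff _)
  have hkk : PF A (.prod .bool (.prod .word (.prod a .word))) Ty.key (fun z => k z.2.2.1) :=
    hk.comp (PF.snd _ _).snd'.fst'
  have hh : PF A (.prod .bool (.prod .word (.prod a .word))) .word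
      (fun z => FK f (k z.2.2.1) (xorW (z.1 :: z.2.2.2)
        (((lp z.2.2.1).drop z.2.1.length).headD []))) :=
    pf_FK hf hkk (pf_xorW ((PF.fst _ _).cons' (PF.snd _ _).snd'.snd')
      ((PF.drop (PF.snd _ _).fst' (hlp.comp (PF.snd _ _).snd'.fst')).headD (PF.nil _ _)))
  refine PF.rec' (f := fun z => nodeH f (k z.2) (lp z.2) z.1) hu h0 hh
    (fun s => rfl) (fun e l s => rfl) (2 * p) fun e l s r => ?_
  have h3 := hp s
  rw [size_word, length_FK]
  simp only
  have h5 : (k s).2.2.1.length ≤ p.eval (a.size s) := by
    have := length_le_size (a := .word) (k s).2.2.1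
    simp only [size_prod] at h3
    omega
  have h6 : p.eval (a.size s) ≤ p.eval (Ty.size .bool e + Ty.size (.list .bool) l + a.size s) :=
    eval_mono _ (Nat.le_add_left _ _)
  simp only [Polynomial.eval_mul, Polynomial.eval_ofNat]
  omega

theorem pf_levelPads {k : a.El → Ty.key.El} {w : a.El → List Bool}
    (hk : PF A a Ty.key k) (hw : PF A a .word w) :
    PF A a (.list .word) (fun v => levelPads (k v) (w v)) :=
  (PF.drop hw.tail hk.snd'.snd'.snd').headD (PF.nil _ _)

theorem pf_HH (hf : PF A (.prod .word .word) .word f) :
    PF A (.prod Ty.key (.prod .word .word)) .word (HH f) :=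
  pf_nodeH hf (PF.fst _ _) (pf_levelPads (PF.fst _ _) (PF.snd _ _).fst') (PF.snd _ _).snd'

theorem pf_LL : PF A Ty.key .word LL :=
  PF.map (b := .word) (c := .bool) (φ := fun _ => false) (PF.id Ty.key).snd'.snd'.fst' (PF.ff _)

theorem length_HH (k : Ty.key.El) (w u : List Bool) : (HH f (k, w, u)).length = (LL k).length := by
  rw [HH, length_nodeH, LL, List.length_map]

theorem pf_suf {u J : a.El → List Bool} (hu : PF A a .word u) (hJ : PF A a .word J) :
    PF A a .word (fun v => suf (u v) (J v)) :=
  PF.drop ((PF.drop ((PF.tt _).cons' hJ) hu).of_eq fun v => by rw [List.length_cons]) hu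

theorem pf_pre (hf : PF A (.prod .word .word) .word f) {k : a.El → Ty.key.El} {lp : a.El → List (List Bool)}
    {u J : a.El → List Bool} (hk : PF A a Ty.key k) (hlp : PF A a (.list .word) lp)
    (hu : PF A a .word u) (hJ : PF A a .word J) :
    PF A a .word (fun v => pre f (k v) (lp v) (u v) (J v)) :=
  ((pf_suf hu hJ).headD (PF.ff _)).cons' (pf_nodeH hf hk hlp (pf_suf hu hJ).tail)

theorem pf_inp (hf : PF A (.prod .word .word) .word f) {k : a.El → Ty.key.El} {lp : a.El → List (List Bool)}
    {u J : a.El → List Bool} (hk : PF A a Ty.key k) (hlp : PF A a (.list .word) lp)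
    (hu : PF A a .word u) (hJ : PF A a .word J) :
    PF A a .word (fun v => inp f (k v) (lp v) (u v) (J v)) :=
  pf_xorW (pf_pre hf hk hlp hu hJ) ((PF.drop hJ hlp).headD (PF.nil _ _))

theorem pf_setW {l : a.El → List b.El} {J : a.El → List Bool} {x : a.El → b.El}
    (hl : PF A a (.list b) l) (hJ : PF A a .word J) (hx : PF A a b x) :
    PF A a (.list b) (fun v => setW (l v) (J v) (x v)) :=
  (pf_take hJ hl).append (hx.cons' ((PF.drop ((PF.tt _).cons' hJ) hl).of_eq fun v => by
    rw [List.length_cons]))

theorem pf_honW (hf : PF A (.prod .word .word) .word f) {k : a.El → Ty.key.El} {rs : a.El → List (List Bool)}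
    {w : a.El → List Bool} (hk : PF A a Ty.key k) (hrs : PF A a (.list .word) rs)
    (hw : PF A a .word w) : PF A a .word (fun v => honW f (k v) (rs v) (w v)) := by
  have ht := pf_tabA (pf_HH hf) pf_LL length_HH hk hrs
  have hs := PF.slots hrs
  exact (hw.valLT (PF.binLength hrs)).cond'
    ((PF.look ht hs ((PF.ff _).cons' hw)).append (PF.look ht hs ((PF.tt _).cons' hw)))
    (PF.look hs hs hw)

theorem pf_plantK (hf : PF A (.prod .word .word) .word f) {k : a.El → Ty.key.El} {rs : a.El → List (List Bool)}
    {w J X : a.El → List Bool} (hk : PF A a Ty.key k) (hrs : PF A a (.list .word) rs)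
    (hw : PF A a .word w) (hJ : PF A a .word J) (hX : PF A a .word X) :
    PF A a Ty.key (fun v => plantK f (k v) (rs v) (w v) (J v) (X v)) := by
  have hlp := pf_levelPads hk hw
  exact hk.fst'.pair (hk.snd'.fst'.pair (hk.snd'.snd'.fst'.pair
    (pf_setW (b := .list .word) hk.snd'.snd'.snd' hw.tail (pf_setW (b := .word) hlp hJ
      (pf_xorW (pf_pre hf hk hlp (pf_honW hf hk hrs hw) hJ) hX)))))

theorem pf_first {u : a.El → List Bool} (hu : PF A a .word u) :
    PF A a .word (fun v => first (u v)) := by
  have hh : PF A (.prod .bool (.prod .word (.prod a .word))) .word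
      (fun z => bif z.1 then true :: z.2.1.map (fun _ => false) else false :: z.2.2.2) :=
    (PF.fst _ _).cond' ((PF.tt _).cons' (PF.map (b := .bool) (c := .bool) (φ := fun _ => false)
      (PF.snd _ _).fst' (PF.ff _))) ((PF.ff _).cons' (PF.snd _ _).snd'.snd')
  refine PF.rec' (f := fun z => first z.1) hu (PF.nil _ _) hh
    (fun s => rfl) (fun e l s => rfl) (Polynomial.X + 2) fun e l s r => ?_
  simp only [size_word, Polynomial.eval_add, Polynomial.eval_X, Polynomial.eval_ofNat, size_bool]
  cases e
  · simp; omega
  · simp; omega

theorem pf_fixRow {d r : a.El → List Bool} (hd : PF A a .word d) (hr : PF A a .word r) :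
    PF A a .word (fun v => fixRow (d v) (r v)) :=
  (pf_dot hr hd).cond' (pf_xorW hr (pf_first hd)) hr

theorem pf_fixK {k : a.El → Ty.key.El} {d : a.El → List Bool} (hk : PF A a Ty.key k)
    (hd : PF A a .word d) : PF A a Ty.key (fun v => fixK (k v) (d v)) :=
  hk.fst'.pair (((PF.map (b := .word) (c := .word) (φ := fun z => fixRow (d z.2) z.1)
    hk.snd'.fst'.fst' (pf_fixRow (hd.comp (PF.snd _ _)) (PF.fst _ _))).pair hk.snd'.fst'.snd').pair
    hk.snd'.snd')

end pf

end Pool.Agent.Lib.MP_2b5695_lc.Owf
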