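import Pool.Agent.Lib.MP_2b5695_lc.Alg.Hash

/-!
Merkle trees with a position dependent hash function `H (k, w, u)`, where `w` is the index of the
node in binary: the optimization problem whose solutions are authentication paths.
-/

namespace Pool.Agent.Lib.MP_2b5695_lc.Owf

open Alg

variable {ι : Ty} {A : Set ι.El} {a b c d K : Ty}

section

variable (H : K.El × List Bool × List Bool → List Bool) (L : K.El → List Bool)

/-- the hashes of the nodes of a tree in heap order; the list starts at some index, and `n` is the
largest index -/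
def tab (k : K.El) (n : ℕ) : List (List Bool) → List (List Bool)
  | [] => []
  | r :: l => H (k, Nat.bits (n - l.length), bif ((tab k n l).drop (n - l.length - 1)).isEmpty
      then r else ((tab k n l).drop (n - l.length - 1)).headD [] ++
        ((tab k n l).drop (n - l.length)).headD []) :: tab k n l

/-- the hash of the node computed from a leaf and an authentication path (starting at the node);
`w` is the index of the leaf -/
def cur (k : K.El) (w r : List Bool) : List (Bool × List Bool) → List Bool
  | [] => H (k, w, r)
  | e :: P => H (k, w.drop (P.length + 1),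
      bif e.1 then e.2 ++ cur k w r P else cur k w r P ++ e.2)

variable {H L}

theorem pf_hash (hH : PF A (.prod K (.prod .word .word)) .word H) {f : a.El → K.El}
    {w g : a.El → List Bool} (hf : PF A a K f) (hw : PF A a .word w)
    (hg : PF A a .word g) : PF A a .word (fun v => H (f v, w v, g v)) :=
  hH.comp (hf.pair (hw.pair hg))

theorem pf_tab (hH : PF A (.prod K (.prod .word .word)) .word H) (hL : PF A K .word L)
    (hlen : ∀ k w u, (H (k, w, u)).length = (L k).length) {k : a.El → K.El} {u : a.El → List b.El}
    {t : a.El → List (List Bool)} (hk : PF A a K k) (hu : PF A a (.list b) u)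
    (ht : PF A a (.list .word) t) :
    PF A a (.list .word) (fun v => tab H (k v) (u v).length (t v)) := by
  obtain ⟨p, hp⟩ := (hL.comp hk).bound
  have hr : PF A (.prod .word (.prod (.list .word) (.prod a (.list .word)))) (.list .word)
    (fun v => v.2.2.2) := (PF.snd _ _).snd'.snd'
  have hu' : PF A (.prod .word (.prod (.list .word) (.prod a (.list .word)))) (.list b)
      (fun v => (u v.2.2.1).drop v.2.1.length) :=
    PF.drop (PF.snd _ _).fst' (hu.comp (PF.snd _ _).snd'.fst')
  have h1 : PF A (.prod .word (.prod (.list .word) (.prod a (.list .word)))) (.list .word)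
      (fun v => v.2.2.2.drop ((u v.2.2.1).length - v.2.1.length - 1)) :=
    (PF.drop hu'.tail hr).of_eq fun v => by rw [List.length_tail, List.length_drop]
  have h2 : PF A (.prod .word (.prod (.list .word) (.prod a (.list .word)))) (.list .word)
      (fun v => v.2.2.2.drop ((u v.2.2.1).length - v.2.1.length)) :=
    (PF.drop hu' hr).of_eq fun v => by rw [List.length_drop]
  have h3 : PF A (.prod .word (.prod (.list .word) (.prod a (.list .word)))) .word
      (fun v => Nat.bits ((u v.2.2.1).length - v.2.1.length)) :=
    (PF.binLength hu').of_eq fun v => by rw [List.length_drop]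
  have hh : PF A (.prod .word (.prod (.list .word) (.prod a (.list .word)))) (.list .word)
      (fun v => H (k v.2.2.1, Nat.bits ((u v.2.2.1).length - v.2.1.length),
        bif (v.2.2.2.drop ((u v.2.2.1).length - v.2.1.length - 1)).isEmpty then v.1 else
        (v.2.2.2.drop ((u v.2.2.1).length - v.2.1.length - 1)).headD [] ++
        (v.2.2.2.drop ((u v.2.2.1).length - v.2.1.length)).headD []) :: v.2.2.2) :=
    (pf_hash hH (hk.comp (PF.snd _ _).snd'.fst') h3 (h1.isEmpty.cond' (PF.fst _ _)
      ((h1.headD (PF.nil _ _)).append (h2.headD (PF.nil _ _))))).cons' hr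
  refine PF.rec' (f := fun v => Owf.tab H (k v.2) (u v.2).length v.1) ht (PF.nil _ _) hh
    (fun s => rfl) (fun e l s => rfl) (p + 1) fun e l s r => ?_
  have h3 := hp s
  rw [size_word] at h3
  simp only [size_cons (a := .word), size_word, hlen, Polynomial.eval_add, Polynomial.eval_one]
  have h4 : p.eval (a.size s) ≤ p.eval (2 * e.length + Ty.size (.list .word) l + a.size s) :=
    eval_mono _ (Nat.le_add_left _ _)
  omega

theorem pf_cur (hH : PF A (.prod K (.prod .word .word)) .word H) (hL : PF A K .word L)
    (hlen : ∀ k w u, (H (k, w, u)).length = (L k).length) {k : a.El → K.El}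
    {w r : a.El → List Bool}
    {P : a.El → List (Bool × List Bool)} (hk : PF A a K k) (hw : PF A a .word w)
    (hr : PF A a .word r)
    (hP : PF A a (.list (.prod .bool .word)) P) :
    PF A a .word (fun v => cur H (k v) (w v) (r v) (P v)) := by
  obtain ⟨p, hp⟩ := (hL.comp hk).bound
  have hd : PF A (.prod (.prod .bool .word) (.prod (.list (.prod .bool .word)) (.prod a .word)))
      .word (fun v => (w v.2.2.1).drop (v.2.1.length + 1)) :=
    (PF.drop (b := .prod .bool .word) ((PF.fst (.prod .bool .word)
      (.prod (.list (.prod .bool .word)) (.prod a .word))).cons' (PF.snd _ _).fst')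
      (hw.comp (PF.snd _ _).snd'.fst')).of_eq fun v => by rw [List.length_cons]
  have hh : PF A (.prod (.prod .bool .word) (.prod (.list (.prod .bool .word)) (.prod a .word)))
      .word (fun v => H (k v.2.2.1, (w v.2.2.1).drop (v.2.1.length + 1),
        bif v.1.1 then v.1.2 ++ v.2.2.2 else v.2.2.2 ++ v.1.2)) :=
    pf_hash hH (hk.comp (PF.snd _ _).snd'.fst') hd ((PF.fst _ _).fst'.cond'
      ((PF.fst _ _).snd'.append (PF.snd _ _).snd'.snd')
      ((PF.snd _ _).snd'.snd'.append (PF.fst _ _).snd'))
  refine PF.rec' (f := fun v => Owf.cur H (k v.2) (w v.2) (r v.2) v.1) hP (pf_hash hH hk hw hr) hh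
    (fun s => rfl) (fun e l s => rfl) p fun e l s r' => ?_
  have h3 := hp s
  rw [size_word] at h3 ⊢
  simp only [hlen]
  have h4 : p.eval (a.size s) ≤ p.eval (Ty.size (.prod .bool .word) e +
    Ty.size (.list (.prod .bool .word)) l + a.size s) := eval_mono _ (Nat.le_add_left _ _)
  omega

/-- the data of an instance: key, hash of the root, number of leaves -/
@[reducible] def Ty.inst (K : Ty) : Ty := .prod K (.prod .word .word)

variable (H L) in
/-- the authentication path is correct -/
def okB (x : K.El × List Bool × List Bool) (y : List Bool × List (Bool × List Bool)) : Bool :=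
  (decide (cur H x.1 (idx y.2) y.1 y.2 = x.2.1) && (len2 (L x.1) y.1 &&
    y.2.all fun e => len1 (L x.1) e.2)) &&
    ((!decide (val (idx y.2) < val x.2.2)) && decide (val (idx y.2) < val (false :: x.2.2)))

theorem okB_iff {x : K.El × List Bool × List Bool} {y : List Bool × List (Bool × List Bool)} :
    okB H L x y = true ↔ cur H x.1 (idx y.2) y.1 y.2 = x.2.1 ∧ y.1.length = 2 * (L x.1).length ∧
      (∀ e ∈ y.2, e.2.length = (L x.1).length) ∧ val x.2.2 ≤ val (idx y.2) ∧
      val (idx y.2) < 2 * val x.2.2 := by
  have h : val (false :: x.2.2) = 2 * val x.2.2 := by rw [val, Nat.bit_val]; simp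
  rw [okB, h]
  simp only [Bool.and_eq_true, decide_eq_true_eq, len2_iff, List.all_eq_true, len1_iff,
    Bool.not_eq_true', decide_eq_false_iff_not, not_lt]
  tauto

theorem pf_okB (hH : PF A (.prod K (.prod .word .word)) .word H) (hL : PF A K .word L)
    (hlen : ∀ k w u, (H (k, w, u)).length = (L k).length) {x : a.El → (Ty.inst K).El}
    {y : a.El → Ty.auth.El} (hx : PF A a (Ty.inst K) x) (hy : PF A a .auth y) :
    PF A a .bool (fun v => okB H L (x v) (y v)) := by
  have hi : PF A a .word (fun v => Alg.idx (y v).2) := PF.idx hy.snd'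
  have hf : PF A a .word (fun v => false :: (x v).2.2) := (PF.ff _).cons' hx.snd'.snd'
  have hk : PF A a .word (fun v => L (x v).1) := hL.comp hx.fst'
  have hall : PF A a .bool (fun v => (y v).2.all fun e => Alg.len1 (L (x v).1) e.2) :=
    PF.all (b := .prod .bool .word) (φ := fun v => Alg.len1 (L (x v.2).1) v.1.2) hy.snd'
      (PF.len1 (hk.comp (PF.snd (.prod .bool .word) a)) (PF.fst (.prod .bool .word) a).snd')
  exact (((pf_cur hH hL hlen hx.fst' hi hy.fst' hy.snd').wordEq hx.snd'.fst').and'
    ((PF.len2 hk hy.fst').and' hall)).and'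
    ((hi.valLT hx.snd'.snd').not'.and' (hi.valLT hf))

/-- the instance coded by a word -/
def decX (K : Ty) (X : List Bool) : (Ty.inst K).El := (dec (.prod (Ty.inst K) .word) X.dropLast).1

theorem pf_decX {f : a.El → List Bool} (hf : PF A a .word f) :
    PF A a (Ty.inst K) (fun v => decX K (f v)) := (PF.dec (.prod (Ty.inst K) .word) hf.dropLast).fst'

variable (H L) in
/-- feasible nonempty words -/
def feasB (X Y : List Bool) : Bool :=
  decide ((true :: Y).length ≤ X.length) && okB H L (decX K X) (decY Y)

theorem pf_feasB (hH : PF A (.prod K (.prod .word .word)) .word H) (hL : PF A K .word L)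
    (hlen : ∀ k w u, (H (k, w, u)).length = (L k).length) {f g : a.El → List Bool}
    (hf : PF A a .word f)
    (hg : PF A a .word g) : PF A a .bool (fun v => feasB H L (f v) (g v)) :=
  (PF.lengthLE ((PF.tt _).cons' hg) hf).and' (pf_okB hH hL hlen (pf_decX hf) (PF.decY hg))

variable (H L) in
/-- feasibility -/
def hashC (x y : ℕ) : Prop :=
  (Nat.bits y).isEmpty = true ∨ feasB H L (Nat.bits x) (Nat.bits y) = true

theorem optHash (hH : PF A (.prod K (.prod .word .word)) .word H) (hL : PF A K .word L)
    (hlen : ∀ k w u, (H (k, w, u)).length = (L k).length) :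
    OptProblem A 0 (hashC H L) hashρ where
  zero x := Or.inl (by simp)
  le x y h := by
    rcases h with h | h
    · rw [List.isEmpty_iff] at h
      rw [(bits_eq_nil.1 h : y = 0)]
      exact Nat.zero_le _
    · simp only [feasB, Bool.and_eq_true, decide_eq_true_eq, List.length_cons] at h
      exact le_of_length_lt (by omega)
  cost := ⟨costI, PF.costI (PF.id _), fun y => rfl⟩
  feas := ⟨fun Z => Z.2.isEmpty = true ∨ feasB H L Z.1 Z.2 = true,
    ⟨fun Z => !(Z.2.isEmpty || feasB H L Z.1 Z.2),
      ((PF.snd .word .word).isEmpty.or' (pf_feasB hH hL hlen (PF.fst _ _) (PF.snd _ _))).not',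
      fun v => by simp⟩, fun x y => Iff.rfl⟩

end

end Pool.Agent.Lib.MP_2b5695_lc.Owf
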