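import Pool.Agent.Lib.MP_2b5695_lc.Owf.PTree
import Pool.Agent.Lib.MP_2b5695_lc.Alg.HashRun

/-!
Merkle trees with a position dependent hash function: the simulated run.
-/

namespace Pool.Agent.Lib.MP_2b5695_lc.Owf

open Alg

variable {κ K : Ty} {H : K.El × List Bool × List Bool → List Bool} {L : K.El → List Bool}
  {k : K.El} {rs : List (List Bool)} {pad : Polynomial ℕ}

theorem decX_inpX : decX K (inpX H pad k rs) = instA H k rs := by
  rw [decX, inpX, List.dropLast_concat, dec_enc]

theorem bits_inpX : Nat.bits (val (inpX H pad k rs)) = inpX H pad k rs := bits_append_true _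

/-- the words have the right lengths, and the input is long enough -/
structure Fine (H : K.El × List Bool × List Bool → List Bool) (L : K.El → List Bool)
    (pad : Polynomial ℕ) (k : K.El) (rs : List (List Bool)) : Prop where
  hlen : ∀ k w u, (H (k, w, u)).length = (L k).length
  pos : 0 < rs.length
  words : ∀ r ∈ rs, r.length = 2 * (L k).length
  room : ∀ i, rs.length ≤ i → i < 2 * rs.length →
    (codeN (tabA H k rs) (slots rs) (Nat.bits i)).length + 1 ≤ (inpX H pad k rs).length

theorem Fine.feas (F : Fine H L pad k rs) {i : ℕ} (h1 : rs.length ≤ i) (h2 : i < 2 * rs.length) :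
    feasB H L (inpX H pad k rs) (codeN (tabA H k rs) (slots rs) (Nat.bits i)) = true := by
  rw [feasB, decX_inpX, decY_codeN, Bool.and_eq_true, decide_eq_true_eq, List.length_cons]
  refine ⟨F.room i h1 h2, ?_⟩
  have hpos := F.pos
  obtain ⟨h3, h4, h5, -⟩ := path_props (H := H) (k := k) (rs := rs) F.hlen i (by omega) h2
  rw [okB_iff]
  simp only [solN, instA]
  rw [look_slots h1 h2, h3, val_bits, val_bits]
  refine ⟨?_, ?_, h5, h1, h2⟩
  · rw [cur_eq, ← hashAt_leaf (H := H) (k := k) F.pos h1 h2, h4, hashAt]; rfl
  · rw [leafAt, List.drop_eq_getElem_cons (by omega), List.headD_cons]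
    exact F.words _ (List.getElem_mem _)

theorem Fine.cost (F : Fine H L pad k rs) {i : ℕ} (h1 : rs.length ≤ i) (h2 : i < 2 * rs.length) :
    hashρ (val (codeN (tabA H k rs) (slots rs) (Nat.bits i))) = i := by
  have hpos := F.pos
  obtain ⟨h3, -, -, -⟩ := path_props (H := H) (k := k) (rs := rs) F.hlen i (by omega) h2
  rw [hashρ, bits_codeN, costI, codeN_ne, cond_false, decY_codeN, solN, h3, val_bits]

/-- the index revealed as an answer to `Y` -/
def revQ (H : K.El × List Bool × List Bool → List Bool) (L : K.El → List Bool) (X Lw Y : List Bool) : Option (List Bool) :=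
  bif Y.isEmpty then some Lw else
  bif feasB H L X Y && decide (val (incr (idx (decY Y).2)) < val (false :: Lw)) then
    some (incr (idx (decY Y).2)) else none

theorem adv_some {v : Ty.env.El} {Y q : List Bool} (h : revQ H L v.1.1 v.1.2 Y = some q) :
    adv H L v Y = (false, codeN v.2.1 v.2.2 q) := by
  rw [revQ] at h
  rw [adv]
  cases h1 : Y.isEmpty
  · rw [h1, cond_false] at h
    cases h2 : feasB H L v.1.1 Y
    · rw [h2, Bool.false_and, cond_false] at h; cases h
    · rw [h2, Bool.true_and] at h
      cases h3 : decide (val (incr (idx (decY Y).2)) < val (false :: v.1.2))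
      · rw [h3, cond_false] at h; cases h
      · rw [h3, cond_true] at h
        cases h
        rfl
  · rw [h1, cond_true] at h
    cases h
    rfl

theorem adv_none {v v' : Ty.env.El} {Y : List Bool} (h : revQ H L v.1.1 v.1.2 Y = none)
    (hv : v.1 = v'.1) : adv H L v Y = adv H L v' Y := by
  rw [revQ] at h
  rw [adv, adv, ← hv]
  cases h1 : Y.isEmpty
  · rw [h1, cond_false] at h
    cases h2 : feasB H L v.1.1 Y
    · rfl
    · rw [h2, Bool.true_and] at h
      cases h3 : decide (val (incr (idx (decY Y).2)) < val (false :: v.1.2))
      · rfl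
      · rw [h3, cond_true] at h; cases h
  · rw [h1, cond_true] at h
    cases h

/-- the revealed indices are the indices of leaves -/
theorem revQ_range {Y q : List Bool}
    (h : revQ H L (inpX H pad k rs) (Nat.bits rs.length) Y = some q) (h0 : 0 < rs.length) :
    ∃ i, q = Nat.bits i ∧ rs.length ≤ i ∧ i < 2 * rs.length ∧
      ((Y.isEmpty = true ∧ i = rs.length) ∨ (Y.isEmpty = false ∧
        feasB H L (inpX H pad k rs) Y = true ∧ i = val (idx (decY Y).2) + 1)) := by
  rw [revQ] at h
  cases h1 : Y.isEmpty
  · rw [h1, cond_false] at h
    cases h2 : feasB H L (inpX H pad k rs) Y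
    · rw [h2, Bool.false_and, cond_false] at h; cases h
    · rw [h2, Bool.true_and] at h
      cases h3 : decide (val (incr (idx (decY Y).2)) < val (false :: Nat.bits rs.length))
      · rw [h3, cond_false] at h; cases h
      · rw [h3, cond_true] at h
        cases h
        rw [decide_eq_true_eq, val_double, val_bits, incr_idx, val_bits] at h3
        refine ⟨_, incr_idx, ?_, h3, Or.inr ⟨rfl, rfl, rfl⟩⟩
        simp only [feasB, Bool.and_eq_true] at h2
        have h4 := (okB_iff.1 h2.2).2.2.2.1
        rw [decX_inpX] at h4
        simp only [instA] at h4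
        rw [val_bits] at h4
        omega
  · rw [h1, cond_true] at h
    cases h
    exact ⟨_, rfl, le_rfl, by omega, Or.inl ⟨rfl, rfl⟩⟩

/-- the answers follow the rules -/
theorem Fine.legal (F : Fine H L pad k rs) (y : ℕ) :
    (∃ z, adv H L (envA H pad k rs) (Nat.bits y) = (false, Nat.bits z) ∧
      Answers (hashC H L) hashρ (val (inpX H pad k rs)) y (some z)) ∨
    (adv H L (envA H pad k rs) (Nat.bits y) = (true, []) ∧
      Answers (hashC H L) hashρ (val (inpX H pad k rs)) y none) := by
  have hpos := F.pos
  have hCiff : ∀ z, hashC H L (val (inpX H pad k rs)) z ↔ ((Nat.bits z).isEmpty = true ∨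
      feasB H L (inpX H pad k rs) (Nat.bits z) = true) := fun z => by
    rw [hashC, bits_inpX]
  have hle : ∀ z, hashC H L (val (inpX H pad k rs)) z → z ≤ val (inpX H pad k rs) := fun z hz => by
    rw [hCiff] at hz
    rcases hz with h | h
    · rw [List.isEmpty_iff] at h
      rw [(bits_eq_nil.1 h : z = 0)]
      exact Nat.zero_le _
    · simp only [feasB, Bool.and_eq_true, decide_eq_true_eq, List.length_cons] at h
      rw [← bits_inpX (H := H) (k := k) (rs := rs) (pad := pad)] at h
      exact le_of_length_lt (by omega)
  -- a revealed solution is legal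
  have hrev : ∀ i, rs.length ≤ i → i < 2 * rs.length → hashρ y < i →
      Answers (hashC H L) hashρ (val (inpX H pad k rs)) y
        (some (val (codeN (tabA H k rs) (slots rs) (Nat.bits i)))) := by
    intro i h1 h2 h3
    have h4 : hashC H L (val (inpX H pad k rs)) (val (codeN (tabA H k rs) (slots rs)
        (Nat.bits i))) := by
      rw [hCiff, bits_codeN]
      exact Or.inr (F.feas h1 h2)
    refine ⟨hle _ h4, fun hB => hB.2 ?_ h4⟩
    rw [F.cost h1 h2]
    exact h3
  have henv1 : (envA H pad k rs).1 = (inpX H pad k rs, Nat.bits rs.length) := rfl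
  have henv2 : (envA H pad k rs).2 = (tabA H k rs, slots rs) := rfl
  cases hq : revQ H L (inpX H pad k rs) (Nat.bits rs.length) (Nat.bits y) with
  | some q =>
    left
    obtain ⟨i, rfl, h1, h2, h3⟩ := revQ_range hq hpos
    refine ⟨val (codeN (tabA H k rs) (slots rs) (Nat.bits i)), ?_, hrev i h1 h2 ?_⟩
    · rw [adv_some (v := envA H pad k rs) (q := Nat.bits i) hq, bits_codeN, henv2]
    · rcases h3 with ⟨h3, h4⟩ | ⟨h3, -, h4⟩
      · rw [hashρ, costI, h3, cond_true, val]; omega
      · rw [hashρ, costI, h3, cond_false]; omega
  | none =>
    rw [revQ] at hq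
    cases h1 : (Nat.bits y).isEmpty
    · rw [h1, cond_false] at hq
      cases h2 : feasB H L (inpX H pad k rs) (Nat.bits y)
      · left
        refine ⟨0, ?_, Nat.zero_le _, fun hB => ?_⟩
        · rw [adv, h1, cond_false, henv1, h2, cond_false, Nat.zero_bits]
        · have := (hCiff y).1 hB.1
          rw [h1, h2] at this
          simp at this
      · right
        rw [h2, Bool.true_and] at hq
        cases h3 : decide (val (incr (idx (decY (Nat.bits y)).2)) <
            val (false :: Nat.bits rs.length))
        · refine ⟨?_, (hCiff y).2 (Or.inr h2), fun z hz => ?_⟩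
          · rw [adv, h1, cond_false, henv1, h2, cond_true, h3, cond_false]
          · rw [decide_eq_false_iff_not, val_double, val_bits, incr_idx, val_bits] at h3
            have h4 : hashρ y = val (idx (decY (Nat.bits y)).2) := by
              rw [hashρ, costI, h1, cond_false]
            rw [h4]
            rcases (hCiff z).1 hz with h5 | h5
            · rw [hashρ, costI, h5, cond_true, val]; exact Nat.zero_le _
            · cases h6 : (Nat.bits z).isEmpty
              · rw [hashρ, costI, h6, cond_false]
                simp only [feasB, Bool.and_eq_true] at h5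
                have h7 := (okB_iff.1 h5.2).2.2.2.2
                rw [decX_inpX] at h7
                simp only [instA] at h7
                rw [val_bits] at h7
                omega
              · rw [hashρ, costI, h6, cond_true, val]; exact Nat.zero_le _
        · rw [h3, cond_true] at hq; cases hq
    · rw [h1, cond_true] at hq; cases hq

section run

variable (H) (L) (k) (rs) (pad) (g : κ.El → Bool) (S : List Bool × Ty.history.El → (Ty.move κ).El)

/-- the history after `t` steps -/
def hs (t : ℕ) : List (Bool × List Bool) :=
  histN H L g S (envA H pad k rs) (List.replicate t [])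

/-- the move after `t` steps -/
def mv (t : ℕ) : (Ty.move κ).El := S (inpX H pad k rs, hs H L k rs pad g S t)

/-- the word presented or given as output after `t` steps -/
def wd (t : ℕ) : List Bool := norm (mv H L k rs pad g S t).2.2

variable {H L k rs pad g S}

theorem hs_succ (t : ℕ) : hs H L k rs pad g S (t + 1) =
    ans H L g (envA H pad k rs) (mv H L k rs pad g S t) :: hs H L k rs pad g S t := by
  rw [hs, List.replicate_succ, histN]
  rfl

theorem histN_eq (v : Ty.env.El) : ∀ l l' : List (List Bool), l.length = l'.length →
    histN H L g S v l = histN H L g S v l'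
  | [], [], _ => rfl
  | [], _ :: _, h => by simp at h
  | _ :: _, [], h => by simp at h
  | _ :: l, _ :: l', h => by
    rw [histN, histN, histN_eq v l l' (by simpa using h)]

open Classical in
theorem Fine.stops {O : Set κ.El} (F : Fine H L pad k rs) (hg : ∀ q, g q = true ↔ q ∈ O) :
    ∀ (n t : ℕ), Ensures O (Answers (hashC H L) hashρ (val (inpX H pad k rs)))
      (Optimal (hashC H L) hashρ (val (inpX H pad k rs))) (fun h => S (inpX H pad k rs, h)) n
      (hs H L k rs pad g S t) →
    ∃ t', t' < t + n ∧
      Optimal (hashC H L) hashρ (val (inpX H pad k rs)) (val (mv H L k rs pad g S t').2.2)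
  | 0, _, h => h.elim
  | n + 1, t, h => by
    rw [Ensures] at h
    have hm : S (inpX H pad k rs, hs H L k rs pad g S t) = mv H L k rs pad g S t := rfl
    rw [hm] at h
    have hnext : ∀ e, e = ans H L g (envA H pad k rs) (mv H L k rs pad g S t) →
        Ensures O (Answers (hashC H L) hashρ (val (inpX H pad k rs)))
        (Optimal (hashC H L) hashρ (val (inpX H pad k rs))) (fun h => S (inpX H pad k rs, h)) n
        (e :: hs H L k rs pad g S t) → ∃ t', t' < t + (n + 1) ∧
        Optimal (hashC H L) hashρ (val (inpX H pad k rs)) (val (mv H L k rs pad g S t').2.2) := by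
      intro e he h1
      rw [he, ← hs_succ] at h1
      obtain ⟨t', h2, h3⟩ := F.stops hg n (t + 1) h1
      exact ⟨t', by omega, h3⟩
    by_cases hstop : (mv H L k rs pad g S t).1.1 = true
    · by_cases hpres : (mv H L k rs pad g S t).1.2 = true
      · have hans : ans H L g (envA H pad k rs) (mv H L k rs pad g S t) =
            adv H L (envA H pad k rs) (Nat.bits (val (mv H L k rs pad g S t).2.2)) := by
          rw [ans, hstop, hpres, norm_eq]; rfl
        rw [hans] at hnext
        have hleg := F.legal (val (mv H L k rs pad g S t).2.2)
        revert h hnext hstop hpres hleg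
        generalize mv H L k rs pad g S t = m
        obtain ⟨⟨m1, m2⟩, q, w⟩ := m
        intro h hnext hstop hpres hleg
        simp only at hstop hpres
        subst hstop; subst hpres
        simp only at h hnext hleg
        rcases hleg with ⟨z, h1, h2⟩ | ⟨h1, h2⟩
        · exact hnext _ h1.symm (h.2 z h2)
        · exact hnext _ h1.symm (h.1 h2)
      · rw [Bool.not_eq_true] at hpres
        have hans : ans H L g (envA H pad k rs) (mv H L k rs pad g S t) =
            (g (mv H L k rs pad g S t).2.1, []) := by
          rw [ans, hstop, hpres]; rfl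
        rw [hans] at hnext
        revert h hnext hstop hpres
        generalize mv H L k rs pad g S t = m
        obtain ⟨⟨m1, m2⟩, q, w⟩ := m
        intro h hnext hstop hpres
        simp only at hstop hpres
        subst hstop; subst hpres
        simp only at h hnext
        refine hnext _ ?_ h
        congr 1
        rw [Bool.eq_iff_iff, decide_eq_true_iff]
        exact (hg q).symm
    · refine ⟨t, by omega, ?_⟩
      revert h hstop
      generalize mv H L k rs pad g S t = m
      obtain ⟨⟨m1, m2⟩, q, w⟩ := m
      intro h hstop
      cases m1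
      · exact h
      · exact absurd rfl hstop

variable (H L k rs pad g S) in
/-- `q` has been revealed before step `t` -/
def Rev (t : ℕ) (q : List Bool) : Prop :=
  ∃ τ < t, ((mv H L k rs pad g S τ).1.1 && (mv H L k rs pad g S τ).1.2) = true ∧
    revQ H L (inpX H pad k rs) (Nat.bits rs.length) (wd H L k rs pad g S τ) = some q

/-- there is a step at which the word contains a path to a leaf beyond all revealed leaves -/
theorem Fine.jump (F : Fine H L pad k rs) {t₁ : ℕ} (ht : t₁ < rs.length)
    (hopt : Optimal (hashC H L) hashρ (val (inpX H pad k rs)) (val (mv H L k rs pad g S t₁).2.2)) :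
    ∃ t ≤ t₁, feasB H L (inpX H pad k rs) (wd H L k rs pad g S t) = true ∧
      ∀ q, Rev H L k rs pad g S t q → val q < val (idx (decY (wd H L k rs pad g S t)).2) := by
  have hpos := F.pos
  by_contra hno
  push Not at hno
  have hind : ∀ t ≤ t₁, ∀ q, Rev H L k rs pad g S t q → val q < rs.length + t := by
    intro t
    induction t with
    | zero => rintro - q ⟨τ, hτ, -⟩; omega
    | succ t ih =>
      rintro ht' q ⟨τ, hτ, h1, h2⟩
      rcases Nat.lt_succ_iff_lt_or_eq.1 hτ with hτ | rfl
      · have := ih (by omega) q ⟨τ, hτ, h1, h2⟩
        omega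
      · obtain ⟨i, rfl, h3, h4, h5⟩ := revQ_range h2 hpos
        rw [val_bits]
        rcases h5 with ⟨-, h5⟩ | ⟨-, h6, h5⟩
        · omega
        · obtain ⟨q', h7, h8⟩ := hno τ (by omega) h6
          have := ih (by omega) q' h7
          omega
  have h1 : 2 * rs.length - 1 ≤ hashρ (val (mv H L k rs pad g S t₁).2.2) := by
    have h2 := hopt.2 (val (codeN (tabA H k rs) (slots rs) (Nat.bits (2 * rs.length - 1)))) (by
      rw [hashC, bits_inpX, bits_codeN]
      exact Or.inr (F.feas (by omega) (by omega)))
    rwa [F.cost (by omega) (by omega)] at h2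
  have h2 := hopt.1
  rw [hashC, bits_inpX, ← norm_eq] at h2
  rw [hashρ, ← norm_eq, costI] at h1
  have h3 : (norm (mv H L k rs pad g S t₁).2.2).isEmpty = false := by
    by_contra hc
    rw [Bool.not_eq_false] at hc
    rw [hc, cond_true, val] at h1
    omega
  rw [h3, cond_false] at h1
  have h4 : feasB H L (inpX H pad k rs) (wd H L k rs pad g S t₁) = true := by
    rcases h2 with h2 | h2
    · rw [h3] at h2; cases h2
    · exact h2
  obtain ⟨q', h5, h6⟩ := hno t₁ le_rfl h4
  have := hind t₁ le_rfl q' h5
  rw [wd] at h6
  omega

/-- the candidates at an earlier step are among all candidates -/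
theorem mem_allCands {t : ℕ} (ht : t < rs.length)
    (hf : feasB H L (inpX H pad k rs) (wd H L k rs pad g S t) = true)
    {z : List Bool × (List Bool × List Bool)}
    (hz : z ∈ cands H k (tabA H k rs) (slots rs) (decY (wd H L k rs pad g S t))) :
    z ∈ allCands H L S k (envA H pad k rs) (histN H L g S (envA H pad k rs) rs) := by
  have key : ∀ n, t < n → z ∈ allCands H L S k (envA H pad k rs) (hs H L k rs pad g S n) := by
    intro n
    induction n with
    | zero => intro h; omega
    | succ n ih =>
      intro h
      rw [hs_succ, allCands, scan, List.flatMap_cons, List.mem_append]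
      rcases Nat.lt_succ_iff_lt_or_eq.1 h with h | rfl
      · right
        exact ih h
      · left
        have hf' : feasB H L (envA H pad k rs).1.1 (norm (S ((envA H pad k rs).1.1,
            hs H L k rs pad g S t)).2.2) = true := hf
        simp only
        rw [hf', cond_true]
        exact hz
  rw [histN_eq _ rs (List.replicate rs.length []) (by simp)]
  exact key _ ht

/-- the candidates come from feasible solutions -/
theorem allCands_feas {v : Ty.env.El} {h : List (Bool × List Bool)}
    {z : List Bool × (List Bool × List Bool)} (hz : z ∈ allCands H L S k v h) :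
    ∃ Y, feasB H L v.1.1 Y = true ∧ z ∈ cands H k v.2.1 v.2.2 (decY Y) := by
  induction h with
  | nil => rw [allCands, scan] at hz; simp at hz
  | cons e l ih =>
    rw [allCands, scan, List.flatMap_cons, List.mem_append] at hz
    rcases hz with hz | hz
    · simp only at hz
      cases hf : feasB H L v.1.1 (norm (S (v.1.1, l)).2.2)
      · rw [hf, cond_false] at hz; cases hz
      · rw [hf, cond_true] at hz
        exact ⟨_, hf, hz⟩
    · exact ih hz

theorem pick_mem {l : List (List Bool × (List Bool × List Bool))}
    (h : colB H L k (pick H L k l) = true) : pick H L k l ∈ l := by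
  induction l with
  | nil =>
    rw [pick, colB] at h
    simp at h
  | cons x l ih =>
    rw [pick] at h ⊢
    cases hx : colB H L k x
    · rw [hx, cond_false] at h
      rw [cond_false]
      exact List.mem_cons_of_mem _ (ih h)
    · rw [cond_true]
      exact List.mem_cons_self

theorem colB_pick {l : List (List Bool × (List Bool × List Bool))} {z : List Bool × (List Bool × List Bool)} (hz : z ∈ l)
    (h : colB H L k z = true) : colB H L k (pick H L k l) = true := by
  induction l with
  | nil => cases hz
  | cons x l ih =>
    rw [pick]
    cases hx : colB H L k x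
    · rw [cond_false]
      rcases List.mem_cons.1 hz with rfl | hz
      · rw [hx] at h; cases h
      · exact ih hz
    · rw [cond_true, hx]

end run

end Pool.Agent.Lib.MP_2b5695_lc.Owf
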