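import Pool.Agent.Lib.MP_2b5695_lc.Owf.PHash
import Pool.Agent.Lib.MP_2b5695_lc.Alg.HashSim

/-!
Merkle trees with a position dependent hash function: the simulation of the computation and of the
adversary.
-/

namespace Pool.Agent.Lib.MP_2b5695_lc.Owf

open Alg

variable {ι : Ty} {A : Set ι.El} {a b c d κ K : Ty}

/-- position, and testing pair -/
@[reducible] def Ty.pos : Ty := .prod .word (.prod .word .word)

section

variable (H : K.El × List Bool × List Bool → List Bool) (L : K.El → List Bool)

/-- the hashes of all nodes -/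
def tabA (k : K.El) (rs : List (List Bool)) : List (List Bool) :=
  tab H k (slots rs).length (slots rs)

/-- the instance -/
def instA (k : K.El) (rs : List (List Bool)) : (Ty.inst K).El :=
  (k, ((tabA H k rs).headD [], Nat.bits rs.length))

/-- the input word -/
def inpX (pad : Polynomial ℕ) (k : K.El) (rs : List (List Bool)) : List Bool :=
  enc (.prod (Ty.inst K) .word) (instA H k rs, List.replicate (pad.eval (K.size k)) true) ++ [true]

/-- the environment -/
def envA (pad : Polynomial ℕ) (k : K.El) (rs : List (List Bool)) : Ty.env.El :=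
  ((inpX H pad k rs, Nat.bits rs.length), (tabA H k rs, slots rs))

/-- the answer of the adversary to the word `Y` -/
def adv (v : Ty.env.El) (Y : List Bool) : Bool × List Bool :=
  bif Y.isEmpty then (false, codeN v.2.1 v.2.2 v.1.2) else
  bif feasB H L v.1.1 Y then
    (bif decide (val (incr (idx (decY Y).2)) < val (false :: v.1.2)) then
      (false, codeN v.2.1 v.2.2 (incr (idx (decY Y).2))) else (true, []))
  else (false, [])

variable (g : κ.El → Bool) (S : List Bool × Ty.history.El → (Ty.move κ).El)

/-- the answer to a move -/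
def ans (v : Ty.env.El) (m : (Ty.move κ).El) : Bool × List Bool :=
  bif m.1.1 && m.1.2 then adv H L v (norm m.2.2) else (m.1.1 && g m.2.1, [])

/-- the history; the length of the list is the number of steps -/
def histN (v : Ty.env.El) : List (List Bool) → List (Bool × List Bool)
  | [] => []
  | _ :: l => ans H L g v (S (v.1.1, histN v l)) :: histN v l

/-- the data for testing a path -/
@[reducible] def Ty.tst (K : Ty) : Ty := .prod K (.prod .auth (.prod (.list .word) (.list .word)))

/-- the node, and the words hashed at this node: in the path, and in the tree of the adversary -/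
def pairAt (z : (Bool × List Bool) × List (Bool × List Bool) × (Ty.tst K).El) :
    List Bool × (List Bool × List Bool) :=
  ((idx z.2.2.2.1.2).drop (z.1 :: z.2.1).length,
   (bif z.1.1 then z.1.2 ++ cur H z.2.2.1 (idx z.2.2.2.1.2) z.2.2.2.1.1 z.2.1 else
    cur H z.2.2.1 (idx z.2.2.2.1.2) z.2.2.2.1.1 z.2.1 ++ z.1.2,
   look z.2.2.2.2.2.length (false :: (idx z.2.2.2.1.2).drop (z.1 :: z.2.1).length)
      z.2.2.2.2.1 ++
   look z.2.2.2.2.2.length (true :: (idx z.2.2.2.1.2).drop (z.1 :: z.2.1).length)
      z.2.2.2.2.1))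

/-- all pairs of words hashed in a path and in the tree of the adversary -/
def cands (k : K.El) (t u : List (List Bool)) (y : Ty.auth.El) :
    List (List Bool × (List Bool × List Bool)) :=
  (idx y.2, (y.1, look u.length (idx y.2) u)) :: scan (pairAt H) (k, (y, (t, u))) y.2

/-- all pairs for all moves in which a feasible solution is presented -/
def allCands (k : K.El) (v : Ty.env.El) (h : List (Bool × List Bool)) :
    List (List Bool × (List Bool × List Bool)) :=
  (scan (fun z : (Bool × List Bool) × List (Bool × List Bool) × K.El × Ty.env.El =>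
    bif feasB H L z.2.2.2.1.1 (norm (S (z.2.2.2.1.1, z.2.1)).2.2) then
    cands H z.2.2.1 z.2.2.2.2.1 z.2.2.2.2.2 (decY (norm (S (z.2.2.2.1.1, z.2.1)).2.2)) else [])
    (k, v) h).flatMap fun l => l

/-- the pair is a collision -/
def colB (k : K.El) (z : List Bool × (List Bool × List Bool)) : Bool :=
  ((!decide (z.2.1 = z.2.2)) && decide (H (k, z.1, z.2.1) = H (k, z.1, z.2.2))) &&
    (len2 (L k) z.2.1 && len2 (L k) z.2.2)

/-- the first collision in a list -/
def pick (k : K.El) : List (List Bool × (List Bool × List Bool)) →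
    List Bool × (List Bool × List Bool)
  | [] => ([], ([], []))
  | z :: l => bif colB H L k z then z else pick k l

/-- the algorithm -/
def finder (pad : Polynomial ℕ) (v : K.El × List (List Bool)) :
    List Bool × (List Bool × List Bool) :=
  pick H L v.1 (allCands H L S v.1 (envA H pad v.1 v.2)
    (histN H L g S (envA H pad v.1 v.2) v.2))

end

section pf

variable {H : K.El × List Bool × List Bool → List Bool} {L : K.El → List Bool} {g : κ.El → Bool}
  {S : List Bool × Ty.history.El → (Ty.move κ).El}

theorem pf_tabA (hH : PF A (.prod K (.prod .word .word)) .word H) (hL : PF A K .word L)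
    (hlen : ∀ k w u, (H (k, w, u)).length = (L k).length) {k : a.El → K.El}
    {rs : a.El → List (List Bool)} (hk : PF A a K k) (hrs : PF A a (.list .word) rs) :
    PF A a (.list .word) (fun v => tabA H (k v) (rs v)) :=
  pf_tab hH hL hlen hk (PF.slots hrs) (PF.slots hrs)

theorem pf_envA (hH : PF A (.prod K (.prod .word .word)) .word H) (hL : PF A K .word L)
    (hlen : ∀ k w u, (H (k, w, u)).length = (L k).length) {k : a.El → K.El}
    {rs : a.El → List (List Bool)} (hk : PF A a K k) (hrs : PF A a (.list .word) rs)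
    (pad : Polynomial ℕ) : PF A a .env (fun v => envA H pad (k v) (rs v)) := by
  have ht := pf_tabA hH hL hlen hk hrs
  have hLn := PF.binLength hrs
  have hk1 : PF A a .word (fun v => List.replicate (K.size (k v)) true) :=
    (PF.sizeList K).comp hk
  have hX : PF A a .word (fun v => inpX H pad (k v) (rs v)) :=
    (PF.enc (.prod (Ty.inst K) .word) ((hk.pair ((ht.headD (PF.nil _ _)).pair hLn)).pair
      (PF.polyList hk1 pad))).append (PF.const .word [true])
  exact (hX.pair hLn).pair (ht.pair (PF.slots hrs))

theorem pf_adv (hH : PF A (.prod K (.prod .word .word)) .word H) (hL : PF A K .word L)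
    (hlen : ∀ k w u, (H (k, w, u)).length = (L k).length) {v : a.El → Ty.env.El}
    {Y : a.El → List Bool}
    (hv : PF A a .env v) (hY : PF A a .word Y) :
    PF A a (.prod .bool .word) (fun s => adv H L (v s) (Y s)) := by
  have hi := (PF.idx (PF.decY hY).snd').incr
  exact hY.isEmpty.cond' ((PF.ff _).pair (PF.codeN hv.snd'.fst' hv.snd'.snd' hv.fst'.snd'))
    ((pf_feasB hH hL hlen hv.fst'.fst' hY).cond'
      ((hi.valLT ((PF.ff _).cons' hv.fst'.snd')).cond'
      ((PF.ff _).pair (PF.codeN hv.snd'.fst' hv.snd'.snd' hi)) ((PF.tt _).pair (PF.nil _ _)))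
      ((PF.ff _).pair (PF.nil _ _)))

theorem size_adv (hH : PF A (.prod K (.prod .word .word)) .word H) (hL : PF A K .word L)
    (hlen : ∀ k w u, (H (k, w, u)).length = (L k).length) :
    ∃ B : Polynomial ℕ, ∀ v Y,
      Ty.size (.prod .bool .word) (adv H L v Y) ≤ B.eval (Ty.env.size v) := by
  have hY : PF A (.prod .env .word) .word (fun z => z.2) := PF.snd _ _
  have hv : PF A (.prod .env .word) .env (fun z => z.1) := PF.fst _ _
  obtain ⟨p, hp⟩ := (pf_adv hH hL hlen hv hY).bound
  refine ⟨p.comp (2 * Polynomial.X) + 3, fun v Y => ?_⟩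
  have h1 := hp (v, Y)
  by_cases hc : Y.isEmpty = true ∨ feasB H L v.1.1 Y = true
  · have h2 : 2 * Y.length ≤ Ty.env.size v := by
      have h3 : 2 * v.1.1.length ≤ Ty.env.size v := by
        simp only [size_prod, size_word]
        omega
      rcases hc with hc | hc
      · rw [List.isEmpty_iff] at hc
        rw [hc]; simp
      · simp only [feasB, Bool.and_eq_true, decide_eq_true_eq, List.length_cons] at hc
        omega
    simp only [Polynomial.eval_add, Polynomial.eval_comp, Polynomial.eval_mul,
      Polynomial.eval_ofNat, Polynomial.eval_X]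
    have h4 : p.eval (Ty.size (.prod .env .word) (v, Y)) ≤ p.eval (2 * Ty.env.size v) := by
      refine eval_mono _ ?_
      rw [size_prod, size_word]
      simp only
      omega
    simp only at h1
    omega
  · rw [not_or] at hc
    have h2 : adv H L v Y = (false, []) := by
      rw [adv, Bool.eq_false_iff.2 hc.1, Bool.eq_false_iff.2 hc.2, cond_false, cond_false]
    rw [h2]
    simp only [size_prod, size_bool, size_word, List.length_nil, Polynomial.eval_add,
      Polynomial.eval_ofNat]
    omega

theorem pf_ans (hH : PF A (.prod K (.prod .word .word)) .word H) (hL : PF A K .word L)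
    (hlen : ∀ k w u, (H (k, w, u)).length = (L k).length) (hg : PF A κ .bool g)
    {v : a.El → Ty.env.El}
    {m : a.El → (Ty.move κ).El} (hv : PF A a .env v) (hm : PF A a (.move κ) m) :
    PF A a (.prod .bool .word) (fun s => ans H L g (v s) (m s)) :=
  (hm.fst'.fst'.and' hm.fst'.snd').cond' (pf_adv hH hL hlen hv hm.snd'.snd'.norm)
    ((hm.fst'.fst'.and' (hg.comp hm.snd'.fst')).pair (PF.nil _ _))

theorem pf_histN (hH : PF A (.prod K (.prod .word .word)) .word H) (hL : PF A K .word L)
    (hlen : ∀ k w u, (H (k, w, u)).length = (L k).length) (hg : PF A κ .bool g)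
    (hS : PF A (.prod .word .history) (.move κ) S) {v : a.El → Ty.env.El}
    {l : a.El → List (List Bool)} (hv : PF A a .env v) (hl : PF A a (.list .word) l) :
    PF A a .history (fun s => histN H L g S (v s) (l s)) := by
  obtain ⟨B, hB⟩ := size_adv hH hL hlen
  obtain ⟨p, hp⟩ := hv.bound
  have hv' : PF A (.prod .word (.prod (.list .word) (.prod a .history))) .env
    (fun z => v z.2.2.1) := hv.comp (PF.snd _ _).snd'.fst'
  have hh : PF A (.prod .word (.prod (.list .word) (.prod a .history))) .history
      (fun z => Owf.ans H L g (v z.2.2.1) (S ((v z.2.2.1).1.1, z.2.2.2)) :: z.2.2.2) :=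
    (pf_ans hH hL hlen hg hv' (hS.comp (hv'.fst'.fst'.pair (PF.snd _ _).snd'.snd'))).cons'
      (PF.snd _ _).snd'.snd'
  refine PF.rec' (f := fun z => Owf.histN H L g S (v z.2) z.1) hl (PF.nil _ _) hh
    (fun s => rfl) (fun e l s => rfl) (B.comp p + 2) fun e l s r => ?_
  rw [size_cons (a := .prod .bool .word)]
  have h1 : Ty.size (.prod .bool .word) (Owf.ans H L g (v s) (S ((v s).1.1, r))) ≤
      B.eval (Ty.env.size (v s)) + 1 := by
    rw [Owf.ans]
    generalize S ((v s).1.1, r) = m
    cases m.1.1 && m.1.2
    · simp only [cond_false, size_prod, size_bool, size_word, List.length_nil]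
      omega
    · simp only [cond_true]
      exact (hB _ _).trans (Nat.le_succ _)
  have h2 : B.eval (Ty.env.size (v s)) ≤ B.eval (p.eval (Ty.size .word e +
      Ty.size (.list .word) l + a.size s)) :=
    eval_mono _ ((hp s).trans (eval_mono _ (Nat.le_add_left _ _)))
  simp only [Polynomial.eval_add, Polynomial.eval_comp, Polynomial.eval_ofNat]
  have h3 : Ty.size (.list (.prod .bool .word)) r = Ty.size .history r := rfl
  omega

theorem pf_pairAt (hH : PF A (.prod K (.prod .word .word)) .word H) (hL : PF A K .word L)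
    (hlen : ∀ k w u, (H (k, w, u)).length = (L k).length) :
    PF A (.prod (.prod .bool .word) (.prod (.list (.prod .bool .word)) (Ty.tst K))) Ty.pos
      (pairAt H) := by
  have he : PF A (.prod (.prod .bool .word) (.prod (.list (.prod .bool .word)) (Ty.tst K)))
      (.prod .bool .word) (fun z => z.1) := PF.fst _ _
  have hP : PF A (.prod (.prod .bool .word) (.prod (.list (.prod .bool .word)) (Ty.tst K)))
      (.list (.prod .bool .word)) (fun z => z.2.1) := (PF.snd _ _).fst'
  have hs : PF A (.prod (.prod .bool .word) (.prod (.list (.prod .bool .word)) (Ty.tst K)))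
      (Ty.tst K) (fun z => z.2.2) := (PF.snd _ _).snd'
  have hc := pf_cur hH hL hlen hs.fst' (PF.idx hs.snd'.fst'.snd') hs.snd'.fst'.fst' hP
  have hj : PF A (.prod (.prod .bool .word) (.prod (.list (.prod .bool .word)) (Ty.tst K)))
      .word (fun z => (Alg.idx z.2.2.2.1.2).drop (z.1 :: z.2.1).length) :=
    PF.drop (b := .prod .bool .word) (he.cons' hP) (PF.idx hs.snd'.fst'.snd')
  exact hj.pair ((he.fst'.cond' (he.snd'.append hc) (hc.append he.snd')).pair
    ((PF.look hs.snd'.snd'.fst' hs.snd'.snd'.snd' ((PF.ff _).cons' hj)).append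
      (PF.look hs.snd'.snd'.fst' hs.snd'.snd'.snd' ((PF.tt _).cons' hj))))

theorem pf_cands (hH : PF A (.prod K (.prod .word .word)) .word H) (hL : PF A K .word L)
    (hlen : ∀ k w u, (H (k, w, u)).length = (L k).length) {k : a.El → K.El}
    {t u : a.El → List (List Bool)} {y : a.El → Ty.auth.El} (hk : PF A a K k)
    (ht : PF A a (.list .word) t) (hu : PF A a (.list .word) u) (hy : PF A a .auth y) :
    PF A a (.list Ty.pos) (fun v => cands H (k v) (t v) (u v) (y v)) :=
  ((PF.idx hy.snd').pair (hy.fst'.pair (PF.look hu hu (PF.idx hy.snd')))).cons'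
    (PF.scan (b := .prod .bool .word) (pf_pairAt hH hL hlen) hy.snd'
      (hk.pair (hy.pair (ht.pair hu))))

theorem pf_allCands (hH : PF A (.prod K (.prod .word .word)) .word H) (hL : PF A K .word L)
    (hlen : ∀ k w u, (H (k, w, u)).length = (L k).length)
    (hS : PF A (.prod .word .history) (.move κ) S) {k : a.El → K.El}
    {v : a.El → Ty.env.El} {h : a.El → Ty.history.El} (hk : PF A a K k)
    (hv : PF A a .env v) (hh : PF A a .history h) :
    PF A a (.list Ty.pos) (fun s => allCands H L S (k s) (v s) (h s)) := by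
  have h0 : PF A (.prod (.prod .bool .word) (.prod .history (.prod K .env)))
      (.prod K .env) (fun z => z.2.2) := (PF.snd _ _).snd'
  have h1 : PF A (.prod (.prod .bool .word) (.prod .history (.prod K .env)))
      (.list Ty.pos) (fun z =>
        bif feasB H L z.2.2.2.1.1 (Alg.norm (S (z.2.2.2.1.1, z.2.1)).2.2) then
        Owf.cands H z.2.2.1 z.2.2.2.2.1 z.2.2.2.2.2
          (Alg.decY (Alg.norm (S (z.2.2.2.1.1, z.2.1)).2.2)) else []) :=
    (pf_feasB hH hL hlen h0.snd'.fst'.fst'
      (hS.comp (h0.snd'.fst'.fst'.pair (PF.snd _ _).fst')).snd'.snd'.norm).cond'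
    (pf_cands hH hL hlen h0.fst' h0.snd'.snd'.fst' h0.snd'.snd'.snd'
      (PF.decY (hS.comp (h0.snd'.fst'.fst'.pair (PF.snd _ _).fst')).snd'.snd'.norm))
    (PF.nil _ _)
  exact PF.flatMap (b := .list Ty.pos) (c := Ty.pos) (φ := fun z => z.1)
    (PF.scan (b := .prod .bool .word) (c := .list Ty.pos) h1 hh (hk.pair hv)) (PF.fst _ _)

theorem pf_colB (hH : PF A (.prod K (.prod .word .word)) .word H) (hL : PF A K .word L)
    {k : a.El → K.El}
    {z : a.El → Ty.pos.El} (hk : PF A a K k) (hz : PF A a Ty.pos z) :
    PF A a .bool (fun v => colB H L (k v) (z v)) :=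
  ((hz.snd'.fst'.wordEq hz.snd'.snd').not'.and'
    ((pf_hash hH hk hz.fst' hz.snd'.fst').wordEq (pf_hash hH hk hz.fst' hz.snd'.snd'))).and'
    ((PF.len2 (hL.comp hk) hz.snd'.fst').and' (PF.len2 (hL.comp hk) hz.snd'.snd'))

theorem pf_pick (hH : PF A (.prod K (.prod .word .word)) .word H) (hL : PF A K .word L)
    {k : a.El → K.El}
    {l : a.El → List Ty.pos.El} (hk : PF A a K k) (hl : PF A a (.list Ty.pos) l) :
    PF A a Ty.pos (fun v => pick H L (k v) (l v)) := by
  have hh : PF A (.prod Ty.pos (.prod (.list Ty.pos) (.prod a Ty.pos))) Ty.pos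
      (fun v => bif Owf.colB H L (k v.2.2.1) v.1 then v.1 else v.2.2.2) :=
    (pf_colB hH hL (hk.comp (PF.snd _ _).snd'.fst') (PF.fst _ _)).cond' (PF.fst _ _)
      (PF.snd _ _).snd'.snd'
  refine PF.rec' (f := fun v => Owf.pick H L (k v.2) v.1) hl (PF.const Ty.pos ([], ([], []))) hh
    (fun s => rfl) (fun e l s => rfl) Polynomial.X fun e l s r => ?_
  simp only [Polynomial.eval_X]
  cases Owf.colB H L (k s) e
  · simp only [cond_false]; exact Nat.le_add_right _ _
  · simp only [cond_true]; omega

theorem pf_finder (hH : PF A (.prod K (.prod .word .word)) .word H) (hL : PF A K .word L)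
    (hlen : ∀ k w u, (H (k, w, u)).length = (L k).length) (hg : PF A κ .bool g)
    (hS : PF A (.prod .word .history) (.move κ) S) (pad : Polynomial ℕ) :
    PF A (.prod K (.list .word)) Ty.pos (finder H L g S pad) := by
  have hv := pf_envA hH hL hlen (PF.fst K (.list .word)) (PF.snd K (.list .word)) pad
  exact pf_pick hH hL (PF.fst _ _) (pf_allCands hH hL hlen hS (PF.fst _ _) hv
    (pf_histN hH hL hlen hg hS hv (PF.snd _ _)))

end pf

end Pool.Agent.Lib.MP_2b5695_lc.Owf
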