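import Pool.Agent.Lib.MP_2b5695_lc.Owf.PSim
import Pool.Agent.Lib.MP_2b5695_lc.Alg.HashTree

/-!
Merkle trees with a position dependent hash function: the tree of the adversary.
-/

namespace Pool.Agent.Lib.MP_2b5695_lc.Owf

open Alg

section

variable {K : Ty} {H : K.El × List Bool × List Bool → List Bool} {L : K.El → List Bool}

theorem length_tab (k : K.El) (n : ℕ) : ∀ l, (tab H k n l).length = l.length
  | [] => rfl
  | r :: l => by rw [tab, List.length_cons, List.length_cons, length_tab k n l]

theorem drop_tab (k : K.El) (n : ℕ) : ∀ (l : List (List Bool)) (j : ℕ),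
    (tab H k n l).drop j = tab H k n (l.drop j)
  | l, 0 => by simp
  | [], j + 1 => by simp [tab]
  | r :: l, j + 1 => by rw [tab, List.drop_succ_cons, List.drop_succ_cons, drop_tab k n l j]

variable (H) in
/-- the words have the same hash at every position -/
def Same (k : K.El) (n : ℕ) : List (List Bool) → List (List Bool) → Prop
  | [], [] => True
  | r :: l, r' :: l' => (H (k, Nat.bits (n - l.length), r) = H (k, Nat.bits (n - l.length), r') ∧
      l.length = l'.length) ∧ Same k n l l'
  | _, _ => False

theorem tab_congr (k : K.El) (n : ℕ) : ∀ {l l' : List (List Bool)},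
    Same H k n l l' → tab H k n l = tab H k n l'
  | [], [], _ => rfl
  | r :: l, r' :: l', ⟨⟨h1, h2⟩, h3⟩ => by
    rw [tab, tab, tab_congr k n h3, h2]
    congr 1
    cases ((tab H k n l').drop (n - l'.length - 1)).isEmpty
    · rfl
    · rw [h2] at h1
      exact h1

variable (H) in
/-- the hash of the node `i` -/
def hashAt (k : K.El) (rs : List (List Bool)) (i : ℕ) : List Bool :=
  ((tabA H k rs).drop (i - 1)).headD []

variable {k : K.El} {rs : List (List Bool)}

theorem tab_cons_eq {l : List (List Bool)} {r : List Bool} {n : ℕ} :
    (tab H k n (r :: l)).headD [] = H (k, Nat.bits (n - l.length),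
      bif (tab H k n (l.drop (n - l.length - 1))).isEmpty
      then r else (tab H k n (l.drop (n - l.length - 1))).headD [] ++
        (tab H k n (l.drop (n - l.length))).headD []) := by
  rw [tab, List.headD_cons, drop_tab, drop_tab]

theorem hashAt_leaf {i : ℕ} (h0 : 0 < rs.length) (h1 : rs.length ≤ i) (h2 : i < 2 * rs.length) :
    hashAt H k rs i = H (k, Nat.bits i, leafAt rs i) := by
  have hne : rs ≠ [] := List.ne_nil_of_length_pos h0
  have hn := length_slots hne
  rw [hashAt, tabA, drop_tab, slots_drop h1 h0, leafAt]
  have h3 : i - rs.length < rs.length := by omega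
  rw [List.drop_eq_getElem_cons h3, tab_cons_eq, List.headD_cons]
  have h4 : (List.drop (i - rs.length + 1) rs).drop ((slots rs).length -
      (List.drop (i - rs.length + 1) rs).length - 1) = [] := by
    rw [List.drop_drop, hn, List.length_drop]
    exact List.drop_eq_nil_of_le (by omega)
  have h5 : (slots rs).length - (List.drop (i - rs.length + 1) rs).length = i := by
    rw [hn, List.length_drop]; omega
  rw [h4, h5]
  rfl

theorem hashAt_node {i : ℕ} (h0 : 0 < i) (h1 : i < rs.length) :
    hashAt H k rs i = H (k, Nat.bits i, hashAt H k rs (2 * i) ++ hashAt H k rs (2 * i + 1)) := by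
  have hne : rs ≠ [] := List.ne_nil_of_length_pos (by omega)
  have hn := length_slots hne
  rw [hashAt, hashAt, hashAt, tabA]
  simp only [drop_tab]
  have h3 : i - 1 < (slots rs).length := by omega
  rw [List.drop_eq_getElem_cons h3, tab_cons_eq]
  have e1 : (List.drop (i - 1 + 1) (slots rs)).drop ((slots rs).length -
      (List.drop (i - 1 + 1) (slots rs)).length - 1) = (slots rs).drop (2 * i - 1) := by
    rw [List.drop_drop, List.length_drop]
    congr 1
    omega
  have e2 : (List.drop (i - 1 + 1) (slots rs)).drop ((slots rs).length -
      (List.drop (i - 1 + 1) (slots rs)).length) = (slots rs).drop (2 * i + 1 - 1) := by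
    rw [List.drop_drop, List.length_drop]
    congr 1
    omega
  have e4 : (slots rs).length - (List.drop (i - 1 + 1) (slots rs)).length = i := by
    rw [List.length_drop]; omega
  rw [e1, e2, e4]
  have e3 : (tab H k (slots rs).length ((slots rs).drop (2 * i - 1))).isEmpty = false := by
    rw [Bool.eq_false_iff]
    intro hc
    rw [List.isEmpty_iff, ← List.length_eq_zero_iff, length_tab, List.length_drop] at hc
    omega
  rw [e3, cond_false]

theorem length_hashAt (hlen : ∀ k w u, (H (k, w, u)).length = (L k).length) {i : ℕ} (h0 : 0 < i)
    (h1 : i < 2 * rs.length) : (hashAt H k rs i).length = (L k).length := by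
  rcases lt_or_ge i rs.length with h | h
  · rw [hashAt_node h0 h, hlen]
  · rw [hashAt_leaf (by omega) h h1, hlen]

theorem look_tabA {i : ℕ} (h0 : 0 < i) (h1 : i < 2 * rs.length) :
    look (slots rs).length (Nat.bits i) (tabA H k rs) = hashAt H k rs i := by
  have hne : rs ≠ [] := List.ne_nil_of_length_pos (by omega)
  have hn := length_slots hne
  rw [look_full (by rw [tabA, length_tab]) h0 (by omega), hashAt]

variable (H) in
/-- what is hashed at the node `i` of the tree of the adversary -/
def honAt (k : K.El) (rs : List (List Bool)) (i : ℕ) : List Bool :=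
  if i < rs.length then hashAt H k rs (2 * i) ++ hashAt H k rs (2 * i + 1) else leafAt rs i

theorem hashAt_hon {i : ℕ} (h0 : 0 < i) (h1 : i < 2 * rs.length) :
    hashAt H k rs i = H (k, Nat.bits i, honAt H k rs i) := by
  rw [honAt]
  split_ifs with h
  · exact hashAt_node h0 h
  · exact hashAt_leaf (by omega) (by omega) h1

variable (H) in
/-- the hash of the root computed from the hash of a node and the path to this node -/
def curB (k : K.El) (w s : List Bool) : List (Bool × List Bool) → List Bool
  | [] => s
  | e :: P => H (k, w.drop (P.length + 1),
      bif e.1 then e.2 ++ curB k w s P else curB k w s P ++ e.2)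

theorem cur_eq {w r : List Bool} : ∀ P, cur H k w r P = curB H k w (H (k, w, r)) P
  | [] => rfl
  | e :: P => by rw [cur, curB, cur_eq P]

theorem curB_append {w s : List Bool} {Q : List (Bool × List Bool)} : ∀ P,
    curB H k w s (P ++ Q) = curB H k (w.drop Q.length) (curB H k w s Q) P
  | [] => rfl
  | e :: P => by
    rw [List.cons_append, curB, curB, curB_append P, List.drop_drop, List.length_append]
    congr 3
    congr 1
    omega

/-- properties of the path of the adversary -/
theorem path_props (hlen : ∀ k w u, (H (k, w, u)).length = (L k).length) :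
    ∀ i, 0 < i → i < 2 * rs.length →
    idx (pathN (tabA H k rs) (slots rs) (Nat.bits i)) = Nat.bits i ∧
    curB H k (Nat.bits i) (hashAt H k rs i) (pathN (tabA H k rs) (slots rs) (Nat.bits i)) =
      hashAt H k rs 1 ∧
    (∀ e ∈ pathN (tabA H k rs) (slots rs) (Nat.bits i), e.2.length = (L k).length) ∧
    (pathN (tabA H k rs) (slots rs) (Nat.bits i)).length + 1 = (Nat.bits i).length := by
  intro i
  induction i using Nat.strong_induction_on with
  | _ i ih =>
    intro h0 h1
    rcases Nat.lt_or_ge 1 i with h | h
    · obtain ⟨h2, h3, h4, h5⟩ := ih (i / 2) (by omega) (by omega) (by omega)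
      have hq : Nat.bits (i / 2) ≠ [] := bits_ne_nil (by omega)
      rw [bits_step h, pathN_cons hq]
      have hnode := hashAt_node (H := H) (k := k) (rs := rs) (i := i / 2) (by omega) (by omega)
      have hs : look (slots rs).length ((!decide (i % 2 = 1)) :: Nat.bits (i / 2)) (tabA H k rs) =
          hashAt H k rs (if i % 2 = 1 then i - 1 else i + 1) := by
        have : (!decide (i % 2 = 1)) :: Nat.bits (i / 2) =
            Nat.bits (if i % 2 = 1 then i - 1 else i + 1) := by
          rw [bits_step (i := if i % 2 = 1 then i - 1 else i + 1) (by split_ifs <;> omega)]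
          split_ifs with h6
          · have e1 : (i - 1) / 2 = i / 2 := by omega
            have e2 : ¬ ((i - 1) % 2 = 1) := by omega
            simp [e1, e2, h6]
          · have e1 : (i + 1) / 2 = i / 2 := by omega
            have e2 : (i + 1) % 2 = 1 := by omega
            simp [e1, e2, h6]
        rw [this]
        refine look_tabA ?_ ?_
        · split_ifs <;> omega
        · split_ifs <;> omega
      rw [hs]
      refine ⟨?_, ?_, ?_, ?_⟩
      · rw [idx_append, h2]
      · rw [curB_append]
        have : curB H k (decide (i % 2 = 1) :: Nat.bits (i / 2)) (hashAt H k rs i)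
            [(decide (i % 2 = 1),
            hashAt H k rs (if i % 2 = 1 then i - 1 else i + 1))] = hashAt H k rs (i / 2) := by
          rw [curB, curB, hnode]
          simp only [List.length_nil, Nat.zero_add, List.drop_succ_cons, List.drop_zero]
          by_cases h6 : i % 2 = 1
          · have e1 : 2 * (i / 2) = i - 1 := by omega
            have e2 : i - 1 + 1 = i := by omega
            rw [e1, e2]
            simp [h6]
          · have e1 : 2 * (i / 2) = i := by omega
            rw [e1]
            simp [h6]
        rw [this]
        simp only [List.length_cons, List.length_nil, Nat.zero_add, List.drop_succ_cons,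
          List.drop_zero]
        exact h3
      · intro e he
        rcases List.mem_append.1 he with he | he
        · exact h4 e he
        · rw [List.mem_singleton.1 he]
          refine length_hashAt hlen ?_ ?_
          · split_ifs <;> omega
          · split_ifs <;> omega
      · simp only [List.length_append, List.length_cons, List.length_nil]
        omega
    · have : i = 1 := by omega
      subst this
      rw [Nat.one_bits, pathN_one]
      exact ⟨rfl, rfl, by simp, rfl⟩

/-- a collision at a node of the tree of the adversary -/
def NodeCol (H : K.El × List Bool × List Bool → List Bool) (L : K.El → List Bool) (k : K.El)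
    (rs : List (List Bool)) (z : List Bool × (List Bool × List Bool)) : Prop :=
  ∃ i, 0 < i ∧ i < 2 * rs.length ∧ z.1 = Nat.bits i ∧ z.2.2 = honAt H k rs i ∧
    z.2.1.length = 2 * (L k).length ∧ z.2.1 ≠ z.2.2 ∧ H (k, z.1, z.2.1) = H (k, z.1, z.2.2)

/-- the value of a dropped word -/
theorem val_drop (w : List Bool) (s : ℕ) : val w / 2 ^ s = val (w.drop s) := by
  induction s generalizing w with
  | zero => simp
  | succ s ih =>
    cases w with
    | nil => simp [val]
    | cons b w =>
      rw [List.drop_succ_cons, ← ih, val, Nat.bit_val, pow_succ, Nat.mul_comm (2 ^ s),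
        ← Nat.div_div_eq_div_mul]
      congr 1
      cases b <;> simp <;> omega

/-- the candidates are pairs at nodes of the tree -/
theorem cands_hon {y : List Bool × List (Bool × List Bool)}
    (hy : rs.length ≤ val (idx y.2)) (hy' : val (idx y.2) < 2 * rs.length)
    {z : List Bool × (List Bool × List Bool)}
    (hz : z ∈ cands H k (tabA H k rs) (slots rs) y) :
    ∃ i, 0 < i ∧ i < 2 * rs.length ∧ z.1 = Nat.bits i ∧ z.2.2 = honAt H k rs i := by
  have hidx : Nat.bits (val (idx y.2)) = idx y.2 := bits_append_true _
  rw [cands] at hz
  rcases List.mem_cons.1 hz with rfl | hz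
  · refine ⟨val (idx y.2), ?_, hy', hidx.symm, ?_⟩
    · have := val_append_true_pos ((y.2.map Prod.fst).reverse)
      exact this
    · simp only
      rw [honAt, if_neg (by omega), ← hidx, val_bits, look_slots hy hy']
  · -- a node on the path
    have key : ∀ (Q P0 : List (Bool × List Bool)), y.2 = P0 ++ Q →
        z ∈ scan (pairAt H) (k, (y, (tabA H k rs, slots rs))) Q →
        ∃ i, 0 < i ∧ i < 2 * rs.length ∧ z.1 = Nat.bits i ∧ z.2.2 = honAt H k rs i := by
      intro Q
      induction Q with
      | nil => intro P0 _ h; cases h
      | cons e Q ih =>
        intro P0 hP0 h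
        rw [scan] at h
        rcases List.mem_cons.1 h with rfl | h
        · have hdrop : (idx y.2).drop (e :: Q).length = (P0.map Prod.fst).reverse ++ [true] := by
            rw [idx, hP0, List.map_append, List.reverse_append, List.append_assoc,
              List.drop_append, List.drop_eq_nil_of_le (by simp), List.nil_append]
            simp
          have hval : val (idx y.2) / 2 ^ (e :: Q).length =
              val ((P0.map Prod.fst).reverse ++ [true]) := by
            rw [← hdrop, val_drop]
          set J := val ((P0.map Prod.fst).reverse ++ [true]) with hJ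
          have hJbits : Nat.bits J = (P0.map Prod.fst).reverse ++ [true] := bits_append_true _
          have hJpos : 0 < J := val_append_true_pos _
          have hJlt : J < rs.length := by
            have h6 : J ≤ val (idx y.2) / 2 := by
              rw [← hval, List.length_cons, pow_succ, Nat.mul_comm (2 ^ Q.length),
                ← Nat.div_div_eq_div_mul]
              exact Nat.div_le_self _ _
            omega
          have hJ2 : Nat.bits (2 * J) = false :: Nat.bits J := by
            rw [bits_step (by omega)]
            have e1 : 2 * J / 2 = J := by omega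
            have e2 : ¬ (2 * J % 2 = 1) := by omega
            rw [e1, decide_eq_false e2]
          have hJ3 : Nat.bits (2 * J + 1) = true :: Nat.bits J := by
            rw [bits_step (by omega)]
            have e1 : (2 * J + 1) / 2 = J := by omega
            have e2 : (2 * J + 1) % 2 = 1 := by omega
            rw [e1, decide_eq_true e2]
          refine ⟨J, hJpos, by omega, ?_, ?_⟩
          · rw [pairAt]
            simp only
            rw [hdrop, hJbits]
          · rw [pairAt]
            simp only
            rw [hdrop, ← hJbits, ← hJ2, ← hJ3, look_tabA (by omega) (by omega),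
              look_tabA (by omega) (by omega), honAt, if_pos hJlt]
        · exact ih (P0 ++ [e]) (by rw [hP0]; simp) h
    exact key y.2 [] rfl hz

/-- a correct solution without collisions has the word of the adversary at its leaf -/
theorem leaf_of_ok (hlen : ∀ k w u, (H (k, w, u)).length = (L k).length) (h0 : 0 < rs.length)
    (hrs : ∀ r ∈ rs, r.length = 2 * (L k).length) {y : List Bool × List (Bool × List Bool)}
    (hy : okB H L (instA H k rs) y = true)
    (hc : ∀ z ∈ cands H k (tabA H k rs) (slots rs) y, colB H L k z = false) :
    y.1 = leafAt rs (val (idx y.2)) := by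
  rw [okB_iff] at hy
  obtain ⟨h1, h2, h3, h4, h5⟩ := hy
  simp only [instA] at h1 h2 h3 h4 h5
  rw [val_bits] at h4 h5
  have hroot : (tabA H k rs).headD [] = hashAt H k rs 1 := by
    rw [hashAt]; rfl
  rw [hroot] at h1
  have hidx : Nat.bits (val (idx y.2)) = idx y.2 := bits_append_true _
  -- going down the path
  have key : ∀ (Q P0 : List (Bool × List Bool)), y.2 = P0 ++ Q →
      (∀ z ∈ scan (pairAt H) (k, (y, (tabA H k rs, slots rs))) Q, colB H L k z = false) →
      cur H k (idx y.2) y.1 Q = hashAt H k rs (val ((P0.map Prod.fst).reverse ++ [true])) →
      H (k, idx y.2, y.1) = hashAt H k rs (val (idx y.2)) := by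
    intro Q
    induction Q with
    | nil =>
      intro P0 hP0 _ hcur
      rw [List.append_nil] at hP0
      rw [cur] at hcur
      rw [hcur, idx, hP0]
    | cons e Q ih =>
      intro P0 hP0 hcol hcur
      have hPe : y.2 = (P0 ++ [e]) ++ Q := by rw [hP0]; simp
      have hsc := hcol _ (List.mem_cons_self (a := pairAt H (e, Q, (k, (y, (tabA H k rs, slots rs))))))
      have hdrop : (idx y.2).drop (e :: Q).length = (P0.map Prod.fst).reverse ++ [true] := by
        rw [idx, hP0, List.map_append, List.reverse_append, List.append_assoc, List.drop_append,
          List.drop_eq_nil_of_le (by simp), List.nil_append]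
        simp
      have hval : val (idx y.2) / 2 ^ (e :: Q).length =
          val ((P0.map Prod.fst).reverse ++ [true]) := by
        rw [← hdrop, val_drop]
      set J := val ((P0.map Prod.fst).reverse ++ [true]) with hJ
      have hJbits : Nat.bits J = (P0.map Prod.fst).reverse ++ [true] := bits_append_true _
      have hJpos : 0 < J := val_append_true_pos _
      have hJlt : J < rs.length := by
        have h6 : J ≤ val (idx y.2) / 2 := by
          rw [← hval, List.length_cons, pow_succ, Nat.mul_comm (2 ^ Q.length),
            ← Nat.div_div_eq_div_mul]
          exact Nat.div_le_self _ _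
        omega
      have hJ2 : Nat.bits (2 * J) = false :: Nat.bits J := by
        rw [bits_step (by omega)]
        have e1 : 2 * J / 2 = J := by omega
        have e2 : ¬ (2 * J % 2 = 1) := by omega
        rw [e1, decide_eq_false e2]
      have hJ3 : Nat.bits (2 * J + 1) = true :: Nat.bits J := by
        rw [bits_step (by omega)]
        have e1 : (2 * J + 1) / 2 = J := by omega
        have e2 : (2 * J + 1) % 2 = 1 := by omega
        rw [e1, decide_eq_true e2]
      have hpair : pairAt H (e, Q, (k, (y, (tabA H k rs, slots rs)))) =
          (Nat.bits J, (bif e.1 then e.2 ++ cur H k (idx y.2) y.1 Q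
            else cur H k (idx y.2) y.1 Q ++ e.2,
            hashAt H k rs (2 * J) ++ hashAt H k rs (2 * J + 1))) := by
        rw [pairAt]
        simp only
        rw [hdrop, ← hJbits, ← hJ2, ← hJ3, look_tabA (by omega) (by omega),
          look_tabA (by omega) (by omega)]
      rw [hpair] at hsc
      have hcurlen : ∀ Q', (cur H k (idx y.2) y.1 Q').length = (L k).length := fun Q' => by
        cases Q' <;> rw [cur, hlen]
      have helen : e.2.length = (L k).length := h3 e (by rw [hP0]; simp)
      have hl1 := length_hashAt (k := k) (rs := rs) hlen (i := 2 * J) (by omega) (by omega)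
      have hl2 := length_hashAt (k := k) (rs := rs) hlen (i := 2 * J + 1) (by omega) (by omega)
      have heq : (bif e.1 then e.2 ++ cur H k (idx y.2) y.1 Q else
          cur H k (idx y.2) y.1 Q ++ e.2) =
          hashAt H k rs (2 * J) ++ hashAt H k rs (2 * J + 1) := by
        by_contra hne
        have h7 : colB H L k (Nat.bits J, (bif e.1 then e.2 ++ cur H k (idx y.2) y.1 Q else
            cur H k (idx y.2) y.1 Q ++ e.2,
            hashAt H k rs (2 * J) ++ hashAt H k rs (2 * J + 1))) = true := by
          rw [colB]
          simp only [Bool.and_eq_true, Bool.not_eq_true', decide_eq_false_iff_not,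
            decide_eq_true_eq, len2_iff]
          refine ⟨⟨hne, ?_⟩, ?_, ?_⟩
          · rw [← hashAt_node (H := H) (k := k) hJpos hJlt, ← hcur, cur]
            have : (idx y.2).drop (Q.length + 1) = Nat.bits J := by
              rw [hJbits, ← hdrop, List.length_cons]
            rw [this]
          · cases e.1 <;> simp [hcurlen, helen] <;> omega
          · rw [List.length_append, hl1, hl2]; omega
        rw [h7] at hsc
        exact Bool.noConfusion hsc
      have hnext : cur H k (idx y.2) y.1 Q =
          hashAt H k rs (val (((P0 ++ [e]).map Prod.fst).reverse ++ [true])) := by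
        have h8 : val (((P0 ++ [e]).map Prod.fst).reverse ++ [true]) = Nat.bit e.1 J := by
          rw [List.map_append, List.reverse_append]
          simp only [List.map_cons, List.map_nil, List.reverse_singleton, List.cons_append, val]
          rfl
        rw [h8, Nat.bit_val]
        cases h9 : e.1
        · rw [h9, cond_false] at heq
          have := (List.append_inj heq (by rw [hcurlen, hl1])).1
          simpa using this
        · rw [h9, cond_true] at heq
          have := (List.append_inj heq (by rw [helen, hl1])).2
          simpa using this
      exact ih (P0 ++ [e]) hPe (fun z hz => hcol z (List.mem_cons_of_mem _ hz)) hnext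
  have hfin := key y.2 [] rfl (fun z hz => hc z (List.mem_cons_of_mem _ hz)) (by rw [h1]; rfl)
  have hlk : look (slots rs).length (idx y.2) (slots rs) = leafAt rs (val (idx y.2)) := by
    rw [← hidx, val_bits, look_slots h4 (by omega)]
  have hmem := hc _ (List.mem_cons_self
    (a := (idx y.2, (y.1, look (slots rs).length (idx y.2) (slots rs)))))
  rw [hlk] at hmem
  by_contra hne
  have hleaf : (leafAt rs (val (idx y.2))).length = 2 * (L k).length := by
    rw [leafAt, List.drop_eq_getElem_cons (by omega), List.headD_cons]
    exact hrs _ (List.getElem_mem _)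
  have h7 : colB H L k (idx y.2, (y.1, leafAt rs (val (idx y.2)))) = true := by
    rw [colB]
    simp only [Bool.and_eq_true, Bool.not_eq_true', decide_eq_false_iff_not,
      decide_eq_true_eq, len2_iff]
    refine ⟨⟨hne, ?_⟩, h2, hleaf⟩
    rw [hfin, hashAt_leaf h0 h4 (by omega), hidx]
  rw [h7] at hmem
  exact Bool.noConfusion hmem

end

end Pool.Agent.Lib.MP_2b5695_lc.Owf
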