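import Pool.Agent.Lib.MP_2b5695_lc.Owf.Bridge
import Pool.Agent.Lib.MP_2b5695_lc.Owf.Core2
import Pool.Agent.Lib.MP_2b5695_lc.Owf.GoodA

/-!
Places in the tree; the inputs at these places.
-/

namespace Pool.Agent.Lib.MP_2b5695_lc.Owf

open Alg Finset

variable {n m i t a l q : ℕ}

/-- places: a node of the tree and a step of the computation of the hash of this node -/
abbrev Loc (q l : ℕ) := Fin (2 * q - 1) × Fin (2 * l)

/-- the random pads and leaves -/
abbrev Om (q l N : ℕ) := (Fin (l + 1) → Fin (2 * l) → BV N) × (Fin q → Fin (2 * l) → Bool)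

/-- the index of the node -/
def ndW (c : Loc q l) : List Bool := Nat.bits (c.1 + 1)

/-- the step -/
def stW (c : Loc q l) : List Bool := List.replicate c.2 true

theorem ndW_lt (hq : q ≤ 2 ^ l) (c : Loc q l) : (ndW c).tail.length < l + 1 := by
  have h1 := c.1.2
  have h2 : (Nat.bits (c.1 + 1)).length ≤ l + 1 := bits_length_le (by rw [pow_succ]; omega)
  rw [ndW, List.length_tail]
  have := List.length_pos_of_ne_nil (bits_ne_nil (Nat.succ_pos c.1))
  simp only [Nat.succ_eq_add_one] at this
  omega

theorem stW_lt (c : Loc q l) : (stW c).length < 2 * l := by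
  rw [stW, List.length_replicate]
  exact c.2.2

variable (f : List Bool × List Bool → List Bool) (aux : List Bool)
  (E : Ty.key.El × List (List Bool) → List Bool × (List Bool × List Bool))

/-- the input of the adversary at a place -/
def zHF (c : Loc q l) (g : BM i m) (G : BM a (t * n)) (h : BM l (t * i + a))
    (ω : Om q l (t * n)) : Fin t → BV n :=
  toX t n (inp f (keyOf aux n t g G h ω.1) (levelPads (keyOf aux n t g G h ω.1) (ndW c))
    (honAt (HH f) (keyOf aux n t g G h ω.1) (wordsOf ω.2) (c.1 + 1)) (stW c))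

/-- the input found at a place -/
def zEF (c : Loc q l) (g : BM i m) (G : BM a (t * n)) (h : BM l (t * i + a))
    (ω : Om q l (t * n)) : Fin t → BV n :=
  toX t n (inp f (keyOf aux n t g G h ω.1) (levelPads (keyOf aux n t g G h ω.1) (ndW c))
    (E (keyOf aux n t g G h ω.1, wordsOf ω.2)).2.1 (stW c))

/-- what is masked at a place -/
def preF (c : Loc q l) (g : BM i m) (G : BM a (t * n)) (h : BM l (t * i + a))
    (ω : Om q l (t * n)) : BV (t * n) :=
  toBV (t * n) (pre f (keyOf aux n t g G h ω.1) (levelPads (keyOf aux n t g G h ω.1) (ndW c))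
    (honW f (keyOf aux n t g G h ω.1) (wordsOf ω.2) (ndW c)) (stW c))

/-- planting an input at a place -/
def PlF (hq : q ≤ 2 ^ l) (c : Loc q l) (g : BM i m) (G : BM a (t * n)) (h : BM l (t * i + a))
    (ω : Om q l (t * n)) (X : Fin t → BV n) : Om q l (t * n) :=
  (Function.update ω.1 ⟨(ndW c).tail.length, ndW_lt hq c⟩
    (Function.update (ω.1 ⟨(ndW c).tail.length, ndW_lt hq c⟩) ⟨(stW c).length, stW_lt c⟩
      (preF f aux c g G h ω + flat X)), ω.2)

variable {f aux E}

theorem length_rows (g : BM i m) (G : BM a (t * n)) (h : BM l (t * i + a))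
    (π : Fin (l + 1) → Fin (2 * l) → BV (t * n)) : (keyOf aux n t g G h π).2.2.1.length = l := by
  simp [keyOf, wordsOf]

theorem length_pre' (hl : l + 1 = t * n) (c : Loc q l) (g : BM i m)
    (G : BM a (t * n)) (h : BM l (t * i + a)) (ω : Om q l (t * n)) (u : List Bool) :
    (pre f (keyOf aux n t g G h ω.1) (levelPads (keyOf aux n t g G h ω.1) (ndW c)) u (stW c)).length =
      t * n := by
  rw [length_pre, length_rows]
  exact hl

theorem ofFn_preF (hl : l + 1 = t * n) (c : Loc q l) (g : BM i m)
    (G : BM a (t * n)) (h : BM l (t * i + a)) (ω : Om q l (t * n)) :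
    List.ofFn (preF f aux c g G h ω) = pre f (keyOf aux n t g G h ω.1)
      (levelPads (keyOf aux n t g G h ω.1) (ndW c))
      (honW f (keyOf aux n t g G h ω.1) (wordsOf ω.2) (ndW c)) (stW c) :=
  ofFn_toBV (length_pre' hl c g G h ω _)

theorem keyOf_PlF (hl : l + 1 = t * n) (hq : q ≤ 2 ^ l) (c : Loc q l) (g : BM i m)
    (G : BM a (t * n)) (h : BM l (t * i + a)) (ω : Om q l (t * n)) (X : Fin t → BV n) :
    keyOf aux n t g G h (PlF f aux hq c g G h ω X).1 =
      plantK f (keyOf aux n t g G h ω.1) (wordsOf ω.2) (ndW c) (stW c) (List.ofFn (flat X)) := by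
  have h2 : xorW (pre f (keyOf aux n t g G h ω.1) (levelPads (keyOf aux n t g G h ω.1) (ndW c))
      (honW f (keyOf aux n t g G h ω.1) (wordsOf ω.2) (ndW c)) (stW c)) (List.ofFn (flat X)) =
      List.ofFn (preF f aux c g G h ω + flat X) := by
    rw [← xorW_ofFn, ofFn_preF hl]
  rw [plantK, h2, levelPads_keyOf _ _ _ _ (ndW_lt hq c), wordsOf, setW_ofFn _ _ (stW_lt c)]
  simp only [keyOf, Prod.mk.injEq, true_and]
  rw [setW_ofFn _ _ (ndW_lt hq c)]
  congr 1
  funext d
  rw [PlF]
  simp only
  rcases eq_or_ne d ⟨(ndW c).tail.length, ndW_lt hq c⟩ with hd | hd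
  · subst hd
    rw [Function.update_self, Function.update_self, wordsOf]
    congr 1
    funext j
    rcases eq_or_ne j ⟨(stW c).length, stW_lt c⟩ with hj | hj
    · subst hj
      rw [Function.update_self, Function.update_self]
    · rw [Function.update_of_ne hj, Function.update_of_ne hj]
  · rw [Function.update_of_ne hd, Function.update_of_ne hd]

theorem pads_keyOf (hq : q ≤ 2 ^ l) (c : Loc q l) (g : BM i m) (G : BM a (t * n))
    (h : BM l (t * i + a)) (ω : Om q l (t * n)) :
    (levelPads (keyOf aux n t g G h ω.1) (ndW c)).length = 2 * l := by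
  rw [levelPads_keyOf _ _ _ _ (ndW_lt hq c), wordsOf, List.length_ofFn]

theorem length_LL (g : BM i m) (G : BM a (t * n)) (h : BM l (t * i + a))
    (π : Fin (l + 1) → Fin (2 * l) → BV (t * n)) : (LL (keyOf aux n t g G h π)).length = l := by
  rw [LL, List.length_map, length_rows]

theorem length_honAt' (g : BM i m) (G : BM a (t * n)) (h : BM l (t * i + a))
    (ω : Om q l (t * n)) {ν : ℕ} (h0 : 0 < ν) (h1 : ν < 2 * q) :
    (honAt (HH f) (keyOf aux n t g G h ω.1) (wordsOf ω.2) ν).length = 2 * l := by
  have hw : (wordsOf ω.2).length = q := by rw [wordsOf, List.length_ofFn]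
  rw [honAt]
  split_ifs with h2
  · rw [hw] at h2
    rw [List.length_append,
      length_hashAt (H := HH f) (L := LL) (fun k w u => length_HH k w u) (by omega) (by
        rw [hw]; omega),
      length_hashAt (H := HH f) (L := LL) (fun k w u => length_HH k w u) (by omega) (by
        rw [hw]; omega), length_LL]
    omega
  · rw [hw] at h2
    rw [leafAt, List.drop_eq_getElem_cons (by rw [hw]; omega), List.headD_cons]
    simp [wordsOf]

theorem zHF_PlF (hl : l + 1 = t * n) (hq : q ≤ 2 ^ l) (c : Loc q l) (g : BM i m)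
    (G : BM a (t * n)) (h : BM l (t * i + a)) (ω : Om q l (t * n)) (X : Fin t → BV n) :
    zHF f aux c g G h (PlF f aux hq c g G h ω X) = X := by
  have hw : (wordsOf ω.2).length = q := by rw [wordsOf, List.length_ofFn]
  have h1 := c.1.2
  have hd : (Nat.bits (c.1 + 1)).tail.length < (keyOf aux n t g G h ω.1).2.2.2.length := by
    have := ndW_lt hq c
    rw [ndW] at this
    simpa [keyOf] using this
  have h2 := inp_plantK (f := f) (k := keyOf aux n t g G h ω.1) (rs := wordsOf ω.2) (i := c.1 + 1)
    (J := stW c) (X := List.ofFn (flat X)) (by omega) (by rw [hw]; omega) hd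
    (by
      have := pads_keyOf (aux := aux) hq c g G h ω
      rw [ndW] at this
      rw [this]
      exact stW_lt c)
    (by
      rw [length_honAt' _ _ _ _ (by omega) (by omega)]
      exact stW_lt c)
    (by rw [length_rows, List.length_ofFn]; exact hl.symm)
  rw [zHF, keyOf_PlF hl]
  have e : (PlF f aux hq c g G h ω X).2 = ω.2 := rfl
  rw [e]
  simp only [ndW] at h2 ⊢
  rw [h2, toX_flat]

open Classical in
theorem card_PlF (hl : l + 1 = t * n) (hq : q ≤ 2 ^ l) (c : Loc q l) (g : BM i m)
    (G : BM a (t * n)) (h : BM l (t * i + a)) (T : Om q l (t * n) → Prop) :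
    (univ.filter fun s : Om q l (t * n) × (Fin t → BV n) => T (PlF f aux hq c g G h s.1 s.2)).card =
      Fintype.card (Fin t → BV n) * (univ.filter T).card := by
  set dp : Fin (l + 1) := ⟨(ndW c).tail.length, ndW_lt hq c⟩ with hdp
  set sp : Fin (2 * l) := ⟨(stW c).length, stW_lt c⟩ with hsp
  -- the bijection
  let φ : Om q l (t * n) × (Fin t → BV n) → Om q l (t * n) × (Fin t → BV n) := fun s =>
    (PlF f aux hq c g G h s.1 s.2, toX t n (List.ofFn (s.1.1 dp sp)))
  have hinj : Function.Injective φ := by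
    rintro ⟨ω, X⟩ ⟨ω', X'⟩ he
    simp only [φ, Prod.mk.injEq] at he
    obtain ⟨he1, he2⟩ := he
    have h1 : ω.1 dp sp = ω'.1 dp sp := by
      apply List.ofFn_injective
      rw [← flat_toX (t := t) (n := n) (w := List.ofFn (ω.1 dp sp)) (by rw [List.length_ofFn]),
        he2, flat_toX (by rw [List.length_ofFn])]
    have h2 : X = X' := by
      rw [← zHF_PlF (f := f) (aux := aux) hl hq c g G h ω X, he1, zHF_PlF hl]
    have h3 : ω.2 = ω'.2 := by
      have h3' : (PlF f aux hq c g G h ω X).2 = (PlF f aux hq c g G h ω' X').2 := by rw [he1]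
      exact h3'
    have h4 : ω.1 = ω'.1 := by
      have h5 : (PlF f aux hq c g G h ω X).1 = (PlF f aux hq c g G h ω' X').1 := by rw [he1]
      rw [PlF, PlF] at h5
      simp only at h5
      rw [← hdp, ← hsp] at h5
      funext d j
      have h6 := congrFun (congrFun h5 d) j
      by_cases hd : d = dp
      · subst hd
        rw [Function.update_self, Function.update_self] at h6
        by_cases hj : j = sp
        · rw [hj]
          exact h1
        · rwa [Function.update_of_ne hj, Function.update_of_ne hj] at h6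
      · rwa [Function.update_of_ne hd, Function.update_of_ne hd] at h6
    rw [Prod.mk.injEq]
    exact ⟨Prod.ext h4 h3, h2⟩
  have hbij : Function.Bijective φ := Finite.injective_iff_bijective.1 hinj
  have h1 : (univ.filter fun s : Om q l (t * n) × (Fin t → BV n) =>
      T (PlF f aux hq c g G h s.1 s.2)).card =
      (univ.filter fun s : Om q l (t * n) × (Fin t → BV n) => T s.1).card := by
    refine Finset.card_bij (fun s _ => φ s) ?_ ?_ ?_
    · intro s hs
      simpa [φ] using hs
    · intro s _ s' _ he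
      exact hinj he
    · intro s hs
      obtain ⟨s', hs'⟩ := hbij.2 s
      refine ⟨s', ?_, hs'⟩
      simp only [Finset.mem_filter, Finset.mem_univ, true_and] at hs ⊢
      rw [← hs'] at hs
      exact hs
  rw [h1]
  have h2 : (univ.filter fun s : Om q l (t * n) × (Fin t → BV n) => T s.1) =
      (univ.filter T) ×ˢ (univ : Finset (Fin t → BV n)) := by
    ext s
    simp
  rw [h2, Finset.card_product, Finset.card_univ, Nat.mul_comm]

theorem length_pad (g : BM i m) (G : BM a (t * n)) (h : BM l (t * i + a))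
    (π : Fin (l + 1) → Fin (2 * l) → BV (t * n)) {w : List Bool} (hw : w.tail.length < l + 1)
    {j : ℕ} (hj : j < 2 * l) :
    (((levelPads (keyOf aux n t g G h π) w).drop j).headD []).length = t * n := by
  rw [levelPads_keyOf _ _ _ _ hw, wordsOf, headD_drop_ofFn _ _ hj, List.length_ofFn]

/-- a collision at a node gives a collision at a place -/
theorem place_of_node (hl : l + 1 = t * n) (hq : q ≤ 2 ^ l) {fF : BV n → BV m}
    (hf : ∀ x, f (aux, List.ofFn x) = List.ofFn (fF x)) (g : BM i m)
    (G : BM a (t * n)) (h : BM l (t * i + a)) (ω : Om q l (t * n))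
    (hN : NodeCol (HH f) LL (keyOf aux n t g G h ω.1) (wordsOf ω.2)
      (E (keyOf aux n t g G h ω.1, wordsOf ω.2))) :
    ∃ c, zEF f aux E c g G h ω ≠ zHF f aux c g G h ω ∧
      FF fF g G h (zEF f aux E c g G h ω) = FF fF g G h (zHF f aux c g G h ω) := by
  have hw : (wordsOf ω.2).length = q := by rw [wordsOf, List.length_ofFn]
  obtain ⟨ν, h0, h1, h2, h3, h4, h5, h6⟩ := hN
  rw [hw] at h1
  have hN' : ν - 1 < 2 * q - 1 := by omega
  have hν : ν - 1 + 1 = ν := by omega
  rw [length_LL] at h4
  have hlen := length_honAt' (f := f) (aux := aux) g G h ω h0 h1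
  rw [h2, HH, HH] at h6
  simp only at h6
  rw [h3] at h6 h5
  have hnd : ∀ j : Fin (2 * l), ndW ((⟨ν - 1, hN'⟩, j) : Loc q l) = Nat.bits ν := by
    intro j
    rw [ndW]
    simp only
    rw [hν]
  have hw' : (Nat.bits ν).tail.length < l + 1 := by
    have h7 : (Nat.bits ν).length ≤ l + 1 := bits_length_le (by rw [pow_succ]; omega)
    have := List.length_pos_of_ne_nil (bits_ne_nil h0)
    rw [List.length_tail]
    omega
  obtain ⟨j, hj, h7, h8⟩ := step_collision (f := f) (by rw [h4, hlen]) h5 (by
    intro j hj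
    rw [h4] at hj
    rw [length_pad g G h ω.1 hw' hj, length_rows]
    exact hl.symm) h6
  rw [h4] at hj
  set c : Loc q l := (⟨ν - 1, hN'⟩, ⟨j, hj⟩) with hc
  have hst : stW c = List.replicate j true := rfl
  have hc1 : c.1.1 + 1 = ν := hν
  have hnd' : ndW c = Nat.bits ν := hnd _
  have hinp : ∀ u, (inp f (keyOf aux n t g G h ω.1) (levelPads (keyOf aux n t g G h ω.1) (Nat.bits ν)) u
      (List.replicate j true)).length = t * n := by
    intro u
    rw [inp, length_xorW, length_pre, length_rows, List.length_replicate,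
      length_pad g G h ω.1 hw' hj]
    omega
  have e1 : List.ofFn (flat (zEF f aux E c g G h ω)) = inp f (keyOf aux n t g G h ω.1)
      (levelPads (keyOf aux n t g G h ω.1) (Nat.bits ν))
      (E (keyOf aux n t g G h ω.1, wordsOf ω.2)).2.1 (List.replicate j true) := by
    rw [zEF, hnd', hst]
    exact flat_toX (hinp _)
  have e2 : List.ofFn (flat (zHF f aux c g G h ω)) = inp f (keyOf aux n t g G h ω.1)
      (levelPads (keyOf aux n t g G h ω.1) (Nat.bits ν))
      (honAt (HH f) (keyOf aux n t g G h ω.1) (wordsOf ω.2) ν) (List.replicate j true) := by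
    rw [zHF, hnd', hst, hc1]
    exact flat_toX (hinp _)
  refine ⟨c, ?_, ?_⟩
  · intro h9
    apply h7
    rw [← e1, ← e2, h9]
  · apply List.ofFn_injective
    rw [← FK_ofFn hf g G h ω.1, ← FK_ofFn hf g G h ω.1, e1, e2]
    exact h8

open Classical in
/-- for most pads and leaves there is a collision at a place -/
theorem count_place (hl : l + 1 = t * n) (hq : q ≤ 2 ^ l) (hq' : 4 * q ≤ 2 ^ l)
    {fF : BV n → BV m} (hf : ∀ x, f (aux, List.ofFn x) = List.ofFn (fF x)) (g : BM i m)
    (G : BM a (t * n)) (h : BM l (t * i + a))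
    (hN : ∀ π : Fin (l + 1) → Fin (2 * l) → BV (t * n),
      (univ.filter fun r : Fin q → Fin (2 * l) → Bool => ¬ NodeCol (HH f) LL (keyOf aux n t g G h π)
        (wordsOf r) (E (keyOf aux n t g G h π, wordsOf r))).card * 2 ^ l ≤
      q * Fintype.card (Fin q → Fin (2 * l) → Bool)) :
    4 * (univ.filter fun ω : Om q l (t * n) => ¬ ∃ c, zEF f aux E c g G h ω ≠ zHF f aux c g G h ω ∧
      FF fF g G h (zEF f aux E c g G h ω) = FF fF g G h (zHF f aux c g G h ω)).card ≤
      Fintype.card (Om q l (t * n)) := by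
  have h1 : ∀ π : Fin (l + 1) → Fin (2 * l) → BV (t * n),
      4 * (univ.filter fun r : Fin q → Fin (2 * l) → Bool => ¬ NodeCol (HH f) LL
        (keyOf aux n t g G h π) (wordsOf r) (E (keyOf aux n t g G h π, wordsOf r))).card ≤
      Fintype.card (Fin q → Fin (2 * l) → Bool) := by
    intro π
    have h2 := hN π
    have h3 : 0 < 2 ^ l := by positivity
    refine Nat.le_of_mul_le_mul_right ?_ h3
    calc _ = 4 * ((univ.filter fun r : Fin q → Fin (2 * l) → Bool => ¬ NodeCol (HH f) LL
        (keyOf aux n t g G h π) (wordsOf r) (E (keyOf aux n t g G h π, wordsOf r))).card * 2 ^ l) := by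
          ring
      _ ≤ 4 * (q * Fintype.card (Fin q → Fin (2 * l) → Bool)) := Nat.mul_le_mul_left _ h2
      _ = 4 * q * Fintype.card (Fin q → Fin (2 * l) → Bool) := by ring
      _ ≤ 2 ^ l * Fintype.card (Fin q → Fin (2 * l) → Bool) := Nat.mul_le_mul_right _ hq'
      _ = _ := by ring
  calc 4 * (univ.filter fun ω : Om q l (t * n) => ¬ ∃ c, zEF f aux E c g G h ω ≠ zHF f aux c g G h ω ∧
      FF fF g G h (zEF f aux E c g G h ω) = FF fF g G h (zHF f aux c g G h ω)).card
      ≤ 4 * (univ.filter fun ω : Om q l (t * n) => ¬ NodeCol (HH f) LL (keyOf aux n t g G h ω.1)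
          (wordsOf ω.2) (E (keyOf aux n t g G h ω.1, wordsOf ω.2))).card := by
        apply Nat.mul_le_mul_left
        apply Finset.card_le_card
        intro ω hω
        simp only [Finset.mem_filter, Finset.mem_univ, true_and] at hω ⊢
        exact fun h2 => hω (place_of_node hl hq hf g G h ω h2)
    _ = ∑ π : Fin (l + 1) → Fin (2 * l) → BV (t * n),
        4 * (univ.filter fun r : Fin q → Fin (2 * l) → Bool => ¬ NodeCol (HH f) LL
          (keyOf aux n t g G h π) (wordsOf r) (E (keyOf aux n t g G h π, wordsOf r))).card := by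
        rw [← Finset.mul_sum]
        congr 1
        simp only [Finset.card_filter]
        rw [Fintype.sum_prod_type]
    _ ≤ ∑ π : Fin (l + 1) → Fin (2 * l) → BV (t * n),
        Fintype.card (Fin q → Fin (2 * l) → Bool) := Finset.sum_le_sum fun π _ => h1 π
    _ = Fintype.card (Om q l (t * n)) := by
        rw [Finset.sum_const, smul_eq_mul, Finset.card_univ, ← Fintype.card_prod]

/-- the attempt to invert -/
def attW (f : List Bool × List Bool → List Bool)
    (E : Ty.key.El × List (List Bool) → List Bool × (List Bool × List Bool)) (y : List Bool)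
    (k : Ty.key.El) (rs : List (List Bool)) (X w J c : List Bool) : List Bool :=
  ((inp f (plantK f (fixK k (xorW y (f (k.1.1.1, (X.drop (c.length * k.1.1.2.length)).take k.1.1.2.length))))
      rs w J X)
    (levelPads (plantK f (fixK k (xorW y (f (k.1.1.1, (X.drop (c.length * k.1.1.2.length)).take
      k.1.1.2.length)))) rs w J X) w)
    (E (plantK f (fixK k (xorW y (f (k.1.1.1, (X.drop (c.length * k.1.1.2.length)).take k.1.1.2.length))))
      rs w J X, rs)).2.1 J).drop (c.length * k.1.1.2.length)).take k.1.1.2.length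

theorem length_inp (hl : l + 1 = t * n) (hq : q ≤ 2 ^ l) (c : Loc q l) (g : BM i m)
    (G : BM a (t * n)) (h : BM l (t * i + a)) (ω : Om q l (t * n)) (u : List Bool) :
    (inp f (keyOf aux n t g G h ω.1) (levelPads (keyOf aux n t g G h ω.1) (ndW c)) u (stW c)).length =
      t * n := by
  rw [inp, length_xorW, length_pre' hl, length_pad g G h ω.1 (ndW_lt hq c) (stW_lt c),
    Nat.min_self]

theorem attW_eq (hl : l + 1 = t * n) (hq : q ≤ 2 ^ l) {fF : BV n → BV m}
    (hf : ∀ x, f (aux, List.ofFn x) = List.ofFn (fF x)) (c : Loc q l) (j : Fin t) (u : BV n)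
    (g : BM i m) (G : BM a (t * n)) (h : BM l (t * i + a)) (ω : Om q l (t * n))
    (X : Fin t → BV n) :
    attW f E (f (aux, List.ofFn u)) (keyOf aux n t g G h ω.1) (wordsOf ω.2) (List.ofFn (flat X)) (ndW c)
      (stW c) (List.replicate j true) =
    List.ofFn (zEF f aux E c (fixF (fF u + fF (X j)) g) G h
      (PlF f aux hq c (fixF (fF u + fF (X j)) g) G h ω X) j) := by
  have e1 : (keyOf aux n t g G h ω.1).1.1.2.length = n := by simp [keyOf]
  have e2 : (keyOf aux n t g G h ω.1).1.1.1 = aux := rfl
  rw [attW, e1, e2, List.length_replicate, block_flat, hf, hf, xorW_ofFn, fixK_keyOf,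
    ← keyOf_PlF hl hq, zEF, ← toX_block (length_inp hl hq c _ _ _ _ _)]
  rfl

end Pool.Agent.Lib.MP_2b5695_lc.Owf
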