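import Pool.Agent.Lib.MP_2b5695_lc.Owf.Step

/-!
Planting an input of the function `FK` in the tree.
-/

namespace Pool.Agent.Lib.MP_2b5695_lc.Owf

open Alg

section general

variable {K : Ty} {H : K.El × List Bool × List Bool → List Bool} {k k' : K.El}
  {rs : List (List Bool)}

theorem length_bits_double {i : ℕ} (h : 0 < i) :
    (Nat.bits (2 * i)).length = (Nat.bits i).length + 1 := by
  rw [bits_step (by omega), List.length_cons]
  congr 3
  omega

theorem length_bits_double_succ {i : ℕ} (h : 0 < i) :
    (Nat.bits (2 * i + 1)).length = (Nat.bits i).length + 1 := by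
  rw [bits_step (by omega), List.length_cons]
  congr 3
  omega

/-- the hashes below some level do not change -/
theorem hashAt_congr {d : ℕ} (hk : ∀ w u, d < w.length → H (k', w, u) = H (k, w, u)) :
    ∀ i, 0 < i → i < 2 * rs.length → d < (Nat.bits i).length →
      hashAt H k' rs i = hashAt H k rs i := by
  have key : ∀ N i, 2 * rs.length - i ≤ N → 0 < i → i < 2 * rs.length →
      d < (Nat.bits i).length → hashAt H k' rs i = hashAt H k rs i := by
    intro N
    induction N with
    | zero => intro i h0 h1 h2 _; omega
    | succ N ih =>
      intro i h0 h1 h2 h3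
      rw [hashAt_hon h1 h2, hashAt_hon h1 h2, hk _ _ h3]
      congr 3
      rw [honAt, honAt]
      split_ifs with h4
      · rw [ih (2 * i) (by omega) (by omega) (by omega) (by rw [length_bits_double h1]; omega),
          ih (2 * i + 1) (by omega) (by omega) (by omega)
            (by rw [length_bits_double_succ h1]; omega)]
      · rfl
  exact fun i => key _ i le_rfl

theorem honAt_congr {d : ℕ} (hk : ∀ w u, d < w.length → H (k', w, u) = H (k, w, u)) {i : ℕ}
    (h0 : 0 < i) (h1 : i < 2 * rs.length) (h2 : d ≤ (Nat.bits i).length) :
    honAt H k' rs i = honAt H k rs i := by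
  rw [honAt, honAt]
  split_ifs with h4
  · rw [hashAt_congr hk (2 * i) (by omega) (by omega) (by rw [length_bits_double h0]; omega),
      hashAt_congr hk (2 * i + 1) (by omega) (by omega)
        (by rw [length_bits_double_succ h0]; omega)]
  · rfl

end general

section setW

variable {α : Type} {l : List α} {J : List Bool} {x : α}

theorem setW_drop_lt {j : ℕ} (h : j < J.length) (hJ : J.length ≤ l.length) (d : α) :
    ((setW l J x).drop j).headD d = (l.drop j).headD d := by
  rw [setW, List.drop_append_of_le_length (by rw [List.length_take]; omega)]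
  have h1 : j < (l.take J.length).length := by rw [List.length_take]; omega
  rw [List.drop_eq_getElem_cons h1, List.cons_append, List.headD_cons,
    List.drop_eq_getElem_cons (by omega), List.headD_cons, List.getElem_take]

theorem setW_drop_eq (hJ : J.length ≤ l.length) (d : α) :
    ((setW l J x).drop J.length).headD d = x := by
  have h1 : (l.take J.length).length = J.length := by rw [List.length_take]; omega
  rw [setW]
  nth_rw 1 [← h1]
  rw [List.drop_left, List.headD_cons]

theorem setW_drop_gt {j : ℕ} (h : J.length < j) (hJ : J.length < l.length) (d : α) :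
    ((setW l J x).drop j).headD d = (l.drop j).headD d := by
  have h1 : (l.take J.length).length = J.length := by rw [List.length_take]; omega
  rw [setW, List.drop_append, h1, List.drop_eq_nil_of_le (by omega), List.nil_append]
  obtain ⟨r, rfl⟩ := Nat.exists_eq_add_of_lt h
  have h2 : J.length + r + 1 - J.length = r + 1 := by omega
  rw [h2, List.drop_succ_cons, List.drop_drop]
  congr 2
  omega

theorem length_setW (h : J.length < l.length) : (setW l J x).length = l.length := by
  rw [setW, List.length_append, List.length_take, List.length_cons, List.length_drop]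
  omega

end setW

variable {f : List Bool × List Bool → List Bool} {k : Ty.key.El} {rs : List (List Bool)}

theorem honW_eq {i : ℕ} (h0 : 0 < i) (h1 : i < 2 * rs.length) :
    honW f k rs (Nat.bits i) = honAt (HH f) k rs i := by
  rw [honW, honAt, val_bits, val_bits]
  by_cases h : i < rs.length
  · have hJ2 : Nat.bits (2 * i) = false :: Nat.bits i := by
      rw [bits_step (by omega)]
      have e1 : 2 * i / 2 = i := by omega
      have e2 : ¬ (2 * i % 2 = 1) := by omega
      rw [e1, decide_eq_false e2]
    have hJ3 : Nat.bits (2 * i + 1) = true :: Nat.bits i := by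
      rw [bits_step (by omega)]
      have e1 : (2 * i + 1) / 2 = i := by omega
      have e2 : (2 * i + 1) % 2 = 1 := by omega
      rw [e1, decide_eq_true e2]
    rw [decide_eq_true h, cond_true, if_pos h, ← hJ2, ← hJ3, look_tabA (by omega) (by omega),
      look_tabA (by omega) (by omega)]
  · rw [decide_eq_false h, cond_false, if_neg h, look_slots (by omega) h1]

section plant

variable {i : ℕ} {J X : List Bool}

theorem levelPads_plantK (hd : (Nat.bits i).tail.length < k.2.2.2.length) :
    levelPads (plantK f k rs (Nat.bits i) J X) (Nat.bits i) = setW (levelPads k (Nat.bits i)) J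
      (xorW (pre f k (levelPads k (Nat.bits i)) (honW f k rs (Nat.bits i)) J) X) := by
  rw [levelPads, plantK]
  exact setW_drop_eq hd.le _

theorem levelPads_plantK_ne (h0 : 0 < i) (hd : (Nat.bits i).tail.length < k.2.2.2.length)
    {w : List Bool} (hw : (Nat.bits i).length < w.length) :
    levelPads (plantK f k rs (Nat.bits i) J X) w = levelPads k w := by
  rw [levelPads, levelPads, plantK]
  refine setW_drop_gt ?_ hd _
  have := List.length_pos_of_ne_nil (bits_ne_nil h0)
  rw [List.length_tail, List.length_tail]
  omega

theorem nodeH_congr {k' : Ty.key.El} {lp lp' : List (List Bool)} (h1 : k'.1 = k.1)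
    (h2 : k'.2.1 = k.2.1) (h3 : k'.2.2.1 = k.2.2.1) : ∀ {u : List Bool},
    (∀ j, j < u.length → (lp'.drop j).headD [] = (lp.drop j).headD []) →
    nodeH f k' lp' u = nodeH f k lp u
  | [], _ => by rw [nodeH, nodeH, h3]
  | e :: l, h => by
    rw [nodeH, nodeH, nodeH_congr h1 h2 h3 fun j hj => h j (by rw [List.length_cons]; omega),
      h l.length (by rw [List.length_cons]; omega), FK, FK, h1, h2, h3]

theorem HH_plantK_ne (h0 : 0 < i) (hd : (Nat.bits i).tail.length < k.2.2.2.length)
    {w : List Bool} (hw : (Nat.bits i).length < w.length) (u : List Bool) :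
    HH f (plantK f k rs (Nat.bits i) J X, w, u) = HH f (k, w, u) := by
  rw [HH, HH]
  simp only
  rw [levelPads_plantK_ne h0 hd hw]
  exact nodeH_congr (k' := plantK f k rs (Nat.bits i) J X) (k := k) rfl rfl rfl fun _ _ => rfl

variable (h0 : 0 < i) (h1 : i < 2 * rs.length)
  (hd : (Nat.bits i).tail.length < k.2.2.2.length)
  (hJ : J.length < (levelPads k (Nat.bits i)).length)

include h0 h1 hd in
/-- the input at the node does not change -/
theorem honAt_plantK :
    honAt (HH f) (plantK f k rs (Nat.bits i) J X) rs i = honAt (HH f) k rs i :=
  honAt_congr (d := (Nat.bits i).length) (fun _ u hw => HH_plantK_ne h0 hd hw u) h0 h1 le_rfl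

include hd hJ in
/-- what is masked does not change -/
theorem pre_plantK {u : List Bool} (hu : J.length < u.length) :
    pre f (plantK f k rs (Nat.bits i) J X) (levelPads (plantK f k rs (Nat.bits i) J X)
      (Nat.bits i)) u J = pre f k (levelPads k (Nat.bits i)) u J := by
  rw [pre, pre]
  congr 1
  refine nodeH_congr (k' := plantK f k rs (Nat.bits i) J X) (k := k) rfl rfl rfl fun j hj => ?_
  rw [List.length_tail, length_suf hu] at hj
  rw [levelPads_plantK hd]
  exact setW_drop_lt (by omega) hJ.le _

include h0 h1 hd hJ in
/-- the planted input -/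
theorem inp_plantK (hu : J.length < (honAt (HH f) k rs i).length)
    (hX : X.length = k.2.2.1.length + 1) :
    inp f (plantK f k rs (Nat.bits i) J X) (levelPads (plantK f k rs (Nat.bits i) J X)
      (Nat.bits i)) (honAt (HH f) (plantK f k rs (Nat.bits i) J X) rs i) J = X := by
  rw [inp, honAt_plantK h0 h1 hd, pre_plantK hd hJ hu, levelPads_plantK hd,
    setW_drop_eq hJ.le, honW_eq h0 h1]
  exact xorW_cancel (by rw [length_pre, hX])

end plant

end Pool.Agent.Lib.MP_2b5695_lc.Owf
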