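import Pool.Agent.Lib.MP_2b5695_lc.Owf.Place

/-!
Random keys, leaves and inputs from one random word.
-/

namespace Pool.Agent.Lib.MP_2b5695_lc.Owf

open Alg Finset

variable {n m i t a l q : ℕ}

open Classical in
/-- counting words with a random prefix -/
theorem count_prefix {α : Type} [Fintype α] {b R : ℕ} (hb : b ≤ R) (e : α → List Bool)
    (hlen : ∀ s, (e s).length = b) (hinj : Function.Injective e)
    (hcard : Fintype.card α = 2 ^ b) (P : α → Prop) (T : List Bool → Prop)
    (hT : ∀ s v, P s → T (e s ++ v)) :
    (univ.filter P).card * 2 ^ R ≤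
      Fintype.card α * (univ.filter fun w : BV R => T (List.ofFn w)).card := by
  obtain ⟨r, rfl⟩ := Nat.exists_eq_add_of_le hb
  let φ : α × BV r → BV (b + r) := fun s => toBV (b + r) (e s.1 ++ List.ofFn s.2)
  have h1 : ∀ s, List.ofFn (φ s) = e s.1 ++ List.ofFn s.2 := fun s =>
    ofFn_toBV (by rw [List.length_append, hlen, List.length_ofFn])
  have hφ : Function.Injective φ := by
    intro s s' h
    have h2 : e s.1 ++ List.ofFn s.2 = e s'.1 ++ List.ofFn s'.2 := by rw [← h1, ← h1, h]
    obtain ⟨h3, h4⟩ := List.append_inj h2 (by rw [hlen, hlen])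
    exact Prod.ext (hinj h3) (List.ofFn_injective h4)
  have h2 : ((univ.filter P) ×ˢ (univ : Finset (BV r))).card ≤
      (univ.filter fun w : BV (b + r) => T (List.ofFn w)).card := by
    refine Finset.card_le_card_of_injOn φ ?_ hφ.injOn
    intro s hs
    have hs' : P s.1 := by simpa using hs
    simp only [Finset.coe_filter, Finset.mem_univ, true_and, Set.mem_ofPred_eq]
    rw [h1]
    exact hT _ _ hs'
  rw [Finset.card_product, Finset.card_univ] at h2
  have h3 : Fintype.card (BV r) = 2 ^ r := by simp
  rw [h3] at h2
  calc (univ.filter P).card * 2 ^ (b + r) = 2 ^ b * ((univ.filter P).card * 2 ^ r) := by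
        rw [pow_add]; ring
    _ ≤ _ := by rw [hcard]; exact Nat.mul_le_mul_left _ h2

/-- everything that is random, as one word -/
def encS (s : BM i m × BM a (t * n) × BM l (t * i + a) × Om q l (t * n) × (Fin t → BV n)) :
    List Bool :=
  List.ofFn (flat s.1) ++ (List.ofFn (flat s.2.1) ++ (List.ofFn (flat s.2.2.1) ++
    (List.ofFn (flat fun d => flat (s.2.2.2.1.1 d)) ++ (List.ofFn (flat s.2.2.2.1.2) ++
      List.ofFn (flat s.2.2.2.2)))))

/-- the number of random bits -/
def lenS (n m i t a l q : ℕ) : ℕ :=
  i * m + (a * (t * n) + (l * (t * i + a) + ((l + 1) * (2 * l * (t * n)) + (q * (2 * l) + t * n))))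

theorem length_encS
    (s : BM i m × BM a (t * n) × BM l (t * i + a) × Om q l (t * n) × (Fin t → BV n)) :
    (encS s).length = lenS n m i t a l q := by
  simp only [encS, lenS, List.length_append, List.length_ofFn]

theorem encS_inj : Function.Injective (encS (n := n) (m := m) (i := i) (t := t) (a := a) (l := l)
    (q := q)) := by
  intro s s' h
  rw [encS, encS] at h
  obtain ⟨h1, h⟩ := List.append_inj h (by rw [List.length_ofFn, List.length_ofFn])
  obtain ⟨h2, h⟩ := List.append_inj h (by rw [List.length_ofFn, List.length_ofFn])
  obtain ⟨h3, h⟩ := List.append_inj h (by rw [List.length_ofFn, List.length_ofFn])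
  obtain ⟨h4, h⟩ := List.append_inj h (by rw [List.length_ofFn, List.length_ofFn])
  obtain ⟨h5, h6⟩ := List.append_inj h (by rw [List.length_ofFn, List.length_ofFn])
  have h1 := flat_inj' (List.ofFn_injective h1)
  have h2 := flat_inj' (List.ofFn_injective h2)
  have h3 := flat_inj' (List.ofFn_injective h3)
  have h4 := flat_inj' (List.ofFn_injective h4)
  have h5 := flat_inj' (List.ofFn_injective h5)
  have h6 := flat_inj' (List.ofFn_injective h6)
  refine Prod.ext h1 (Prod.ext h2 (Prod.ext h3 (Prod.ext (Prod.ext ?_ h5) h6)))
  funext d
  exact flat_inj' (congrFun h4 d)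

theorem card_encS : Fintype.card (BM i m × BM a (t * n) × BM l (t * i + a) × Om q l (t * n) ×
    (Fin t → BV n)) = 2 ^ lenS n m i t a l q := by
  simp only [Fintype.card_prod, Fintype.card_fun, Fintype.card_fin, Fintype.card_bool, lenS]
  simp only [pow_add, ← pow_mul]
  ring

theorem blocks_append {nu : List Bool} (hn : nu.length = n) (X : Fin t → BV n) (v : List Bool) :
    blocks nu (List.replicate t true) (List.ofFn (flat X) ++ v) = wordsOf X := by
  rw [blocks, scan_replicate, wordsOf]
  congr 1
  funext j
  simp only [List.length_replicate]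
  rw [hn, ← block_flat, List.drop_append_of_le_length, List.take_append_of_le_length]
  · rw [List.length_drop, List.length_ofFn]
    have : (j.1 + 1) * n ≤ t * n := Nat.mul_le_mul_right _ j.2
    rw [Nat.succ_mul] at this
    omega
  · rw [List.length_ofFn]
    exact Nat.mul_le_mul_right _ j.2.le

/-- the random objects from a word -/
def parse (aux nu tu Nu lu qu y iu au w : List Bool) : Ty.key.El × (List (List Bool) × List Bool) :=
  let w1 := w.drop (iu.length * y.length)
  let w2 := w1.drop (au.length * Nu.length)
  let ku := List.replicate (tu.length * iu.length) true ++ List.replicate au.length true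
  let w3 := w2.drop (lu.length * ku.length)
  let su := List.replicate (2 * lu.length) true
  let w4 := w3.drop ((lu.length + 1) * (su.length * Nu.length))
  let w5 := w4.drop (qu.length * su.length)
  ((((aux, nu), tu), ((blocks y iu w, blocks Nu au w1), (blocks ku lu w2,
    (blocks (List.replicate (su.length * Nu.length) true) (true :: lu) w3).map
      (fun x => blocks Nu su x)))), (blocks su qu w4, w5.take Nu.length))

theorem parse_encS {aux y : List Bool} (hy : y.length = m)
    (s : BM i m × BM a (t * n) × BM l (t * i + a) × Om q l (t * n) × (Fin t → BV n))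
    (v : List Bool) :
    parse aux (List.replicate n true) (List.replicate t true) (List.replicate (t * n) true)
      (List.replicate l true) (List.replicate q true) y (List.replicate i true)
      (List.replicate a true) (encS s ++ v) =
    (keyOf aux n t s.1 s.2.1 s.2.2.1 s.2.2.2.1.1, (wordsOf s.2.2.2.1.2,
      List.ofFn (flat s.2.2.2.2))) := by
  have hd : ∀ (b c : ℕ) (M : Fin b → BV c) (u : List Bool),
      (List.ofFn (flat M) ++ u).drop (b * c) = u := fun b c M u =>
    List.drop_left' (by rw [List.length_ofFn])
  rw [parse, encS]
  simp only [List.append_assoc, List.length_append, List.length_replicate, hy, hd, keyOf,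
    Prod.mk.injEq, true_and]
  have e1 : true :: List.replicate l true = List.replicate (l + 1) true := rfl
  rw [blocks_append hy, blocks_append (by rw [List.length_replicate]), blocks_append (by
    rw [List.length_append, List.length_replicate, List.length_replicate]), e1,
    blocks_append (by rw [List.length_replicate]), blocks_append (by rw [List.length_replicate]),
    List.take_left' (by rw [List.length_ofFn])]
  refine ⟨⟨⟨rfl, rfl⟩, rfl, ?_⟩, rfl, rfl⟩
  rw [wordsOf, List.map_ofFn]
  congr 1
  funext d
  simp only [Function.comp]
  have := blocks_append (nu := List.replicate (t * n) true) (by rw [List.length_replicate])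
    (s.2.2.2.1.1 d) []
  rwa [List.append_nil] at this

end Pool.Agent.Lib.MP_2b5695_lc.Owf
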