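import Pool.Agent.Lib.MP_2b5695_lc.Owf.LDef

/-!
Collisions at the steps of the hash function.
-/

namespace Pool.Agent.Lib.MP_2b5695_lc.Owf

open Alg

variable {f : List Bool × List Bool → List Bool} {k : Ty.key.El} {lp : List (List Bool)}

theorem suf_eq (u J : List Bool) : suf u J = u.drop (u.length - (J.length + 1)) := by
  rw [suf, List.length_drop]

theorem length_suf {u J : List Bool} (h : J.length < u.length) :
    (suf u J).length = J.length + 1 := by
  rw [suf_eq, List.length_drop]; omega

theorem suf_cons {e : Bool} {l J : List Bool} (h : J.length < l.length) :
    suf (e :: l) J = suf l J := by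
  rw [suf_eq, suf_eq, List.length_cons]
  have : l.length + 1 - (J.length + 1) = l.length - (J.length + 1) + 1 := by omega
  rw [this, List.drop_succ_cons]

theorem suf_full {e : Bool} {l J : List Bool} (h : J.length = l.length) :
    suf (e :: l) J = e :: l := by
  rw [suf_eq, List.length_cons, h, Nat.sub_self, List.drop_zero]

theorem length_pre (u J : List Bool) : (pre f k lp u J).length = k.2.2.1.length + 1 := by
  rw [pre, List.length_cons, length_nodeH]

theorem length_xorW (u v : List Bool) : (xorW u v).length = min u.length v.length := by
  rw [xorW, List.length_zipWith]

theorem xorW_inj : ∀ {u v p : List Bool}, u.length = v.length → u.length ≤ p.length →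
    xorW u p = xorW v p → u = v
  | [], [], _, _, _, _ => rfl
  | [], _ :: _, _, h, _, _ => by simp at h
  | _ :: _, [], _, h, _, _ => by simp at h
  | _ :: _, _ :: _, [], _, h, _ => by simp at h
  | x :: u, y :: v, z :: p, h, h', e => by
    simp only [xorW, List.zipWith_cons_cons, List.cons.injEq] at e
    have h1 : x = y := by
      have := e.1
      cases x <;> cases y <;> cases z <;> simp at this ⊢
    have h2 : u = v := xorW_inj (by simpa using h) (by simpa using h') e.2
    rw [h1, h2]

theorem xorW_cancel : ∀ {u v : List Bool}, u.length = v.length → xorW u (xorW u v) = v
  | [], [], _ => rfl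
  | [], _ :: _, h => by simp at h
  | _ :: _, [], h => by simp at h
  | x :: u, y :: v, h => by
    simp only [xorW, List.zipWith_cons_cons, List.cons.injEq]
    refine ⟨by cases x <;> cases y <;> rfl, xorW_cancel (by simpa using h)⟩

theorem nodeH_suf {u J : List Bool} (h : J.length < u.length) :
    nodeH f k lp (suf u J) = FK f k (inp f k lp u J) := by
  have h1 := length_suf h
  rw [inp, pre]
  cases hs : suf u J with
  | nil => rw [hs] at h1; simp at h1
  | cons e l =>
    rw [hs, List.length_cons] at h1
    have h2 : l.length = J.length := by omega
    rw [nodeH, List.headD_cons, List.tail_cons, h2]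

theorem inp_cons {e : Bool} {l J : List Bool} (h : J.length < l.length) :
    inp f k lp (e :: l) J = inp f k lp l J := by
  rw [inp, inp, pre, pre, suf_cons h]

/-- a collision for words of the same length gives a collision at a step -/
theorem step_collision : ∀ {u u' : List Bool}, u.length = u'.length → u ≠ u' →
    (∀ j, j < u.length → ((lp.drop j).headD []).length = k.2.2.1.length + 1) →
    nodeH f k lp u = nodeH f k lp u' →
    ∃ j < u.length, inp f k lp u (List.replicate j true) ≠ inp f k lp u' (List.replicate j true) ∧
      FK f k (inp f k lp u (List.replicate j true)) = FK f k (inp f k lp u' (List.replicate j true))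
  | [], [], _, h, _, _ => absurd rfl h
  | [], _ :: _, h, _, _, _ => by simp at h
  | _ :: _, [], h, _, _, _ => by simp at h
  | e :: l, e' :: l', h, hne, hp, heq => by
    have hl : l.length = l'.length := by simpa using h
    by_cases hc : l ≠ l' ∧ nodeH f k lp l = nodeH f k lp l'
    · obtain ⟨j, hj, h1, h2⟩ := step_collision hl hc.1
        (fun j hj => hp j (by rw [List.length_cons]; omega)) hc.2
      refine ⟨j, by rw [List.length_cons]; omega, ?_⟩
      rw [inp_cons (by rw [List.length_replicate]; omega),
        inp_cons (by rw [List.length_replicate]; omega)]
      exact ⟨h1, h2⟩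
    · refine ⟨l.length, by rw [List.length_cons]; omega, ?_, ?_⟩
      · have h3 : (List.replicate l.length true).length = l.length := List.length_replicate
        have h3' : (List.replicate l.length true).length = l'.length := by
          rw [List.length_replicate, hl]
        intro hi
        rw [inp, inp] at hi
        have h4 := xorW_inj (by rw [length_pre, length_pre])
          (by rw [length_pre, h3, hp _ (by rw [List.length_cons]; omega)]) hi
        rw [pre, pre, suf_full h3, suf_full h3', List.headD_cons, List.headD_cons, List.tail_cons,
          List.tail_cons, List.cons.injEq] at h4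
        apply hne
        rw [h4.1]
        congr 1
        by_contra hll
        exact hc ⟨hll, h4.2⟩
      · have h3 : (List.replicate l.length true).length = l.length := List.length_replicate
        have h3' : (List.replicate l.length true).length = l'.length := by
          rw [List.length_replicate, hl]
        rw [← nodeH_suf (by rw [List.length_cons]; omega), ← nodeH_suf (by
          rw [List.length_cons]; omega), suf_full h3, suf_full h3']
        exact heq

end Pool.Agent.Lib.MP_2b5695_lc.Owf
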